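import Pool.Agent.Lib.PQ.Cmp

set_option autoImplicit false

/-!
# The averages over discs in the direction of the plane
-/

open MeasureTheory Set Metric
open scoped ENNReal NNReal ContDiff Topology

namespace Pool.Agent.Lib.PQ

open Pool.Agent.P28b04d Pool.Agent.Lib.P28e

variable {Φ : W 2 → W 2}

/-- The domain of the parameters. -/
def Dom : Set (ℝ × W 2) := Ioo (-(2 * sm 2)) (2 * sm 2) ×ˢ {0}ᶜ

theorem isOpen_Dom : IsOpen Dom := isOpen_dom 2

theorem mem_Dom {s : ℝ} (hs0 : 0 ≤ s) (hs : s ≤ sm 2) {z : W 2} (hz : z ≠ 0) : (s, z) ∈ Dom :=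
  mem_dom hs0 hs hz

theorem ne_zeroP {s : ℝ} {z : W 2} {η : W 1} (hs : |s| < 2 * sm 2) (hz : z ≠ 0) (hη : ‖η‖ < 2) :
    z + (s * rad z) • em η ≠ 0 :=
  AvgSmoothAux.ne_zero_of_mem hs hz (by rw [norm_em]; exact hη)

theorem smooth_jointP (h : HLoc Φ) :
    ContDiffOn ℝ ∞ (fun q : (ℝ × W 2) × W 1 => Φ (q.1.2 + (q.1.1 * rad q.1.2) • em q.2))
      (Dom ×ˢ ball (0 : W 1) 2) := by
  have hr : ContDiffOn ℝ ∞ (fun q : (ℝ × W 2) × W 1 => rad q.1.2) (Dom ×ˢ ball (0 : W 1) 2) :=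
    AvgSmoothAux.rad_smooth.comp (contDiff_snd.comp contDiff_fst).contDiffOn (fun q hq => hq.1.2)
  have h0 : ContDiffOn ℝ ∞ (fun q : (ℝ × W 2) × W 1 => q.1.2 + (q.1.1 * rad q.1.2) • em q.2)
      (Dom ×ˢ ball (0 : W 1) 2) :=
    (contDiff_snd.comp contDiff_fst).contDiffOn.add
      (((contDiff_fst.comp contDiff_fst).contDiffOn.mul hr).smul
        (em.contDiff.comp contDiff_snd).contDiffOn)
  apply h.smooth.comp h0
  rintro ⟨⟨s, z⟩, η⟩ ⟨⟨hs, hz⟩, hη⟩
  rw [mem_ball_zero_iff] at hη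
  exact ne_zeroP (abs_lt.2 hs) hz hη

theorem avP_smooth (h : HLoc Φ) : ContDiffOn ℝ ∞ (fun p : ℝ × W 2 => AvP Φ p.1 p.2) Dom := by
  unfold AvP
  apply ContDiffOn.const_smul
  exact contDiffOn_param (E := ℝ × W 2) volume isOpen_Dom isOpen_ball (isCompact_closedBall 0 1)
    (closedBall_subset_ball (by norm_num)) (smooth_jointP h)

theorem avP_zero (Φ : W 2 → W 2) : AvP Φ 0 = Φ := by
  funext z
  unfold AvP
  simp only [zero_mul, zero_smul, add_zero]
  rw [setIntegral_const, smul_smul, Measure.real, inv_mul_cancel₀, one_smul]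
  rw [ENNReal.toReal_ne_zero]
  exact ⟨(measure_closedBall_pos volume 0 one_pos).ne', measure_closedBall_lt_top.ne⟩

theorem avP_hom (h : HLoc Φ) (s : ℝ) (c : ℂ) (z : W 2) : AvP Φ s (c • z) = c • AvP Φ s z := by
  have hΦ0 : Φ 0 = 0 := by
    have := h.hom 0 0
    simpa using this
  rcases eq_or_ne c 0 with rfl | hc
  · rw [zero_smul, zero_smul]
    unfold AvP
    have : rad (0 : W 2) = 0 := by
      have := AvgSmoothAux.rad_smul 0 (0 : W 2)
      simpa using this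
    simp [this, hΦ0]
  have hc' : ‖c‖ ≠ 0 := norm_ne_zero_iff.2 hc
  obtain ⟨u, hu⟩ : ∃ u : ℂ, u = c / ‖c‖ := ⟨_, rfl⟩
  have hu1 : ‖u‖ = 1 := by
    rw [hu, norm_div, Complex.norm_real, norm_norm, div_self hc']
  have hcu : c = (‖c‖ : ℂ) * u := by
    rw [hu, mul_div_cancel₀]
    exact_mod_cast hc'
  have hu0 : u ≠ 0 := by
    intro h0; rw [h0, norm_zero] at hu1; exact zero_ne_one hu1
  unfold AvP
  rw [smul_comm c, ← integral_smul (c := c)]
  congr 1
  have hpre : (fun η : W 1 => u • η) ⁻¹' closedBall 0 1 = closedBall 0 1 := by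
    ext η
    simp [norm_smul, hu1]
  have hemb : MeasurableEmbedding (fun η : W 1 => u • η) :=
    (Homeomorph.smulOfNeZero u hu0).measurableEmbedding
  have h1 := (AvgSmoothAux.rot_preserving (n := 1) u hu1).setIntegral_preimage_emb hemb
    (fun η => Φ (c • z + (s * rad (c • z)) • em η)) (closedBall 0 1)
  rw [hpre] at h1
  rw [← h1]
  apply setIntegral_congr_fun measurableSet_closedBall
  intro η _
  show Φ (c • z + (s * rad (c • z)) • em (u • η)) = c • Φ (z + (s * rad z) • em η)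
  rw [← h.hom, smul_add, AvgSmoothAux.rad_smul, em_smul]
  congr 2
  funext k
  simp only [Pi.smul_apply, smul_eq_mul, Complex.real_smul]
  push_cast
  conv_rhs => rw [hcu]
  ring

/-- The mean of the error over the unit ball. -/
theorem mean_leP (h : HLoc Φ) {z : W 1} {ρ : ℝ} (hρ : 0 < ρ) {ε : ℝ} {M : (EndW 2)ˣ}
    (hM : GoodP Φ z ρ ε M) :
    ∫⁻ η in closedBall (0 : W 1) 1, ‖(↑M⁻¹ : EndW 2) * fderiv ℝ Φ (em z + ρ • em η) - 1‖ₑ ≤
      ENNReal.ofReal ε * volume (closedBall (0 : W 1) 1) := by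
  have hρ' : (ρ : ℂ) ≠ 0 := by exact_mod_cast hρ.ne'
  have hρn : ‖(ρ : ℂ)‖ = ρ := by rw [Complex.norm_real, Real.norm_eq_abs, abs_of_pos hρ]
  have hmeas := measurable_fderiv_subP h (↑M⁻¹ : EndW 2)
  have h1 := Hom46.ball_iff hρ' (g := fun x : W 1 => ‖(↑M⁻¹ : EndW 2) * fderiv ℝ Φ (em (z + x)) - 1‖ₑ)
    (hmeas.comp (measurable_const_add z)) 0 1 (ENNReal.ofReal ε)
  rw [hρn, mul_one, smul_zero] at h1
  have h2 : ∫⁻ x in closedBall (0 : W 1) ρ, ‖(↑M⁻¹ : EndW 2) * fderiv ℝ Φ (em (z + x)) - 1‖ₑ ≤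
      ENNReal.ofReal ε * volume (closedBall (0 : W 1) ρ) := by
    have hpre : (fun x : W 1 => z + x) ⁻¹' closedBall z ρ = closedBall 0 ρ := by
      ext y
      simp [mem_closedBall, dist_eq_norm]
    have h3 := (measurePreserving_add_left (volume : Measure (W 1)) z).setLIntegral_comp_preimage
      (measurableSet_closedBall (x := z) (ε := ρ)) hmeas
    rw [hpre] at h3
    have h4 : volume (closedBall (0 : W 1) ρ) = volume (closedBall z ρ) := by
      rw [← hpre]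
      exact (measurePreserving_add_left (volume : Measure (W 1)) z).measure_preimage
        measurableSet_closedBall.nullMeasurableSet
    rw [h3, h4]
    exact hM
  have h3 := h1.1 h2
  refine le_trans (le_of_eq ?_) h3
  apply setLIntegral_congr_fun measurableSet_closedBall
  intro η _
  show _ = ‖(↑M⁻¹ : EndW 2) * fderiv ℝ Φ (em (z + (ρ : ℂ) • η)) - 1‖ₑ
  rw [← Hom46.smul_real, map_add, map_smul]

theorem integral_em : ∫ η in closedBall (0 : W 1) 1, em η = 0 := by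
  rw [ContinuousLinearMap.integral_comp_comm _ (ContinuousOn.integrableOn_compact
    (isCompact_closedBall 0 1) (by fun_prop)), Close46.integral_ball_id, map_zero]

theorem fderiv_sliceP (h : HLoc Φ) {s : ℝ} (hs0 : 0 ≤ s) (hs : s ≤ sm 2) {z : W 2} (hz : z ≠ 0)
    {η : W 1} (hη : ‖η‖ < 2) (σ : ℝ) (v : W 2) :
    (fderiv ℝ (fun q : (ℝ × W 2) × W 1 => Φ (q.1.2 + (q.1.1 * rad q.1.2) • em q.2))
      ((s, z), η)).comp (ContinuousLinearMap.inl ℝ (ℝ × W 2) (W 1)) (σ, v) =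
    fderiv ℝ Φ (z + (s * rad z) • em η)
      (v + (σ * rad z + s * fderiv ℝ (fun z : W 2 => rad z) z v) • em η) := by
  have hopen : IsOpen (Dom ×ˢ ball (0 : W 1) 2) := isOpen_Dom.prod isOpen_ball
  have hmem : ((s, z), η) ∈ (Dom ×ˢ ball (0 : W 1) 2) := ⟨mem_Dom hs0 hs hz, by simpa using hη⟩
  have h2 : HasFDerivAt (fun q : (ℝ × W 2) × W 1 => Φ (q.1.2 + (q.1.1 * rad q.1.2) • em q.2))
      (fderiv ℝ (fun q : (ℝ × W 2) × W 1 => Φ (q.1.2 + (q.1.1 * rad q.1.2) • em q.2))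
        ((s, z), η)) ((s, z), η) :=
    (((smooth_jointP h).differentiableOn (by simp)).differentiableAt
      (hopen.mem_nhds hmem)).hasFDerivAt
  have h3 : HasFDerivAt (fun p : ℝ × W 2 => Φ (p.2 + (p.1 * rad p.2) • em η))
      ((fderiv ℝ (fun q : (ℝ × W 2) × W 1 => Φ (q.1.2 + (q.1.1 * rad q.1.2) • em q.2))
        ((s, z), η)).comp (ContinuousLinearMap.inl ℝ (ℝ × W 2) (W 1))) (s, z) :=
    HasFDerivAt.comp (g := fun q : (ℝ × W 2) × W 1 => Φ (q.1.2 + (q.1.1 * rad q.1.2) • em q.2))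
      (f := fun p : ℝ × W 2 => (p, η)) (s, z) h2 (hasFDerivAt_prodMk_left (s, z) η)
  have h4 : HasFDerivAt (fun z : W 2 => rad z) (fderiv ℝ (fun z : W 2 => rad z) z) z :=
    (((AvgSmoothAux.rad_smooth (n := 2)).differentiableOn (by simp)).differentiableAt
      (isOpen_compl_singleton.mem_nhds hz)).hasFDerivAt
  have h4' : HasFDerivAt (fun p : ℝ × W 2 => rad p.2)
      ((fderiv ℝ (fun z : W 2 => rad z) z).comp (ContinuousLinearMap.snd ℝ ℝ (W 2))) (s, z) :=
    HasFDerivAt.comp (g := fun z : W 2 => rad z) (f := fun p : ℝ × W 2 => p.2) (s, z) h4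
      hasFDerivAt_snd
  have h5' : HasFDerivAt (fun p : ℝ × W 2 => p.1 * rad p.2)
      (s • ((fderiv ℝ (fun z : W 2 => rad z) z).comp (ContinuousLinearMap.snd ℝ ℝ (W 2))) +
        rad z • ContinuousLinearMap.fst ℝ ℝ (W 2)) (s, z) := hasFDerivAt_fst.mul h4'
  have h5 : HasFDerivAt (fun p : ℝ × W 2 => p.2 + (p.1 * rad p.2) • em η)
      (ContinuousLinearMap.snd ℝ ℝ (W 2) +
        (s • ((fderiv ℝ (fun z : W 2 => rad z) z).comp (ContinuousLinearMap.snd ℝ ℝ (W 2))) +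
        rad z • ContinuousLinearMap.fst ℝ ℝ (W 2)).smulRight (em η)) (s, z) :=
    hasFDerivAt_snd.add (h5'.smul_const (em η))
  have hs2 : |s| < 2 * sm 2 := by
    rw [abs_of_nonneg hs0]
    linarith [sm_pos 2]
  have h6 : HasFDerivAt Φ (fderiv ℝ Φ (z + (s * rad z) • em η)) (z + (s * rad z) • em η) :=
    Hom46.hasFDerivAt h (ne_zeroP hs2 hz hη)
  have h7 : HasFDerivAt (fun p : ℝ × W 2 => Φ (p.2 + (p.1 * rad p.2) • em η))
      ((fderiv ℝ Φ (z + (s * rad z) • em η)).comp (ContinuousLinearMap.snd ℝ ℝ (W 2) +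
        (s • ((fderiv ℝ (fun z : W 2 => rad z) z).comp (ContinuousLinearMap.snd ℝ ℝ (W 2))) +
        rad z • ContinuousLinearMap.fst ℝ ℝ (W 2)).smulRight (em η))) (s, z) :=
    HasFDerivAt.comp (g := Φ) (f := fun p : ℝ × W 2 => p.2 + (p.1 * rad p.2) • em η) (s, z) h6 h5
  rw [h3.unique h7]
  simp only [ContinuousLinearMap.comp_apply, add_apply,
    ContinuousLinearMap.smulRight_apply, smul_apply,
    ContinuousLinearMap.coe_fst', ContinuousLinearMap.coe_snd', smul_eq_mul]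
  congr 2
  congr 1
  ring

/-- The joint derivative of the averages is close to `M`. -/
theorem der_close (h : HLoc Φ) {z : W 1} (hz : z ≠ 0) {s : ℝ} (hs0 : 0 < s) (hs : s ≤ sm 2)
    {ε : ℝ} (hε : 0 ≤ ε) {M : (EndW 2)ˣ} (hM : GoodP Φ z (s * rad (em z)) ε M) (σ : ℝ) (v : W 2) :
    ‖(↑M⁻¹ : EndW 2) (fderiv ℝ (fun p : ℝ × W 2 => AvP Φ p.1 p.2) (s, em z) (σ, v)) - v‖ ≤
      ε * (‖v‖ + |σ * rad (em z) + s * fderiv ℝ (fun z : W 2 => rad z) (em z) v|) := by
  have hez : em z ≠ 0 := em_ne hz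
  have hs2 : |s| < 2 * sm 2 := by
    rw [abs_of_pos hs0]
    linarith [sm_pos 2]
  have hρ : 0 < s * rad (em z) := mul_pos hs0 (Close46.rad_pos hez)
  obtain ⟨ρ, hρdef⟩ : ∃ ρ : ℝ, ρ = s * rad (em z) := ⟨_, rfl⟩
  rw [← hρdef] at hρ hM
  obtain ⟨K, hK⟩ : ∃ K : Set (W 1), K = closedBall (0 : W 1) 1 := ⟨_, rfl⟩
  have hKm : MeasurableSet K := by rw [hK]; exact measurableSet_closedBall
  obtain ⟨V, hV⟩ : ∃ V : ℝ, V = (volume K).toReal := ⟨_, rfl⟩
  have hVne : volume K ≠ ⊤ := by rw [hK]; exact measure_closedBall_lt_top.ne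
  have hVpos : 0 < V := by
    rw [hV]
    refine ENNReal.toReal_pos ?_ hVne
    rw [hK]
    exact (measure_closedBall_pos volume 0 one_pos).ne'
  have hKO : K ⊆ ball (0 : W 1) 2 := by rw [hK]; exact closedBall_subset_ball (by norm_num)
  have hKc : IsCompact K := by rw [hK]; exact isCompact_closedBall 0 1
  obtain ⟨hint, hder⟩ := Close46.hasFDerivAt_param (E := ℝ × W 2) (volume : Measure (W 1))
    isOpen_Dom isOpen_ball hKc hKO (smooth_jointP h) (mem_Dom hs0.le hs hez)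
  have hAvg : HasFDerivAt (fun p : ℝ × W 2 => AvP Φ p.1 p.2) (V⁻¹ • ∫ η in K,
      (fderiv ℝ (fun q : (ℝ × W 2) × W 1 => Φ (q.1.2 + (q.1.1 * rad q.1.2) • em q.2))
        ((s, em z), η)).comp (ContinuousLinearMap.inl ℝ (ℝ × W 2) (W 1))) (s, em z) := by
    have := hder.const_smul V⁻¹
    rw [hV, hK] at this
    rw [hV, hK]
    exact this
  -- the mean of the error
  have hcG : ContinuousOn (fun η : W 1 => fderiv ℝ Φ (em z + ρ • em η)) K := by
    apply (continuousOn_fderiv h).comp (by fun_prop)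
    intro η hη
    have := hKO hη
    rw [mem_ball_zero_iff] at this
    rw [hρdef]
    exact ne_zeroP hs2 hez this
  have hcont : ContinuousOn (fun η : W 1 => (↑M⁻¹ : EndW 2) * fderiv ℝ Φ (em z + ρ • em η) - 1) K :=
    (continuousOn_const.mul hcG).sub continuousOn_const
  have hmean : ∫ η in K, ‖(↑M⁻¹ : EndW 2) * fderiv ℝ Φ (em z + ρ • em η) - 1‖ ≤ ε * V := by
    have h1 := mean_leP h hρ hM
    rw [← hK] at h1
    rw [← ENNReal.ofReal_le_ofReal_iff (by positivity),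
      ofReal_integral_norm_eq_lintegral_enorm (hcont.integrableOn_compact hKc),
      ENNReal.ofReal_mul hε, hV, ENNReal.ofReal_toReal hVne]
    exact h1
  obtain ⟨t, ht⟩ : ∃ t : ℝ, t = σ * rad (em z) + s * fderiv ℝ (fun z : W 2 => rad z) (em z) v :=
    ⟨_, rfl⟩
  rw [← ht]
  have hcont2 : ContinuousOn (fun η : W 1 =>
      ((↑M⁻¹ : EndW 2) * fderiv ℝ Φ (em z + ρ • em η) - 1) (v + t • em η)) K :=
    hcont.clm_apply (by fun_prop)
  have hval : (↑M⁻¹ : EndW 2) (fderiv ℝ (fun p : ℝ × W 2 => AvP Φ p.1 p.2) (s, em z) (σ, v)) - v =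
      V⁻¹ • ∫ η in K, ((↑M⁻¹ : EndW 2) * fderiv ℝ Φ (em z + ρ • em η) - 1) (v + t • em η) := by
    have h1 : fderiv ℝ (fun p : ℝ × W 2 => AvP Φ p.1 p.2) (s, em z) (σ, v) =
        V⁻¹ • ∫ η in K, fderiv ℝ Φ (em z + ρ • em η) (v + t • em η) := by
      rw [hAvg.fderiv]
      show V⁻¹ • (∫ η in K, (fderiv ℝ (fun q : (ℝ × W 2) × W 1 =>
        Φ (q.1.2 + (q.1.1 * rad q.1.2) • em q.2)) ((s, em z), η)).comp
          (ContinuousLinearMap.inl ℝ (ℝ × W 2) (W 1))) (σ, v) = _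
      rw [ContinuousLinearMap.integral_apply hint]
      congr 1
      apply setIntegral_congr_fun hKm
      intro η hη
      have := hKO hη
      rw [mem_ball_zero_iff] at this
      show (fderiv ℝ (fun q : (ℝ × W 2) × W 1 =>
        Φ (q.1.2 + (q.1.1 * rad q.1.2) • em q.2)) ((s, em z), η)).comp
          (ContinuousLinearMap.inl ℝ (ℝ × W 2) (W 1)) (σ, v) = _
      rw [fderiv_sliceP h hs0.le hs hez this σ v, ht, hρdef]
    have hcont3 : ContinuousOn (fun η : W 1 => fderiv ℝ Φ (em z + ρ • em η) (v + t • em η)) K :=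
      hcG.clm_apply (by fun_prop)
    have hint3 : IntegrableOn (fun η : W 1 => fderiv ℝ Φ (em z + ρ • em η) (v + t • em η)) K :=
      hcont3.integrableOn_compact hKc
    have hint4 : IntegrableOn (fun η : W 1 => v + t • em η) K :=
      ContinuousOn.integrableOn_compact hKc (by fun_prop)
    have hint5 : IntegrableOn (fun η : W 1 => t • em η) K :=
      ContinuousOn.integrableOn_compact hKc (by fun_prop)
    have h2 : ∫ η in K, (v + t • em η) = V • v := by
      rw [integral_add (integrable_const_iff.2 (Or.inr ⟨by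
        rw [Measure.restrict_apply_univ]; exact hVne.lt_top⟩)) hint5,
        integral_smul, setIntegral_const, hK, integral_em, smul_zero, add_zero, ← hK, hV]
      rfl
    have h3 : ∫ η in K, ((↑M⁻¹ : EndW 2) * fderiv ℝ Φ (em z + ρ • em η) - 1) (v + t • em η) =
        (↑M⁻¹ : EndW 2) (∫ η in K, fderiv ℝ Φ (em z + ρ • em η) (v + t • em η)) -
          ∫ η in K, (v + t • em η) := by
      rw [← ContinuousLinearMap.integral_comp_comm _ hint3,
        ← integral_sub ((↑M⁻¹ : EndW 2).integrable_comp hint3) hint4]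
      rfl
    rw [h3, h2, smul_sub, smul_smul, inv_mul_cancel₀ hVpos.ne', one_smul, ← map_smul, ← h1]
  rw [hval, norm_smul, norm_inv, Real.norm_eq_abs, abs_of_pos hVpos]
  have hle : ‖∫ η in K, ((↑M⁻¹ : EndW 2) * fderiv ℝ Φ (em z + ρ • em η) - 1) (v + t • em η)‖ ≤
      ε * V * (‖v‖ + |t|) := by
    calc ‖∫ η in K, ((↑M⁻¹ : EndW 2) * fderiv ℝ Φ (em z + ρ • em η) - 1) (v + t • em η)‖
        ≤ ∫ η in K, ‖((↑M⁻¹ : EndW 2) * fderiv ℝ Φ (em z + ρ • em η) - 1) (v + t • em η)‖ :=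
          norm_integral_le_integral_norm _
      _ ≤ ∫ η in K, ‖(↑M⁻¹ : EndW 2) * fderiv ℝ Φ (em z + ρ • em η) - 1‖ * (‖v‖ + |t|) := by
          apply setIntegral_mono_on (hcont2.integrableOn_compact hKc).norm
            ((hcont.integrableOn_compact hKc).norm.mul_const _) hKm
          intro η hη
          refine (ContinuousLinearMap.le_opNorm _ _).trans ?_
          apply mul_le_mul_of_nonneg_left _ (norm_nonneg _)
          refine (norm_add_le _ _).trans ?_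
          have hη1 : ‖η‖ ≤ 1 := by simpa [hK] using hη
          rw [norm_smul, Real.norm_eq_abs, norm_em]
          have : |t| * ‖η‖ ≤ |t| * 1 := mul_le_mul_of_nonneg_left hη1 (abs_nonneg _)
          linarith
      _ = (∫ η in K, ‖(↑M⁻¹ : EndW 2) * fderiv ℝ Φ (em z + ρ • em η) - 1‖) * (‖v‖ + |t|) :=
          integral_mul_const _ _
      _ ≤ ε * V * (‖v‖ + |t|) := mul_le_mul_of_nonneg_right hmean (by positivity)
  calc V⁻¹ * ‖∫ η in K, ((↑M⁻¹ : EndW 2) * fderiv ℝ Φ (em z + ρ • em η) - 1) (v + t • em η)‖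
      ≤ V⁻¹ * (ε * V * (‖v‖ + |t|)) := mul_le_mul_of_nonneg_left hle (by positivity)
    _ = ε * (‖v‖ + |t|) := by field_simp

end Pool.Agent.Lib.PQ
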