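import Pool.Agent.Lib.PQ.GoodAll

set_option autoImplicit false

/-!
# Comparison of the matrices `M` at different points and scales, in the plane
-/

open MeasureTheory Set Metric
open scoped ENNReal ContDiff

namespace Pool.Agent.Lib.PQ

open Pool.Agent.P28b04d Pool.Agent.Lib.P28e

variable {Φ : W 2 → W 2}

/-- Monotonicity in the radius. -/
theorem goodP_shrink {z z' : W 1} {ρ ρ' K ε : ℝ} (hρ' : 0 ≤ ρ') (hρ : 0 ≤ ρ) (hε : 0 ≤ ε)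
    (hsub : closedBall z' ρ' ⊆ closedBall z ρ) (hK0 : 0 ≤ K) (hK : ρ ≤ K * ρ') {M : (EndW 2)ˣ}
    (hM : GoodP Φ z ρ ε M) : GoodP Φ z' ρ' (ε * K ^ 4) M := by
  have hvol : volume (closedBall z ρ) ≤ ENNReal.ofReal (K ^ 4) *
      volume (closedBall z' ρ') := by
    have e1 : volume (closedBall z ρ) = ENNReal.ofReal (ρ ^ 4) *
        volume (closedBall (0 : W 1) 1) := vol_ball_W 1 _ hρ
    have e2 : volume (closedBall z' ρ') = ENNReal.ofReal (ρ' ^ 4) *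
        volume (closedBall (0 : W 1) 1) := vol_ball_W 1 _ hρ'
    rw [e1, e2, ← mul_assoc, ← ENNReal.ofReal_mul (by positivity), ← mul_pow]
    gcongr
  unfold GoodP at hM ⊢
  calc ∫⁻ x in closedBall z' ρ', ‖(↑M⁻¹ : EndW 2) * fderiv ℝ Φ (em x) - 1‖ₑ
      ≤ ∫⁻ x in closedBall z ρ, ‖(↑M⁻¹ : EndW 2) * fderiv ℝ Φ (em x) - 1‖ₑ :=
        lintegral_mono_set hsub
    _ ≤ ENNReal.ofReal ε * volume (closedBall z ρ) := hM
    _ ≤ ENNReal.ofReal ε * (ENNReal.ofReal (K ^ 4) * volume (closedBall z' ρ')) := by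
        gcongr
    _ = ENNReal.ofReal (ε * K ^ 4) * volume (closedBall z' ρ') := by
        rw [← mul_assoc, ← ENNReal.ofReal_mul hε]

theorem goodP_mono {z : W 1} {ρ ε ε' : ℝ} {M : (EndW 2)ˣ} (h : GoodP Φ z ρ ε M)
    (hε : ε ≤ ε') : GoodP Φ z ρ ε' M :=
  h.trans (mul_le_mul_left (ENNReal.ofReal_le_ofReal hε) _)

/-- Two balls with a common subball of comparable size. -/
theorem cmp_local (h : HLoc Φ) {z z' y : W 1} {ρ ρ' r ε : ℝ} (hr : 0 < r) (hε : 0 < ε)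
    (hε2 : ε ≤ 1 / 2048) (h1 : closedBall y r ⊆ closedBall z ρ)
    (h2 : closedBall y r ⊆ closedBall z' ρ') (hρ0 : 0 ≤ ρ) (hρ0' : 0 ≤ ρ') (hρ : ρ ≤ 4 * r)
    (hρ' : ρ' ≤ 4 * r) {M M' : (EndW 2)ˣ} (hM : GoodP Φ z ρ ε M) (hM' : GoodP Φ z' ρ' ε M') :
    ‖(↑M⁻¹ : EndW 2) * (M' : EndW 2) - 1‖ ≤ 4096 * ε := by
  have hb1 := goodP_shrink hr.le hρ0 hε.le h1 (by norm_num : (0 : ℝ) ≤ 4) hρ hM
  have hb2 := goodP_shrink hr.le hρ0' hε.le h2 (by norm_num : (0 : ℝ) ≤ 4) hρ' hM'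
  unfold GoodP at hb1 hb2
  have hBpos : 0 < volume (closedBall y r) := measure_closedBall_pos volume y hr
  have hBfin : volume (closedBall y r) ≠ ⊤ := measure_closedBall_lt_top.ne
  obtain ⟨τ, hτ⟩ : ∃ τ : ℝ, τ = 1024 * ε := ⟨_, rfl⟩
  have hτ0 : 0 < τ := by rw [hτ]; positivity
  -- a common good point
  obtain ⟨x, hxB, hx1, hx2⟩ : ∃ x ∈ closedBall y r, ‖(↑M⁻¹ : EndW 2) * fderiv ℝ Φ (em x) - 1‖ ≤ τ ∧
      ‖(↑M'⁻¹ : EndW 2) * fderiv ℝ Φ (em x) - 1‖ ≤ τ := by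
    by_contra hcon
    push Not at hcon
    have hlow : ∀ x ∈ closedBall y r, ENNReal.ofReal τ ≤
        ‖(↑M⁻¹ : EndW 2) * fderiv ℝ Φ (em x) - 1‖ₑ +
        ‖(↑M'⁻¹ : EndW 2) * fderiv ℝ Φ (em x) - 1‖ₑ := by
      intro x hx
      by_cases h1 : ‖(↑M⁻¹ : EndW 2) * fderiv ℝ Φ (em x) - 1‖ ≤ τ
      · refine le_trans ?_ le_add_self
        rw [← ofReal_norm]
        exact ENNReal.ofReal_le_ofReal (hcon x hx h1).le
      · refine le_trans ?_ le_self_add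
        rw [← ofReal_norm]
        exact ENNReal.ofReal_le_ofReal (not_le.mp h1).le
    have hint : ENNReal.ofReal τ * volume (closedBall y r) ≤
        ∫⁻ x in closedBall y r, (‖(↑M⁻¹ : EndW 2) * fderiv ℝ Φ (em x) - 1‖ₑ +
          ‖(↑M'⁻¹ : EndW 2) * fderiv ℝ Φ (em x) - 1‖ₑ) := by
      rw [← setLIntegral_const]
      exact setLIntegral_mono' measurableSet_closedBall hlow
    rw [lintegral_add_left (measurable_fderiv_subP h _)] at hint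
    have hfin := hint.trans (add_le_add hb1 hb2)
    rw [← add_mul, ← ENNReal.ofReal_add (by positivity) (by positivity)] at hfin
    have h3 := (ENNReal.mul_le_mul_iff_left hBpos.ne' hBfin).mp hfin
    rw [ENNReal.ofReal_le_ofReal_iff (by positivity), hτ] at h3
    norm_num at h3
    linarith
  have := ChnAux.alg_step (w := (↑M⁻¹ : EndW 2) * fderiv ℝ Φ (em x))
    (w' := (↑M'⁻¹ : EndW 2) * fderiv ℝ Φ (em x))
    (M := (M : EndW 2)) (M.inv_mul) (M.mul_inv) (M'i := (↑M'⁻¹ : EndW 2)) (M'.mul_inv) rfl rfl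
    (by rw [hτ]; linarith) hx1 hx2
  rw [hτ] at this
  linarith

/-- Uniform comparison along a relation. -/
def UPP (S : W 1 → W 1 → Prop) : Prop :=
  ∀ ε : ℝ, 0 < ε → ∃ δ : ℝ, 0 < δ ∧ ∀ Φ : W 2 → W 2,
    HLoc Φ → (∀ z : W 1, z ≠ 0 → ∃ M : (EndW 2)ˣ, GoodP Φ z (‖z‖ / 8) δ M) →
    ∀ z z' : W 1, S z z' → ∀ M M' : (EndW 2)ˣ,
      GoodP Φ z (‖z‖ / 8) δ M → GoodP Φ z' (‖z'‖ / 8) δ M' →
        ‖(↑M⁻¹ : EndW 2) * (M' : EndW 2) - 1‖ ≤ ε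

theorem UPP_L : UPP ChnAux.L := by
  intro ε hε
  obtain ⟨δ, hδdef⟩ : ∃ δ : ℝ, δ = min (ε / 4096) (1 / 2048) := ⟨_, rfl⟩
  have hδ : 0 < δ := by rw [hδdef]; positivity
  refine ⟨δ, hδ, ?_⟩
  rintro Φ hΦ _ z z' ⟨hz, hz', hzz⟩ M M' hM hM'
  have hznorm : 0 < ‖z‖ := norm_pos_iff.mpr hz
  have hz'1 : ‖z'‖ ≤ ‖z‖ + ‖z‖ / 100 := by
    have := norm_sub_norm_le z' z
    rw [norm_sub_rev] at this
    linarith
  have hz'2 : ‖z‖ - ‖z‖ / 100 ≤ ‖z'‖ := by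
    have := norm_sub_norm_le z z'
    linarith
  have := cmp_local hΦ (z := z) (z' := z') (y := z) (ρ := ‖z‖ / 8) (ρ' := ‖z'‖ / 8) (r := ‖z‖ / 16)
    (ε := δ) (by positivity) hδ (by rw [hδdef]; exact min_le_right _ _)
    (closedBall_subset_closedBall (by linarith))
    (closedBall_subset_closedBall' (by rw [dist_eq_norm]; linarith)) (by positivity)
    (by positivity) (by linarith) (by linarith) hM hM'
  have h2 : δ ≤ ε / 4096 := by rw [hδdef]; exact min_le_left _ _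
  linarith

theorem UPP_mono {S T : W 1 → W 1 → Prop} (hST : ∀ z z', S z z' → T z z') (hT : UPP T) :
    UPP S := by
  intro ε hε
  obtain ⟨δ, hδ, h⟩ := hT ε hε
  exact ⟨δ, hδ, fun Φ hΦ hex z z' hS => h Φ hΦ hex z z' (hST z z' hS)⟩

theorem UPP_comp {S T : W 1 → W 1 → Prop} (hS : UPP S) (hT : UPP T) (h0 : ∀ z y, S z y → y ≠ 0) :
    UPP (fun z z' => ∃ y, S z y ∧ T y z') := by
  intro ε hε
  obtain ⟨ε₁, hε₁⟩ : ∃ ε₁ : ℝ, ε₁ = min (ε / 3) 1 := ⟨_, rfl⟩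
  have hε₁0 : 0 < ε₁ := by rw [hε₁]; positivity
  have hε₁1 : ε₁ ≤ 1 := by rw [hε₁]; exact min_le_right _ _
  have hε₁2 : ε₁ ≤ ε / 3 := by rw [hε₁]; exact min_le_left _ _
  obtain ⟨δ₁, hδ₁, h1⟩ := hS ε₁ hε₁0
  obtain ⟨δ₂, hδ₂, h2⟩ := hT ε₁ hε₁0
  refine ⟨min δ₁ δ₂, by positivity, ?_⟩
  rintro Φ hΦ hex z z' ⟨y, hzy, hyz'⟩ M M' hM hM'
  obtain ⟨My, hMy⟩ := hex y (h0 z y hzy)
  have hex1 : ∀ z : W 1, z ≠ 0 → ∃ M : (EndW 2)ˣ, GoodP Φ z (‖z‖ / 8) δ₁ M := by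
    intro z hz
    obtain ⟨M, hM⟩ := hex z hz
    exact ⟨M, goodP_mono hM (min_le_left _ _)⟩
  have hex2 : ∀ z : W 1, z ≠ 0 → ∃ M : (EndW 2)ˣ, GoodP Φ z (‖z‖ / 8) δ₂ M := by
    intro z hz
    obtain ⟨M, hM⟩ := hex z hz
    exact ⟨M, goodP_mono hM (min_le_right _ _)⟩
  have e1 := h1 Φ hΦ hex1 z y hzy M My (goodP_mono hM (min_le_left _ _))
    (goodP_mono hMy (min_le_left _ _))
  have e2 := h2 Φ hΦ hex2 y z' hyz' My M' (goodP_mono hMy (min_le_right _ _))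
    (goodP_mono hM' (min_le_right _ _))
  have e3 := sub_one_mul e1 e2
  have e4 : (↑M⁻¹ : EndW 2) * (My : EndW 2) * ((↑My⁻¹ : EndW 2) * (M' : EndW 2)) =
      (↑M⁻¹ : EndW 2) * (M' : EndW 2) := by
    rw [mul_assoc, ← mul_assoc (My : EndW 2), My.mul_inv, one_mul]
  rw [e4] at e3
  nlinarith

theorem UPP_Lk (k : ℕ) : UPP (ChnAux.Lk k) := by
  induction k with
  | zero => exact UPP_L
  | succ k ih => exact UPP_comp ih UPP_L (ChnAux.Lk_ne k)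

theorem UPP_Seg : UPP ChnAux.Seg := UPP_mono ChnAux.Seg_Lk (UPP_Lk 199)

theorem compareP : ∀ ε : ℝ, 0 < ε → ∃ δ : ℝ, 0 < δ ∧ ∀ Φ : W 2 → W 2,
    HLoc Φ → (∀ z : W 1, z ≠ 0 → ∃ M : (EndW 2)ˣ, GoodP Φ z (‖z‖ / 8) δ M) →
    ∀ z z' : W 1, z ≠ 0 → z' ≠ 0 → ∀ M M' : (EndW 2)ˣ,
      GoodP Φ z (‖z‖ / 8) δ M → GoodP Φ z' (‖z'‖ / 8) δ M' →
        ‖(↑M⁻¹ : EndW 2) * (M' : EndW 2) - 1‖ ≤ ε := by
  intro ε hε
  obtain ⟨δ, hδ, h⟩ := UPP_comp (UPP_comp UPP_Seg UPP_Seg ChnAux.Seg_ne) UPP_Seg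
    (fun z y ⟨x, _, hx⟩ => ChnAux.Seg_ne x y hx) ε hε
  refine ⟨δ, hδ, fun Φ hΦ hex z z' hz hz' M M' hM hM' => ?_⟩
  have hnorm : ∀ z : W 1, z ≠ 0 → ‖(‖z‖⁻¹ : ℝ) • z‖ = 1 := by
    intro z hz
    rw [norm_smul, norm_inv, norm_norm, inv_mul_cancel₀ (norm_ne_zero_iff.mpr hz)]
  have hgood : ∀ (z : W 1) (M : (EndW 2)ˣ), z ≠ 0 → GoodP Φ z (‖z‖ / 8) δ M →
      GoodP Φ ((‖z‖⁻¹ : ℝ) • z) (‖(‖z‖⁻¹ : ℝ) • z‖ / 8) δ M := by
    intro z M hz hM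
    have hpos : 0 < ‖z‖ := norm_pos_iff.mpr hz
    have := (goodP_smul hΦ (r := ‖z‖⁻¹) (by positivity) (z := z) (ρ := ‖z‖ / 8)
      (by linarith) (ε := δ) (M := M)).mpr hM
    rw [hnorm z hz]
    rwa [show ‖z‖⁻¹ * (‖z‖ / 8) = 1 / 8 by field_simp] at this
  exact h Φ hΦ hex _ _ (ChnAux.three_seg (le_refl 1) _ _ (hnorm z hz) (hnorm z' hz')) M M'
    (hgood z M hz hM) (hgood z' M' hz' hM')

/-- `GoodP` is compatible with multiplication by `i`. -/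
theorem goodP_mulC (h : HLoc Φ) {z : W 1} {ρ : ℝ} (hρz : ρ < ‖z‖)
    {ε : ℝ} {M M' : (EndW 2)ˣ}
    (hM' : (M' : EndW 2) = mulC Complex.I * (M : EndW 2) * mulC (-Complex.I))
    (hM : GoodP Φ z ρ ε M) : GoodP Φ (Complex.I • z) ρ ε M' := by
  have hI : Complex.I ≠ 0 := Complex.I_ne_zero
  have h1 := Hom46.ball_iff hI (measurable_fderiv_subP h (↑M'⁻¹ : EndW 2)) z ρ (ENNReal.ofReal ε)
  rw [Complex.norm_I, one_mul] at h1
  unfold GoodP at hM ⊢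
  rw [h1]
  refine le_trans ?_ hM
  have hinv : (Complex.I)⁻¹ = -Complex.I := Complex.inv_I
  have hM'2 : (↑M'⁻¹ : EndW 2) = mulC Complex.I * (↑M⁻¹ : EndW 2) * mulC (-Complex.I) := by
    rw [← hinv] at hM' ⊢
    rw [← Ring.inverse_unit M', hM', Hom46.inverse_conj hI M.isUnit, Ring.inverse_unit]
  have h5 : (mulC (-Complex.I) : EndW 2) * mulC Complex.I = 1 := by
    rw [← hinv, mulC_mul, inv_mul_cancel₀ hI, mulC_one]
  have h6 : (mulC Complex.I : EndW 2) * mulC (-Complex.I) = 1 := by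
    rw [← hinv, mulC_mul, mul_inv_cancel₀ hI, mulC_one]
  apply setLIntegral_mono' measurableSet_closedBall
  intro y hy
  have hy0 : y ≠ 0 := Hom46.ne_zero_of_mem hρz hy
  have h4 : (↑M'⁻¹ : EndW 2) * fderiv ℝ Φ (em (Complex.I • y)) - 1 =
      mulC Complex.I * ((↑M⁻¹ : EndW 2) * fderiv ℝ Φ (em y) - 1) * mulC (-Complex.I) := by
    rw [hM'2, em_smul, fderiv_mulC h hI (em_ne hy0), hinv]
    calc mulC Complex.I * (↑M⁻¹ : EndW 2) * mulC (-Complex.I) *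
          (mulC Complex.I * fderiv ℝ Φ (em y) * mulC (-Complex.I)) - 1
        = mulC Complex.I * (↑M⁻¹ : EndW 2) * (mulC (-Complex.I) * mulC Complex.I) *
          fderiv ℝ Φ (em y) * mulC (-Complex.I) - mulC Complex.I * mulC (-Complex.I) := by
          rw [h6]
          simp only [mul_assoc]
      _ = mulC Complex.I * ((↑M⁻¹ : EndW 2) * fderiv ℝ Φ (em y) - 1) * mulC (-Complex.I) := by
          rw [h5]
          simp only [mul_one, mul_sub, sub_mul, mul_assoc]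
  rw [h4]
  rw [enorm_le_iff_norm_le]
  calc ‖mulC Complex.I * ((↑M⁻¹ : EndW 2) * fderiv ℝ Φ (em y) - 1) * mulC (-Complex.I)‖
      ≤ ‖(mulC Complex.I : EndW 2)‖ * ‖(↑M⁻¹ : EndW 2) * fderiv ℝ Φ (em y) - 1‖ *
        ‖(mulC (-Complex.I) : EndW 2)‖ :=
        (norm_mul_le _ _).trans (mul_le_mul_of_nonneg_right (norm_mul_le _ _) (norm_nonneg _))
    _ = ‖(↑M⁻¹ : EndW 2) * fderiv ℝ Φ (em y) - 1‖ := by
        rw [norm_mulC, norm_mulC, norm_neg, Complex.norm_I, one_mul, mul_one]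

end Pool.Agent.Lib.PQ
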