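import Pool.Agent.Lib.P28e.Main

set_option autoImplicit false

/-!
# The quadratic energy on a plane: definitions

`em : W 1 → W 2` is the inclusion of the plane `z 0 = 0`; `enL Φ` is the integral of `|conn Φ|²` over the unit ball of the plane;
`GoodP Φ z ρ ε M`: the mean of `|M⁻¹ dΦ_x - 1|` over the ball `B(z, ρ)` of the plane is at most `ε`; `AvP Φ s` is the average of `Φ` over
discs parallel to the plane.
-/

open MeasureTheory Set Metric
open scoped ENNReal ContDiff

namespace Pool.Agent.Lib.PQ

open Pool.Agent.P28b04d Pool.Agent.Lib.P28e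

/-- The inclusion of the plane `z 0 = 0`, linear. -/
noncomputable def emL : W 1 →ₗ[ℝ] W 2 where
  toFun q := Fin.cons 0 q
  map_add' x y := by
    ext i
    refine Fin.cases ?_ (fun j => ?_) i
    · simp
    · simp
  map_smul' r x := by
    ext i
    refine Fin.cases ?_ (fun j => ?_) i
    · simp
    · simp

/-- The inclusion of the plane `z 0 = 0`. -/
noncomputable def em : W 1 →L[ℝ] W 2 := LinearMap.toContinuousLinearMap emL

theorem em_apply (q : W 1) : em q = Fin.cons 0 q := rfl

theorem em_zero (q : W 1) : em q 0 = 0 := rfl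

theorem em_succ (q : W 1) (k : Fin 2) : em q k.succ = q k := rfl

theorem norm_em (q : W 1) : ‖em q‖ = ‖q‖ := by
  apply le_antisymm
  · rw [pi_norm_le_iff_of_nonneg (norm_nonneg _)]
    intro i
    refine Fin.cases ?_ (fun j => ?_) i
    · rw [em_zero, norm_zero]
      exact norm_nonneg _
    · rw [em_succ]
      exact norm_le_pi_norm q j
  · rw [pi_norm_le_iff_of_nonneg (norm_nonneg _)]
    intro j
    rw [← em_succ q j]
    exact norm_le_pi_norm (em q) j.succ

theorem em_injective : Function.Injective em := by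
  intro x y h
  funext k
  have := congrFun h k.succ
  rwa [em_succ, em_succ] at this

theorem em_ne {q : W 1} (hq : q ≠ 0) : em q ≠ 0 := by
  intro h
  apply hq
  apply em_injective
  rw [h, map_zero]

theorem em_smul (c : ℂ) (q : W 1) : em (c • q) = c • em q := by
  ext i
  refine Fin.cases ?_ (fun j => ?_) i
  · simp [em_zero]
  · simp [em_succ]

/-- The quadratic energy on the plane. -/
noncomputable def enL (Φ : W 2 → W 2) : ℝ≥0∞ :=
  ∫⁻ x in ball (0 : W 1) 1, ‖conn Φ (em x)‖ₑ ^ 2

/-- The mean of `|M⁻¹ dΦ - 1|` over the ball in the plane is at most `ε`. -/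
def GoodP (Φ : W 2 → W 2) (z : W 1) (ρ ε : ℝ) (M : (EndW 2)ˣ) : Prop :=
  ∫⁻ x in closedBall z ρ, ‖(↑M⁻¹ : EndW 2) * fderiv ℝ Φ (em x) - 1‖ₑ ≤
    ENNReal.ofReal ε * volume (closedBall z ρ)

/-- The averages of a lift over discs parallel to the plane. -/
noncomputable def AvP (Φ : W 2 → W 2) (s : ℝ) (z : W 2) : W 2 :=
  ((volume (closedBall (0 : W 1) 1)).toReal)⁻¹ •
    ∫ η in closedBall (0 : W 1) 1, Φ (z + (s * rad z) • em η)

end Pool.Agent.Lib.PQ
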