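import Pool.Agent.Lib.PJ.IsoExt

set_option autoImplicit false

/-!
# Isotopy extension for smooth families of embeddings of the line
-/

open MeasureTheory Set Metric Filter
open scoped ContDiff Topology ENNReal

namespace Pool.Agent.Lib.PQ

open Pool.Agent.P28b04d Pool.Agent.Lib.P28e Pool.Agent.Lib.P28c Pool.Agent.Lib.P28g
open Pool.Agent.Lib.PJ (P0 tube tube_real tube_proj norm_proj_eq norm_proj_le tube_mono cutT cutT_smul
  contDiffAt_cutT cutT_one cutT_zero part_ext fam_near)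

/-- Smooth families of homogeneous maps, injective on the plane with injective derivative. -/
structure FamP (Λ : ℝ × W 2 → W 2) : Prop where
  smooth : ContDiffOn ℝ ∞ Λ (univ ×ˢ {0}ᶜ)
  hom : ∀ (t : ℝ) (c : ℂ) (z : W 2), Λ (t, c • z) = c • Λ (t, z)
  inj : ∀ t ∈ Icc (0 : ℝ) 1, ∀ z ∈ P0, ∀ w ∈ P0, Λ (t, z) = Λ (t, w) → z = w
  der : ∀ t ∈ Icc (0 : ℝ) 1, ∀ z ∈ P0, z ≠ 0 → ∀ v, fderiv ℝ (fun w => Λ (t, w)) z v = 0 → v = 0

namespace FamP

variable {Λ : ℝ × W 2 → W 2}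

/-- The partial derivative. -/
noncomputable def D (Λ : ℝ × W 2 → W 2) (q : ℝ × W 2) : EndW 2 :=
  (fderiv ℝ Λ q).comp (ContinuousLinearMap.inr ℝ ℝ (W 2))

theorem contDiffAt (h : FamP Λ) (t : ℝ) {z : W 2} (hz : z ≠ 0) : ContDiffAt ℝ ∞ Λ (t, z) :=
  h.smooth.contDiffAt ((isOpen_univ.prod isOpen_compl_singleton).mem_nhds ⟨mem_univ _, hz⟩)

theorem hasFDerivAt (h : FamP Λ) (t : ℝ) {z : W 2} (hz : z ≠ 0) :
    HasFDerivAt (fun w => Λ (t, w)) (D Λ (t, z)) z :=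
  HasFDerivAt.comp (g := Λ) (f := fun w : W 2 => (t, w)) z
    ((h.contDiffAt t hz).differentiableAt (by simp)).hasFDerivAt (hasFDerivAt_prodMk_right t z)

theorem continuousAt_D (h : FamP Λ) (t : ℝ) {z : W 2} (hz : z ≠ 0) : ContinuousAt (D Λ) (t, z) := by
  have h1 : ContinuousAt (fderiv ℝ Λ) (t, z) :=
    ((h.contDiffAt t hz).fderiv_right (m := 0) (by simp)).continuousAt
  exact h1.clm_comp continuousAt_const

theorem real (h : FamP Λ) (t r : ℝ) (z : W 2) : Λ (t, r • z) = r • Λ (t, z) := by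
  rw [Hom46.smul_real, h.hom, ← Hom46.smul_real]

theorem zero (h : FamP Λ) (t : ℝ) : Λ (t, 0) = 0 := by
  have := h.hom t 0 0
  simpa using this

theorem D_pos (h : FamP Λ) (t : ℝ) {r : ℝ} (hr : 0 < r) {z : W 2} (hz : z ≠ 0) :
    D Λ (t, r • z) = D Λ (t, z) := by
  have hrz : r • z ≠ 0 := smul_ne_zero hr.ne' hz
  have h1 := h.hasFDerivAt t hrz
  have h2 : HasFDerivAt (fun w : W 2 => r⁻¹ • Λ (t, r • w))
      (r⁻¹ • (D Λ (t, r • z)).comp (r • ContinuousLinearMap.id ℝ (W 2))) z := by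
    have h5 : HasFDerivAt (fun w : W 2 => r • w) (r • ContinuousLinearMap.id ℝ (W 2)) z :=
      (hasFDerivAt_id z).const_smul r
    exact (HasFDerivAt.comp (g := fun w => Λ (t, w)) (f := fun w : W 2 => r • w) z h1 h5).const_smul
      r⁻¹
  have h3 : (fun w : W 2 => r⁻¹ • Λ (t, r • w)) = fun w => Λ (t, w) := by
    funext w
    rw [h.real, smul_smul, inv_mul_cancel₀ hr.ne', one_smul]
  rw [h3] at h2
  have h4 := h2.unique (h.hasFDerivAt t hz)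
  rw [← h4]
  ext v i
  simp [hr.ne']

theorem continuous (h : FamP Λ) : Continuous Λ := by
  rw [continuous_iff_continuousAt]
  rintro ⟨t, z⟩
  by_cases hz : z = 0
  · subst hz
    have hK : IsCompact (Icc (t - 1) (t + 1) ×ˢ sphere (0 : W 2) 1) :=
      isCompact_Icc.prod (isCompact_sphere _ _)
    have hsub : Icc (t - 1) (t + 1) ×ˢ sphere (0 : W 2) 1 ⊆ univ ×ˢ {0}ᶜ := by
      rintro ⟨s, x⟩ ⟨-, hx⟩
      refine ⟨mem_univ _, ?_⟩
      rintro rfl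
      simp at hx
    obtain ⟨C, hC⟩ := hK.exists_bound_of_continuousOn (h.smooth.continuousOn.mono hsub)
    have hb : ∀ᶠ q : ℝ × W 2 in 𝓝 (t, 0), ‖Λ q‖ ≤ C * ‖q.2‖ := by
      have h1 : ∀ᶠ q : ℝ × W 2 in 𝓝 (t, 0), q.1 ∈ Icc (t - 1) (t + 1) :=
        continuousAt_fst.eventually (Icc_mem_nhds (by linarith) (by linarith))
      filter_upwards [h1] with q hq
      obtain ⟨s, x⟩ := q
      by_cases hx : x = 0
      · rw [hx, h.zero, norm_zero, mul_zero]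
      · have hxn : 0 < ‖x‖ := norm_pos_iff.2 hx
        have h2 := hC (s, ‖x‖⁻¹ • x) ⟨hq, by
          rw [mem_sphere_zero_iff_norm, norm_smul, norm_inv, norm_norm, inv_mul_cancel₀ hxn.ne']⟩
        rw [h.real, norm_smul, norm_inv, norm_norm, inv_mul_le_iff₀ hxn] at h2
        rw [mul_comm]
        exact h2
    have h2 : Tendsto (fun q : ℝ × W 2 => C * ‖q.2‖) (𝓝 (t, 0)) (𝓝 0) := by
      have h3 : Continuous fun q : ℝ × W 2 => C * ‖q.2‖ := by fun_prop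
      have := h3.tendsto (t, 0)
      simpa using this
    have h4 := squeeze_zero_norm' hb h2
    show Tendsto Λ (𝓝 (t, 0)) (𝓝 (Λ (t, 0)))
    rw [h.zero]
    exact h4
  · exact (h.contDiffAt t hz).continuousAt

/-- Local injectivity at a point where the derivative is invertible. -/
theorem local_inj (h : FamP Λ) (t : ℝ) {z : W 2} (hz : z ≠ 0)
    (hinj : ∀ v, D Λ (t, z) v = 0 → v = 0) :
    ∃ U ∈ 𝓝 (t, z), ∀ s x y, (s, x) ∈ U → (s, y) ∈ U → Λ (s, x) = Λ (s, y) → x = y := by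
  have hΛs : HasStrictFDerivAt Λ (fderiv ℝ Λ (t, z)) (t, z) :=
    (h.contDiffAt t hz).hasStrictFDerivAt (by simp)
  have hsm : HasStrictFDerivAt (fun q : ℝ × W 2 => (q.1, Λ q))
      ((ContinuousLinearMap.fst ℝ ℝ (W 2)).prod (fderiv ℝ Λ (t, z))) (t, z) :=
    HasStrictFDerivAt.prodMk hasStrictFDerivAt_fst hΛs
  obtain ⟨E, hE⟩ := exists_equiv
    ((ContinuousLinearMap.fst ℝ ℝ (W 2)).prod (fderiv ℝ Λ (t, z))) (by
      rintro ⟨τ, v⟩ h0
      rw [ContinuousLinearMap.prod_apply, Prod.mk_eq_zero] at h0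
      obtain ⟨h1, h2⟩ := h0
      simp only [ContinuousLinearMap.coe_fst'] at h1
      subst h1
      have h5 : v = 0 := by
        apply hinj v
        show fderiv ℝ Λ (t, z) (ContinuousLinearMap.inr ℝ ℝ (W 2) v) = 0
        simpa using h2
      rw [h5]
      rfl)
  rw [← hE] at hsm
  let φ := hsm.toOpenPartialHomeomorph
  refine ⟨φ.source, φ.open_source.mem_nhds hsm.mem_toOpenPartialHomeomorph_source, ?_⟩
  intro s x y hx hy he
  have h5 : φ (s, x) = φ (s, y) := by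
    show ((s, x).1, Λ (s, x)) = ((s, y).1, Λ (s, y))
    rw [he]
  have := φ.injOn hx hy h5
  exact (Prod.mk.inj this).2

theorem tube_inj (h : FamP Λ) : ∃ δ : ℝ, 0 < δ ∧ ∀ t ∈ Icc (0 : ℝ) 1,
    InjOn (fun z => Λ (t, z)) (tube δ) ∧
      ∀ z ∈ tube δ, ∀ v, fderiv ℝ (fun w => Λ (t, w)) z v = 0 → v = 0 := by
  have hd0 : ∀ t ∈ Icc (0 : ℝ) 1, ∀ z ∈ P0, z ≠ 0 → ∀ v, D Λ (t, z) v = 0 → v = 0 := by
    intro t ht z hz hz0 v hv
    apply h.der t ht z hz hz0 v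
    rw [(h.hasFDerivAt t hz0).fderiv]
    exact hv
  -- compact sets
  have hP : IsClosed (P0 : Set (W 2)) := isClosed_eq (continuous_apply 0) continuous_const
  have hK1 : IsCompact (Icc (0 : ℝ) 1 ×ˢ (sphere (0 : W 2) 1 ∩ P0)) :=
    isCompact_Icc.prod ((isCompact_sphere (0 : W 2) 1).inter_right hP)
  have hK2 : IsCompact (Icc (0 : ℝ) 1 ×ˢ (sphere (0 : W 2 × W 2) 1 ∩ P0 ×ˢ P0)) :=
    isCompact_Icc.prod ((isCompact_sphere (0 : W 2 × W 2) 1).inter_right (hP.prod hP))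
  have hU1 : Icc (0 : ℝ) 1 ×ˢ (sphere (0 : W 2) 1 ∩ P0) ⊆
      interior {q : ℝ × W 2 | IsUnit (D Λ q)} := by
    rintro ⟨t, z⟩ ⟨ht, hz1, hz⟩
    rw [mem_sphere_zero_iff_norm] at hz1
    have hz0 : z ≠ 0 := by rw [← norm_pos_iff, hz1]; exact one_pos
    rw [mem_interior_iff_mem_nhds]
    have h4 : IsUnit (D Λ (t, z)) := by
      obtain ⟨D', hD'⟩ := exists_equiv (D Λ (t, z)) (hd0 t ht z hz hz0)
      refine ⟨ContinuousLinearEquiv.toUnit D', ?_⟩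
      rw [← hD']
      rfl
    exact (h.continuousAt_D t hz0) (Units.isOpen.mem_nhds h4)
  have hU2 : Icc (0 : ℝ) 1 ×ˢ (sphere (0 : W 2 × W 2) 1 ∩ P0 ×ˢ P0) ⊆
      interior {q : ℝ × (W 2 × W 2) | Λ (q.1, q.2.1) = Λ (q.1, q.2.2) → q.2.1 = q.2.2} := by
    rintro ⟨t, ⟨z, w⟩⟩ ⟨ht, hn, hz, hw⟩
    rw [mem_sphere_zero_iff_norm] at hn
    rw [mem_interior_iff_mem_nhds]
    by_cases he : Λ (t, z) = Λ (t, w)
    · have hzw := h.inj t ht z hz w hw he
      subst hzw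
      have hz1 : ‖z‖ = 1 := by
        rw [Prod.norm_def, max_self] at hn
        exact hn
      have hz0 : z ≠ 0 := by rw [← norm_pos_iff, hz1]; exact one_pos
      obtain ⟨U, hU, hUi⟩ := h.local_inj t hz0 (hd0 t ht z hz hz0)
      have c1 : ContinuousAt (fun q : ℝ × (W 2 × W 2) => (q.1, q.2.1)) (t, (z, z)) := by fun_prop
      have c2 : ContinuousAt (fun q : ℝ × (W 2 × W 2) => (q.1, q.2.2)) (t, (z, z)) := by fun_prop
      filter_upwards [c1 hU, c2 hU] with q h5 h6 h7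
      exact hUi q.1 q.2.1 q.2.2 h5 h6 h7
    · have c1 : Continuous (fun q : ℝ × (W 2 × W 2) => Λ (q.1, q.2.1)) :=
        h.continuous.comp (by fun_prop)
      have c2 : Continuous (fun q : ℝ × (W 2 × W 2) => Λ (q.1, q.2.2)) :=
        h.continuous.comp (by fun_prop)
      have ho : IsOpen {q : ℝ × (W 2 × W 2) | Λ (q.1, q.2.1) ≠ Λ (q.1, q.2.2)} :=
        isOpen_ne_fun c1 c2
      filter_upwards [ho.mem_nhds (show (t, (z, w)) ∈ _ from he)] with q h5 h6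
      exact absurd h6 h5
  obtain ⟨ρ₁, hρ₁, hth1⟩ := hK1.exists_thickening_subset_open isOpen_interior hU1
  obtain ⟨ρ₂, hρ₂, hth2⟩ := hK2.exists_thickening_subset_open isOpen_interior hU2
  obtain ⟨ρ, hρ⟩ : ∃ ρ, ρ = min 1 (min ρ₁ ρ₂) := ⟨_, rfl⟩
  have hρ0 : 0 < ρ := by rw [hρ]; positivity
  have hρ1 : ρ ≤ 1 := by rw [hρ]; exact min_le_left _ _
  have hρa : ρ ≤ ρ₁ := by rw [hρ]; exact (min_le_right _ _).trans (min_le_left _ _)
  have hρb : ρ ≤ ρ₂ := by rw [hρ]; exact (min_le_right _ _).trans (min_le_right _ _)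
  have hδ : 3 * (ρ ^ 2 / 3) ≤ ρ ^ 2 := by linarith
  have hδ0 : 0 < ρ ^ 2 / 3 := by positivity
  refine ⟨ρ ^ 2 / 3, hδ0, fun t ht => ⟨?_, ?_⟩⟩
  · intro z hz w hw he
    have he' : Λ (t, z) = Λ (t, w) := he
    obtain ⟨N, hN⟩ : ∃ N : ℝ, N = ‖(z, w)‖ := ⟨_, rfl⟩
    have hN0 : 0 < N := by
      rw [hN, norm_pos_iff]
      intro h0
      exact hz.1 (Prod.mk_eq_zero.1 h0).1
    have hn1 : ‖(N⁻¹ • z, N⁻¹ • w)‖ = 1 := by
      rw [← Prod.smul_mk, norm_smul, norm_inv, ← hN, Real.norm_of_nonneg hN0.le,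
        inv_mul_cancel₀ hN0.ne']
    obtain ⟨y, hy⟩ : ∃ y : W 2, y = N⁻¹ • z := ⟨_, rfl⟩
    obtain ⟨v, hv⟩ : ∃ v : W 2, v = N⁻¹ • w := ⟨_, rfl⟩
    rw [← hy, ← hv] at hn1
    have hyt : y ∈ tube (ρ ^ 2 / 3) := by rw [hy]; exact tube_real (inv_ne_zero hN0.ne') hz
    have hvt : v ∈ tube (ρ ^ 2 / 3) := by rw [hv]; exact tube_real (inv_ne_zero hN0.ne') hw
    have hy1 : ‖y‖ ≤ 1 := by rw [← hn1]; exact norm_fst_le (y, v)
    have hv1 : ‖v‖ ≤ 1 := by rw [← hn1]; exact norm_snd_le (y, v)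
    obtain ⟨y1, y2⟩ := tube_proj hρ0 hδ hyt hy1 hδ0.le
    obtain ⟨v1, v2⟩ := tube_proj hρ0 hδ hvt hv1 hδ0.le
    have hmem : (t, (y, v)) ∈ thickening ρ₂ (Icc (0 : ℝ) 1 ×ˢ (sphere (0 : W 2 × W 2) 1 ∩ P0 ×ˢ P0)) := by
      rw [mem_thickening_iff]
      refine ⟨(t, (![0, y 1, y 2], ![0, v 1, v 2])), ⟨ht, ?_, rfl, rfl⟩, ?_⟩
      · rw [mem_sphere_zero_iff_norm]
        rw [Prod.norm_def] at hn1 ⊢
        simp only at hn1 ⊢
        rcases le_total ‖y‖ ‖v‖ with hc1 | hc1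
        · rw [max_eq_right hc1] at hn1
          have h5 := norm_proj_eq hn1 (lt_of_lt_of_le v1 hρ1)
          rw [h5, max_eq_right]
          exact (norm_proj_le y).trans hy1
        · rw [max_eq_left hc1] at hn1
          have h5 := norm_proj_eq hn1 (lt_of_lt_of_le y1 hρ1)
          rw [h5, max_eq_left]
          exact (norm_proj_le v).trans hv1
      · rw [Prod.dist_eq, Prod.dist_eq, dist_self, dist_eq_norm, dist_eq_norm]
        simp only
        rw [max_lt_iff, max_lt_iff]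
        exact ⟨hρ₂, lt_of_lt_of_le y2 hρb, lt_of_lt_of_le v2 hρb⟩
    have h6 := interior_subset (hth2 hmem)
    have h7 : Λ (t, y) = Λ (t, v) := by
      rw [hy, hv, h.real, h.real, he']
    have h8 : y = v := h6 h7
    rw [hy, hv] at h8
    exact smul_right_injective _ (inv_ne_zero hN0.ne') h8
  · intro z hz v hv
    have hzn : 0 < ‖z‖ := norm_pos_iff.2 hz.1
    obtain ⟨y, hy⟩ : ∃ y : W 2, y = ‖z‖⁻¹ • z := ⟨_, rfl⟩
    have hyt : y ∈ tube (ρ ^ 2 / 3) := by rw [hy]; exact tube_real (inv_ne_zero hzn.ne') hz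
    have hy1 : ‖y‖ = 1 := by
      rw [hy, norm_smul, norm_inv, norm_norm, inv_mul_cancel₀ hzn.ne']
    obtain ⟨y1, y2⟩ := tube_proj hρ0 hδ hyt hy1.le hδ0.le
    have hmem : (t, y) ∈ thickening ρ₁ (Icc (0 : ℝ) 1 ×ˢ (sphere (0 : W 2) 1 ∩ P0)) := by
      rw [mem_thickening_iff]
      refine ⟨(t, ![0, y 1, y 2]), ⟨ht, ?_, rfl⟩, ?_⟩
      · rw [mem_sphere_zero_iff_norm]
        exact norm_proj_eq hy1 (lt_of_lt_of_le y1 hρ1)
      · rw [Prod.dist_eq, dist_self, dist_eq_norm]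
        simp only
        rw [max_lt_iff]
        exact ⟨hρ₁, lt_of_lt_of_le y2 hρa⟩
    have h6' : (t, y) ∈ {q : ℝ × W 2 | IsUnit (D Λ q)} := interior_subset (hth1 hmem)
    have h6 : IsUnit (D Λ (t, y)) := h6'
    rw [hy, h.D_pos t (inv_pos.2 hzn) hz.1] at h6
    rw [(h.hasFDerivAt t hz.1).fderiv] at hv
    obtain ⟨u, hu⟩ := h6
    have h9 : v = ((u⁻¹ : (EndW 2)ˣ) : EndW 2) (D Λ (t, z) v) := by
      rw [← hu]
      show v = (((u⁻¹ : (EndW 2)ˣ) : EndW 2) * (u : EndW 2)) v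
      rw [Units.inv_mul]
      rfl
    rw [h9, hv, map_zero]

theorem local_step (h : FamP Λ) {δ : ℝ} (hδ : 0 < δ) {t₀ : ℝ}
    (hi : InjOn (fun z => Λ (t₀, z)) (tube δ))
    (hd : ∀ z ∈ tube δ, ∀ v, fderiv ℝ (fun w => Λ (t₀, w)) z v = 0 → v = 0) :
    ∀ᶠ t in 𝓝 t₀, ∃ G : W 2 → W 2, Conn (id : W 2 → W 2) G ∧
      ∀ z ∈ tube (δ / 3), G (Λ (t₀, z)) = Λ (t, z) := by
  obtain ⟨Y, hY⟩ : ∃ Y : ℝ × W 2 → W 2, Y = fun q => cutT δ q.2 • (Λ (q.1, q.2) - Λ (t₀, q.2)) :=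
    ⟨_, rfl⟩
  have hYx : ∀ t z, Y (t, z) = cutT δ z • (Λ (t, z) - Λ (t₀, z)) := fun t z => by rw [hY]
  have hYc : ContDiffOn ℝ ∞ Y (univ ×ˢ {0}ᶜ) := by
    rintro ⟨t, z⟩ ⟨-, hz⟩
    apply ContDiffAt.contDiffWithinAt
    rw [hY]
    have h1 : ContDiffAt ℝ ∞ (fun q : ℝ × W 2 => cutT δ q.2) (t, z) :=
      (contDiffAt_cutT δ hz).comp (t, z) contDiffAt_snd
    have h2 : ContDiffAt ℝ ∞ (fun q : ℝ × W 2 => Λ (q.1, q.2)) (t, z) :=
      h.contDiffAt t hz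
    have h3 : ContDiffAt ℝ ∞ (fun q : ℝ × W 2 => Λ (t₀, q.2)) (t, z) := by
      have h4 : ContDiffAt ℝ ∞ (fun q : ℝ × W 2 => ((t₀, q.2) : ℝ × W 2)) (t, z) :=
        contDiffAt_const.prodMk contDiffAt_snd
      exact ContDiffAt.comp (t, z) (g := Λ)
        (f := fun q : ℝ × W 2 => ((t₀, q.2) : ℝ × W 2)) (h.contDiffAt t₀ hz) h4
    exact h1.smul (h2.sub h3)
  have hYh : ∀ (t : ℝ) (c : ℂ) (z : W 2), Y (t, c • z) = c • Y (t, z) := by
    intro t c z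
    rw [hYx, hYx]
    by_cases hc : c = 0
    · rw [hc, zero_smul, zero_smul, h.zero, h.zero, sub_zero, smul_zero]
    · rw [cutT_smul hc, h.hom, h.hom, ← smul_sub, smul_comm]
  have hY0 : ∀ (t : ℝ) (z : W 2), z ∉ tube (2 * δ / 3) → Y (t, z) = 0 := by
    intro t z hz
    rw [hYx]
    by_cases hz0 : z = 0
    · rw [hz0, h.zero, h.zero, sub_zero, smul_zero]
    · rw [cutT_zero hδ hz0 hz, zero_smul]
  have hfs : ContDiffOn ℝ ∞ (fun z => Λ (t₀, z)) {0}ᶜ := by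
    intro z hz
    have h4 : ContDiffAt ℝ ∞ (fun z : W 2 => ((t₀, z) : ℝ × W 2)) z :=
      contDiffAt_const.prodMk contDiffAt_id
    have := ContDiffAt.comp z (g := Λ)
        (f := fun z : W 2 => ((t₀, z) : ℝ × W 2)) (h.contDiffAt t₀ hz) h4
    exact this.contDiffWithinAt
  obtain ⟨X, hXc, hXh, hXf, hX0⟩ := part_ext (δ' := 2 * δ / 3) (δ := δ) (by positivity) (by linarith)
    hfs (h.hom t₀) hi hd hYc hYh hY0
  have hXt₀ : ∀ w, X (t₀, w) = w := hX0 t₀ fun z => by rw [hYx, sub_self, smul_zero]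
  filter_upwards [fam_near hXc hXh hXt₀] with t ht
  refine ⟨fun w => X (t, w), ht, fun z hz => ?_⟩
  have hzδ : z ∈ tube δ := tube_mono (by linarith) hz
  show X (t, Λ (t₀, z)) = Λ (t, z)
  have h5 : X (t, Λ (t₀, z)) = Λ (t₀, z) + Y (t, z) := hXf t z hzδ
  rw [h5, hYx, cutT_one hδ hz, one_smul]
  abel

/-- Isotopy extension. -/
theorem iso (h : FamP Λ) : ∃ (G : W 2 → W 2) (δ : ℝ), 0 < δ ∧ Conn (id : W 2 → W 2) G ∧
    ∀ z ∈ tube δ, G (Λ (0, z)) = Λ (1, z) := by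
  obtain ⟨δ, hδ, hall⟩ := h.tube_inj
  have key := IsPreconnected.induction₂ (s := Icc (0 : ℝ) 1) isPreconnected_Icc
    (fun t t' => ∃ G : W 2 → W 2, Conn (id : W 2 → W 2) G ∧
      ∀ z ∈ tube (δ / 3), G (Λ (t, z)) = Λ (t', z))
    (fun t ht => by
      have := h.local_step hδ (hall t ht).1 (hall t ht).2
      exact nhdsWithin_le_nhds this)
    (fun x y z _ _ _ hxy hyz => by
      obtain ⟨G, hG, hG2⟩ := hxy
      obtain ⟨G', hG', hG2'⟩ := hyz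
      refine ⟨fun w => G' (G w), ?_, fun w hw => ?_⟩
      · have h4 := conn_comp_right hG' (hloc_of_conn hG)
        have h5 : Conn G (fun w => G' (G w)) := h4
        exact hG.trans h5
      · show G' (G (Λ (x, w))) = _
        rw [hG2 w hw, hG2' w hw])
    (fun x y _ _ hxy => by
      obtain ⟨G, hG, hG2⟩ := hxy
      have hGi : Function.Injective G := conn_inj hG Function.injective_id
      obtain ⟨g, g1, _, g3, g4⟩ := hloc_inv (hloc_of_conn hG) hGi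
      refine ⟨g, ?_, fun w hw => ?_⟩
      · have h4 := conn_comp_right hG g1
        have h5 : (fun z => G (g z)) = (id : W 2 → W 2) := funext g4
        rw [h5] at h4
        have h6 : Conn g id := h4
        exact conn_symm h6
      · rw [← hG2 w hw, g3])
    (x := 0) (y := 1) (left_mem_Icc.2 zero_le_one) (right_mem_Icc.2 zero_le_one)
  obtain ⟨G, hG, hG2⟩ := key
  exact ⟨G, δ / 3, by positivity, hG, hG2⟩

end FamP

end Pool.Agent.Lib.PQ
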