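import Pool.Agent.Lib.PQ.Tele
import Pool.Agent.Lib.PJ.MeanP

set_option autoImplicit false

/-!
# The averages of a lift with small quadratic energy on the plane

All averages are injective on the plane, with injective derivative; the last one is close to a complex linear map.
-/

open MeasureTheory Set Metric
open scoped ENNReal NNReal ContDiff Topology

namespace Pool.Agent.Lib.PQ

open Pool.Agent.P28b04d Pool.Agent.Lib.P28e

variable {Φ : W 2 → W 2}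

theorem em_tail {z : W 2} (hz : z ∈ PJ.P0) : em (Fin.tail z : W 1) = z := by
  ext i
  refine Fin.cases ?_ (fun j => ?_) i
  · rw [em_zero]
    exact (show z 0 = 0 from hz).symm
  · rfl

theorem em_mem (q : W 1) : em q ∈ PJ.P0 := rfl

theorem avP_lift (h : HLoc Φ) {s : ℝ} (hs0 : 0 ≤ s) (hs : s ≤ sm 2) : Lift (AvP Φ s) where
  smooth := by
    have h2 : ContDiffOn ℝ ∞ (fun z : W 2 => (s, z)) {0}ᶜ :=
      (contDiff_const.prodMk contDiff_id).contDiffOn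
    exact (avP_smooth h).comp h2 fun z hz => mem_Dom hs0 hs hz
  hom := fun c z => avP_hom h s c z

theorem lift_real {A : W 2 → W 2} (h : Lift A) (r : ℝ) (z : W 2) : A (r • z) = r • A z := by
  rw [Hom46.smul_real, h.hom, ← Hom46.smul_real]

theorem lift_zero {A : W 2 → W 2} (h : Lift A) : A 0 = 0 := by
  have := h.hom 0 0
  simpa using this

theorem lift_diff {A : W 2 → W 2} (h : Lift A) {z : W 2} (hz : z ≠ 0) : DifferentiableAt ℝ A z :=
  (h.smooth.contDiffAt (isOpen_compl_singleton.mem_nhds hz)).differentiableAt (by simp)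

/-- A lift whose derivative along the plane is close to `M`. -/
theorem near_lip {A : W 2 → W 2} (h : Lift A) {N : EndW 2} {η : ℝ} (hη : 0 ≤ η)
    (hn : ∀ z ∈ PJ.P0, z ≠ 0 → ∀ v, ‖N (fderiv ℝ A z v) - v‖ ≤ η * ‖v‖) :
    ∀ z ∈ PJ.P0, ∀ w ∈ PJ.P0, ‖(N (A z) - z) - (N (A w) - w)‖ ≤ η * ‖z - w‖ := by
  refine PJ.mean_P0 (f := fun z => N (A z) - z) hη (fun r z => ?_) (fun z hz => ?_)
    (fun z hz hz0 v _ => ?_)
  · show N (A (r • z)) - r • z = r • (N (A z) - z)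
    rw [lift_real h, map_smul, smul_sub]
  · exact (N.differentiableAt.comp z (lift_diff h hz)).sub differentiableAt_id
  · have h1 : HasFDerivAt (fun z => N (A z)) (N.comp (fderiv ℝ A z)) z :=
      HasFDerivAt.comp (g := fun y : W 2 => N y) (f := A) z N.hasFDerivAt
        (lift_diff h hz0).hasFDerivAt
    have h2 : HasFDerivAt (fun z => N (A z) - z)
        (N.comp (fderiv ℝ A z) - ContinuousLinearMap.id ℝ (W 2)) z := h1.sub (hasFDerivAt_id z)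
    rw [h2.fderiv]
    exact hn z hz hz0 v

theorem near_inj {A : W 2 → W 2} (h : Lift A) {N : EndW 2}
    (hn : ∀ z ∈ PJ.P0, z ≠ 0 → ∀ v, ‖N (fderiv ℝ A z v) - v‖ ≤ 1 / 2 * ‖v‖) :
    ∀ z ∈ PJ.P0, ∀ w ∈ PJ.P0, A z = A w → z = w := by
  intro z hz w hw he
  have h1 := near_lip h (by norm_num) hn z hz w hw
  rw [he] at h1
  have h2 : (N (A w) - z) - (N (A w) - w) = -(z - w) := by abel
  rw [h2, norm_neg] at h1
  have h3 : ‖z - w‖ ≤ 0 := by linarith [norm_nonneg (z - w)]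
  exact sub_eq_zero.1 (norm_le_zero_iff.1 h3)

theorem near_der {D N : EndW 2} {η : ℝ} (hη : η < 1) {v : W 2} (hn : ‖N (D v) - v‖ ≤ η * ‖v‖)
    (h0 : D v = 0) : v = 0 := by
  rw [h0, map_zero, zero_sub, norm_neg] at hn
  have h3 : ‖v‖ ≤ 0 := by
    by_contra hcon
    push Not at hcon
    nlinarith
  exact norm_le_zero_iff.1 h3

/-- `M⁻¹ M'` close to one and `M'⁻¹ x` close to `v`. -/
theorem near_trans {M M' : (EndW 2)ˣ} {a b : ℝ} {x v : W 2}
    (h1 : ‖(↑M⁻¹ : EndW 2) * (M' : EndW 2) - 1‖ ≤ a) (h2 : ‖(↑M'⁻¹ : EndW 2) x - v‖ ≤ b * ‖v‖) :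
    ‖(↑M⁻¹ : EndW 2) x - v‖ ≤ (a * (1 + b) + b) * ‖v‖ := by
  have ha : 0 ≤ a := (norm_nonneg _).trans h1
  obtain ⟨y, hy⟩ : ∃ y : W 2, y = (↑M'⁻¹ : EndW 2) x := ⟨_, rfl⟩
  have e1 : x = (M' : EndW 2) y := by
    rw [hy]
    show _ = ((M' : EndW 2) * (↑M'⁻¹ : EndW 2)) x
    rw [Units.mul_inv]
    rfl
  have e2 : (↑M⁻¹ : EndW 2) x - v = ((↑M⁻¹ : EndW 2) * (M' : EndW 2) - 1) y + (y - v) := by
    show _ = ((↑M⁻¹ : EndW 2) ((M' : EndW 2) y) - y) + (y - v)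
    rw [← e1, sub_add_sub_cancel]
  rw [← hy] at h2
  have h3 : ‖y‖ ≤ (1 + b) * ‖v‖ := by
    calc ‖y‖ = ‖(y - v) + v‖ := by rw [sub_add_cancel]
      _ ≤ ‖y - v‖ + ‖v‖ := norm_add_le _ _
      _ ≤ (1 + b) * ‖v‖ := by linarith
  rw [e2]
  refine (norm_add_le _ _).trans ?_
  have h4 : ‖((↑M⁻¹ : EndW 2) * (M' : EndW 2) - 1) y‖ ≤ a * ((1 + b) * ‖v‖) :=
    (ContinuousLinearMap.le_opNorm _ _).trans (mul_le_mul h1 h3 (norm_nonneg _) ha)
  calc _ ≤ a * ((1 + b) * ‖v‖) + b * ‖v‖ := add_le_add h4 h2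
    _ = (a * (1 + b) + b) * ‖v‖ := by ring

/-- The conclusion on the averages. -/
structure AvGood (Φ : W 2 → W 2) : Prop where
  inj : ∀ s : ℝ, 0 < s → s ≤ sm 2 → ∀ z ∈ PJ.P0, ∀ w ∈ PJ.P0, AvP Φ s z = AvP Φ s w → z = w
  der : ∀ s : ℝ, 0 < s → s ≤ sm 2 → ∀ z ∈ PJ.P0, z ≠ 0 → ∀ v, fderiv ℝ (AvP Φ s) z v = 0 → v = 0
  lin : ∃ (Λ : W 2 ≃ₗ[ℂ] W 2) (ΛR N : EndW 2), (∀ v, ΛR v = Λ v) ∧ (∀ v, ‖N (ΛR v) - v‖ ≤ 1 / 4 * ‖v‖) ∧
    ∀ z ∈ PJ.P0, z ≠ 0 → ∀ v, ‖N (fderiv ℝ (AvP Φ (sm 2)) z v) - v‖ ≤ 1 / 4 * ‖v‖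

theorem avGood : ∃ δ : ℝ, 0 < δ ∧ ∀ Φ : W 2 → W 2, HLoc Φ → enL Φ ≤ ENNReal.ofReal δ → AvGood Φ := by
  obtain ⟨δ1, hδ1, hcomp⟩ := compareP (1 / 100) (by norm_num)
  obtain ⟨δ2, hδ2⟩ : ∃ δ2 : ℝ, δ2 = min δ1 (1 / 10000000) := ⟨_, rfl⟩
  have hδ2p : 0 < δ2 := by rw [hδ2]; positivity
  have hδ21 : δ2 ≤ δ1 := by rw [hδ2]; exact min_le_left _ _
  have hδ22 : δ2 ≤ 1 / 10000000 := by rw [hδ2]; exact min_le_right _ _
  obtain ⟨c1, hc1, h1⟩ := good_allP δ2 hδ2p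
  refine ⟨c1, hc1, fun Φ hΦ hE => ?_⟩
  have hall2 := h1 Φ hΦ hE
  obtain ⟨ε₀, hε₀⟩ : ∃ ε₀ : ℝ, ε₀ = 1 / 100000 := ⟨_, rfl⟩
  have hall : AllGood Φ ε₀ := by
    intro z hz ρ hρ hρz
    obtain ⟨M, hM⟩ := hall2 z hz ρ hρ hρz
    exact ⟨M, goodP_mono hM (by rw [hε₀]; linarith)⟩
  have hsm : 0 < sm 2 := sm_pos 2
  have hex : ∀ z : W 1, z ≠ 0 → ∃ M : (EndW 2)ˣ, GoodP Φ z (‖z‖ / 8) δ2 M := fun z hz =>
    hall2 z hz (‖z‖ / 8) (by have := norm_pos_iff.2 hz; positivity) le_rfl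
  have hcmp := hcomp Φ hΦ (fun z hz => by
    obtain ⟨M, hM⟩ := hex z hz
    exact ⟨M, goodP_mono hM hδ21⟩)
  -- the top scale
  have htop : ∀ z : W 1, z ≠ 0 → ∀ M : (EndW 2)ˣ, GoodP Φ z (‖z‖ / 8) δ2 M →
      GoodP Φ z (sm 2 * rad (em z)) ε₀ M := by
    intro z hz M hM
    have hz' := norm_pos_iff.2 hz
    have hR := le_R z
    have hρ : sm 2 * rad (em z) ≤ ‖z‖ / 8 := scale_le hsm.le le_rfl
    have hg := goodP_shrink (z := z) (z' := z) (K := 3) (mul_nonneg hsm.le (hz'.le.trans hR))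
      (by positivity) hδ2p.le (closedBall_subset_closedBall hρ) (by norm_num)
      (by rw [sm_two]; linarith) hM
    refine goodP_mono hg ?_
    rw [hε₀]
    linarith
  obtain ⟨M0, hM0⟩ := hex (e0 1) (by
    intro h
    have := congrFun h 0
    simp [e0] at this)
  have he0 : e0 1 ≠ 0 := by
    intro h
    have := congrFun h 0
    simp [e0] at this
  -- derivative of the last average
  have hlast : ∀ z : W 1, z ≠ 0 → ∀ v,
      ‖(↑M0⁻¹ : EndW 2) (fderiv ℝ (AvP Φ (sm 2)) (em z) v) - v‖ ≤ 1 / 40 * ‖v‖ := by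
    intro z hz v
    obtain ⟨M, hM⟩ := hex z hz
    have h3 := close_dir hΦ hz hsm le_rfl (by rw [hε₀]; norm_num) (htop z hz M hM) v
    have h4 := hcmp (e0 1) z he0 hz M0 M (goodP_mono hM0 hδ21) (goodP_mono hM hδ21)
    refine (near_trans h4 h3).trans ?_
    have := norm_nonneg v
    rw [hε₀]
    nlinarith
  have hlast' : ∀ z ∈ PJ.P0, z ≠ 0 → ∀ v,
      ‖(↑M0⁻¹ : EndW 2) (fderiv ℝ (AvP Φ (sm 2)) z v) - v‖ ≤ 1 / 40 * ‖v‖ := by
    intro z hz hz0 v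
    rw [← em_tail hz]
    refine hlast _ ?_ v
    intro h0
    apply hz0
    rw [← em_tail hz, h0, map_zero]
  have hlip := near_lip (avP_lift hΦ hsm.le le_rfl) (by norm_num) hlast'
  -- telescoping up to the last scale
  have htele : ∀ (z : W 1) (s : ℝ), 0 < s → s ≤ sm 2 →
      ‖(↑M0⁻¹ : EndW 2) (AvP Φ s (em z) - AvP Φ (sm 2) (em z))‖ ≤ 1 / 5000 * ‖z‖ := by
    intro z s hs0 hs
    by_cases hz : z = 0
    · rw [hz, map_zero, lift_zero (avP_lift hΦ hs0.le hs), lift_zero (avP_lift hΦ hsm.le le_rfl),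
        sub_zero, map_zero, norm_zero, norm_zero, mul_zero]
    · obtain ⟨M, hM⟩ := hex z hz
      have h3 := telescope hΦ (by rw [hε₀]; norm_num) (by rw [hε₀]; norm_num) hall hz hs0 hs le_rfl
        (htop z hz M hM)
      have h4 := hcmp (e0 1) z he0 hz M0 M (goodP_mono hM0 hδ21) (goodP_mono hM hδ21)
      have hN : ‖(↑M0⁻¹ : EndW 2) * (M : EndW 2)‖ ≤ 101 / 100 := by
        calc ‖(↑M0⁻¹ : EndW 2) * (M : EndW 2)‖ = ‖((↑M0⁻¹ : EndW 2) * (M : EndW 2) - 1) + 1‖ := by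
              rw [sub_add_cancel]
          _ ≤ ‖(↑M0⁻¹ : EndW 2) * (M : EndW 2) - 1‖ + ‖(1 : EndW 2)‖ := norm_add_le _ _
          _ ≤ 101 / 100 := by rw [norm_one]; linarith
      obtain ⟨x, hx⟩ : ∃ x : W 2, x = AvP Φ s (em z) - AvP Φ (sm 2) (em z) := ⟨_, rfl⟩
      rw [← hx] at h3 ⊢
      have e5 : (↑M0⁻¹ : EndW 2) x = ((↑M0⁻¹ : EndW 2) * (M : EndW 2)) ((↑M⁻¹ : EndW 2) x) := by
        have e6 : (M : EndW 2) ((↑M⁻¹ : EndW 2) x) = x := by
          show ((M : EndW 2) * (↑M⁻¹ : EndW 2)) x = _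
          rw [Units.mul_inv]
          rfl
        show _ = (↑M0⁻¹ : EndW 2) ((M : EndW 2) ((↑M⁻¹ : EndW 2) x))
        rw [e6]
      rw [e5]
      refine ((ContinuousLinearMap.le_opNorm _ _).trans
        (mul_le_mul hN h3 (norm_nonneg _) (by norm_num))).trans ?_
      have h6 := scale_le (z := z) hsm.le le_rfl
      rw [hε₀]
      have h7 : 64 * (1 / 100000 : ℝ) * sm 2 * rad (em z) = 64 / 100000 * (sm 2 * rad (em z)) := by
        ring
      rw [h7]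
      have := norm_nonneg z
      linarith
  -- injectivity on the plane, first for ordered norms
  have hinj1 : ∀ s : ℝ, 0 < s → s ≤ sm 2 → ∀ z w : W 1, ‖w‖ ≤ ‖z‖ →
      AvP Φ s (em w) = AvP Φ s (em z) → w = z := by
    intro s hs0 hs z w hwz he
    by_cases hz : z = 0
    · rw [hz, norm_zero] at hwz
      rw [hz]
      exact norm_le_zero_iff.1 hwz
    · by_cases hsmall : ‖w - z‖ ≤ ‖z‖ / 200
      · exact inj_small hΦ (by rw [hε₀]; norm_num) (by rw [hε₀]) hall hz hwz hsmall hs0 hs he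
      · push Not at hsmall
        exfalso
        have e1 := hlip (em w) (em_mem w) (em z) (em_mem z)
        have e2 := htele z s hs0 hs
        have e3 := htele w s hs0 hs
        have e4 : em (w - z) = -(((↑M0⁻¹ : EndW 2) (AvP Φ (sm 2) (em w)) - em w) -
            ((↑M0⁻¹ : EndW 2) (AvP Φ (sm 2) (em z)) - em z)) +
            ((↑M0⁻¹ : EndW 2) (AvP Φ s (em z) - AvP Φ (sm 2) (em z)) -
            (↑M0⁻¹ : EndW 2) (AvP Φ s (em w) - AvP Φ (sm 2) (em w))) := by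
          rw [map_sub em, map_sub (↑M0⁻¹ : EndW 2), map_sub (↑M0⁻¹ : EndW 2), he]
          abel
        have e5 : ‖w - z‖ ≤ 1 / 40 * ‖w - z‖ + (1 / 5000 * ‖z‖ + 1 / 5000 * ‖w‖) := by
          calc ‖w - z‖ = ‖em (w - z)‖ := (norm_em _).symm
            _ ≤ _ := by
                conv_lhs => rw [e4]
                refine (norm_add_le _ _).trans (add_le_add ?_ ((norm_sub_le _ _).trans
                  (add_le_add e2 e3)))
                rw [norm_neg, ← norm_em (w - z), map_sub]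
                exact e1
        have e6 := norm_nonneg (w - z)
        linarith
  have hinj2 : ∀ s : ℝ, 0 < s → s ≤ sm 2 → ∀ z w : W 1, AvP Φ s (em z) = AvP Φ s (em w) → z = w := by
    intro s hs0 hs z w he
    rcases le_total ‖z‖ ‖w‖ with hc | hc
    · exact hinj1 s hs0 hs w z hc he
    · exact (hinj1 s hs0 hs z w hc he.symm).symm
  refine ⟨fun s hs0 hs z hz w hw he => ?_, fun s hs0 hs z hz hz0 v hv => ?_, ?_⟩
  · rw [← em_tail hz, ← em_tail hw] at he ⊢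
    rw [hinj2 s hs0 hs _ _ he]
  · have hq : (Fin.tail z : W 1) ≠ 0 := by
      intro h0
      apply hz0
      rw [← em_tail hz, h0, map_zero]
    obtain ⟨M, hM⟩ := hall (Fin.tail z : W 1) hq _
      (mul_pos hs0 (Close46.rad_pos (em_ne hq))) (scale_le hs0.le hs)
    have h3 := close_dir hΦ hq hs0 hs (by rw [hε₀]; norm_num) hM v
    rw [em_tail hz] at h3
    exact near_der (by rw [hε₀]; norm_num) h3 hv
  · have hII : (mulC Complex.I : EndW 2) * mulC (-Complex.I) = 1 := by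
      rw [mulC_mul]; simp [mulC_one]
    have hII' : (mulC (-Complex.I) : EndW 2) * mulC Complex.I = 1 := by
      rw [mulC_mul]; simp [mulC_one]
    let J : (EndW 2)ˣ := ⟨mulC Complex.I, mulC (-Complex.I), hII, hII'⟩
    have hJ : ((J * M0 * J⁻¹ : (EndW 2)ˣ) : EndW 2) =
        mulC Complex.I * (M0 : EndW 2) * mulC (-Complex.I) := rfl
    have hIe : (Complex.I • e0 1) ≠ 0 := smul_ne_zero Complex.I_ne_zero he0
    have hnI : ‖Complex.I • e0 1‖ = ‖e0 1‖ := by rw [norm_smul]; simp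
    have hM0' : GoodP Φ (Complex.I • e0 1) (‖Complex.I • e0 1‖ / 8) δ2 (J * M0 * J⁻¹) := by
      rw [hnI]
      have hp := norm_pos_iff.2 he0
      exact goodP_mulC hΦ (by linarith) hJ hM0
    have hc0 := hcmp (e0 1) _ he0 hIe M0 _ (goodP_mono hM0 hδ21) (goodP_mono hM0' hδ21)
    rw [hJ] at hc0
    obtain ⟨Λ, ΛR, hΛ, hΛM⟩ := linear_part M0 (by norm_num) hc0
    refine ⟨Λ, ΛR, (↑M0⁻¹ : EndW 2), hΛ, fun v => ?_, fun z hz hz0 v => ?_⟩
    · have := ContinuousLinearMap.le_of_opNorm_le _ hΛM v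
      have e : ((↑M0⁻¹ : EndW 2) * ΛR - 1) v = (↑M0⁻¹ : EndW 2) (ΛR v) - v := rfl
      rw [e] at this
      linarith [norm_nonneg v]
    · have := hlast' z hz hz0 v
      linarith [norm_nonneg v]

end Pool.Agent.Lib.PQ
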