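import Pool.Agent.Lib.PQ.Fam
import Pool.Agent.Lib.PQ.Large
import Pool.Agent.Lib.PJ.Gap

set_option autoImplicit false

/-!
# Small quadratic energy on the plane: isotopic to a ball-supported diffeomorphism
-/

open MeasureTheory Set Metric Filter
open scoped ContDiff Topology ENNReal

namespace Pool.Agent.Lib.PQ

open Pool.Agent.P28b04d Pool.Agent.Lib.P28e Pool.Agent.Lib.P28c Pool.Agent.Lib.P28g

variable {Φ : W 2 → W 2}

/-- The family of averages. -/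
noncomputable def famA (Φ : W 2 → W 2) (q : ℝ × W 2) : W 2 :=
  AvP Φ (sm 2 * Real.smoothTransition q.1) q.2

theorem par_mem (t : ℝ) : 0 ≤ sm 2 * Real.smoothTransition t ∧
    sm 2 * Real.smoothTransition t ≤ sm 2 := by
  have h1 := Real.smoothTransition.nonneg t
  have h2 := Real.smoothTransition.le_one t
  have h3 := sm_pos 2
  exact ⟨by positivity, by nlinarith⟩

theorem famP_A (h : HLoc Φ) (hi : Function.Injective Φ) (hA : AvGood Φ) : FamP (famA Φ) where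
  smooth := by
    have h1 : ContDiffOn ℝ ∞ (fun q : ℝ × W 2 => ((sm 2 * Real.smoothTransition q.1, q.2) : ℝ × W 2))
        (univ ×ˢ {0}ᶜ) :=
      ((contDiff_const.mul (Real.smoothTransition.contDiff.comp contDiff_fst)).prodMk
        contDiff_snd).contDiffOn
    refine (avP_smooth h).comp h1 ?_
    rintro ⟨t, z⟩ ⟨-, hz⟩
    exact mem_Dom (par_mem t).1 (par_mem t).2 hz
  hom t c z := avP_hom h _ c z
  inj t _ z hz w hw he := by
    have he' : AvP Φ (sm 2 * Real.smoothTransition t) z = AvP Φ (sm 2 * Real.smoothTransition t) w := he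
    rcases (par_mem t).1.eq_or_lt with h0 | h0
    · rw [← h0, avP_zero] at he'
      exact hi he'
    · exact hA.inj _ h0 (par_mem t).2 z hz w hw he'
  der t _ z hz hz0 v hv := by
    have hv' : fderiv ℝ (AvP Φ (sm 2 * Real.smoothTransition t)) z v = 0 := hv
    rcases (par_mem t).1.eq_or_lt with h0 | h0
    · rw [← h0, avP_zero] at hv'
      exact h.inj z hz0 v hv'
    · exact hA.der _ h0 (par_mem t).2 z hz hz0 v hv'

/-- The straight line from the last average to a linear map. -/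
noncomputable def famB (Φ : W 2 → W 2) (Λ : W 2 ≃ₗ[ℂ] W 2) (q : ℝ × W 2) : W 2 :=
  (1 - q.1) • AvP Φ (sm 2) q.2 + q.1 • Λ q.2

theorem famP_B (h : HLoc Φ) {Λ : W 2 ≃ₗ[ℂ] W 2} {ΛR N : EndW 2} (hΛ : ∀ v, ΛR v = Λ v)
    (h1 : ∀ v, ‖N (ΛR v) - v‖ ≤ 1 / 4 * ‖v‖)
    (h2 : ∀ z ∈ PJ.P0, z ≠ 0 → ∀ v, ‖N (fderiv ℝ (AvP Φ (sm 2)) z v) - v‖ ≤ 1 / 4 * ‖v‖) :
    FamP (famB Φ Λ) := by
  have hl := avP_lift h (sm_pos 2).le le_rfl
  have hLs : ContDiff ℝ ∞ (fun z : W 2 => Λ z) := by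
    have e : (fun z : W 2 => Λ z) = fun z => ΛR z := funext fun z => (hΛ z).symm
    rw [e]
    exact ΛR.contDiff
  have hsm : ContDiffOn ℝ ∞ (famB Φ Λ) (univ ×ˢ {0}ᶜ) := by
    have a1 : ContDiffOn ℝ ∞ (fun q : ℝ × W 2 => AvP Φ (sm 2) q.2) (univ ×ˢ {0}ᶜ) :=
      hl.smooth.comp contDiff_snd.contDiffOn fun q hq => hq.2
    have a2 : ContDiffOn ℝ ∞ (fun q : ℝ × W 2 => Λ q.2) (univ ×ˢ {0}ᶜ) :=
      (hLs.comp contDiff_snd).contDiffOn
    exact ((contDiffOn_const.sub contDiff_fst.contDiffOn).smul a1).add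
      (contDiff_fst.contDiffOn.smul a2)
  have hhom : ∀ (t : ℝ) (c : ℂ) (z : W 2), famB Φ Λ (t, c • z) = c • famB Φ Λ (t, z) := by
    intro t c z
    show (1 - t) • AvP Φ (sm 2) (c • z) + t • Λ (c • z) =
      c • ((1 - t) • AvP Φ (sm 2) z + t • Λ z)
    rw [avP_hom h, map_smul, smul_add, smul_comm, smul_comm t]
  have hlift : ∀ t : ℝ, Lift fun z => famB Φ Λ (t, z) := by
    intro t
    refine ⟨?_, hhom t⟩
    have h3 : ContDiffOn ℝ ∞ (fun z : W 2 => ((t, z) : ℝ × W 2)) {0}ᶜ :=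
      (contDiff_const.prodMk contDiff_id).contDiffOn
    exact hsm.comp h3 fun z hz => ⟨mem_univ _, hz⟩
  have hder : ∀ t ∈ Icc (0 : ℝ) 1, ∀ z ∈ PJ.P0, z ≠ 0 → ∀ v,
      ‖N (fderiv ℝ (fun z => famB Φ Λ (t, z)) z v) - v‖ ≤ 1 / 4 * ‖v‖ := by
    intro t ht z hz hz0 v
    have e1 : fderiv ℝ (fun z => famB Φ Λ (t, z)) z v =
        (1 - t) • fderiv ℝ (AvP Φ (sm 2)) z v + t • ΛR v := by
      have g1 : HasFDerivAt (AvP Φ (sm 2)) (fderiv ℝ (AvP Φ (sm 2)) z) z :=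
        (lift_diff hl hz0).hasFDerivAt
      have g2 : HasFDerivAt (fun z : W 2 => Λ z) (ΛR : W 2 →L[ℝ] W 2) z := by
        have e : (fun z : W 2 => Λ z) = fun z => ΛR z := funext fun z => (hΛ z).symm
        rw [e]
        exact ΛR.hasFDerivAt
      have g3 : HasFDerivAt (fun z => famB Φ Λ (t, z))
          ((1 - t) • fderiv ℝ (AvP Φ (sm 2)) z + t • (ΛR : W 2 →L[ℝ] W 2)) z :=
        (g1.const_smul (1 - t)).add (g2.const_smul t)
      rw [g3.fderiv]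
      rfl
    rw [e1, map_add, map_smul, map_smul]
    have e2 : (1 - t) • N (fderiv ℝ (AvP Φ (sm 2)) z v) + t • N (ΛR v) - v =
        (1 - t) • (N (fderiv ℝ (AvP Φ (sm 2)) z v) - v) + t • (N (ΛR v) - v) := by
      module
    rw [e2]
    refine (norm_add_le _ _).trans ?_
    rw [norm_smul, norm_smul, Real.norm_of_nonneg ht.1, Real.norm_of_nonneg (by linarith [ht.2])]
    have g1 := h2 z hz hz0 v
    have g2 := h1 v
    have g3 : (1 - t) * ‖N (fderiv ℝ (AvP Φ (sm 2)) z v) - v‖ ≤ (1 - t) * (1 / 4 * ‖v‖) :=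
      mul_le_mul_of_nonneg_left g1 (by linarith [ht.2])
    have g4 : t * ‖N (ΛR v) - v‖ ≤ t * (1 / 4 * ‖v‖) := mul_le_mul_of_nonneg_left g2 ht.1
    nlinarith
  refine ⟨hsm, hhom, fun t ht z hz w hw he => ?_, fun t ht z hz hz0 v hv => ?_⟩
  · refine near_inj (hlift t) (N := N) (fun x hx hx0 u => ?_) z hz w hw he
    have := hder t ht x hx hx0 u
    linarith [norm_nonneg u]
  · exact near_der (by norm_num) (hder t ht z hz hz0 v) hv

theorem planeGapT : ∃ ε : ℝ, 0 < ε ∧ ∀ F : Mat 2 → Mat 2, InjOn F (CP 2) → ∀ Φ : W 2 → W 2,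
    HLoc Φ → ∀ T : W 2 ≃ₗ[ℂ] W 2, enL (fun z => Φ (T z)) ≤ ENNReal.ofReal ε →
    (∀ z : W 2, z ≠ 0 → F (pt z) = pt (Φ z)) → ∃ B, PJ.BallDiff B ∧ Isotopic 2 F B := by
  obtain ⟨ε, hε, hgood⟩ := avGood
  refine ⟨ε, hε, fun F hFi Φ₀ hΦ₀ T hen hF => ?_⟩
  have hinj₀ : Function.Injective Φ₀ := lift_injective hΦ₀ hF hFi
  have c0 : Conn Φ₀ fun z => Φ₀ (T z) := PJ.conn_T_right hΦ₀ T
  obtain ⟨Φ, hΦd⟩ : ∃ Φ : W 2 → W 2, Φ = fun z => Φ₀ (T z) := ⟨_, rfl⟩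
  rw [← hΦd] at c0 hen
  have hΦ : HLoc Φ := hloc_of_conn c0
  have hinj : Function.Injective Φ := conn_inj c0 hinj₀
  have hA := hgood Φ hΦ hen
  obtain ⟨Λ, ΛR, N, hΛ, hN1, hN2⟩ := hA.lin
  obtain ⟨G₁, δ₁, hδ₁, hG₁, hE₁⟩ := (famP_A hΦ hinj hA).iso
  obtain ⟨G₂, δ₂, hδ₂, hG₂, hE₂⟩ := (famP_B hΦ hΛ hN1 hN2).iso
  have e1 : ∀ z ∈ PJ.tube δ₁, G₁ (Φ z) = AvP Φ (sm 2) z := by
    intro z hz
    have h1 := hE₁ z hz
    unfold famA at h1
    simp only [Real.smoothTransition.zero, mul_zero, Real.smoothTransition.one, mul_one] at h1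
    rw [avP_zero] at h1
    exact h1
  have e2 : ∀ z ∈ PJ.tube δ₂, G₂ (AvP Φ (sm 2) z) = Λ z := by
    intro z hz
    have h1 := hE₂ z hz
    unfold famB at h1
    simp only [sub_zero, one_smul, zero_smul, add_zero, sub_self, zero_add] at h1
    exact h1
  have c1 : Conn Φ fun z => G₁ (Φ z) := by
    have h4 := conn_comp_right hG₁ hΦ
    exact h4
  have l1 : HLoc fun z => G₁ (Φ z) := hloc_of_conn c1
  have c2 : Conn (fun z => G₁ (Φ z)) fun z => G₂ (G₁ (Φ z)) := by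
    have h4 := conn_comp_right hG₂ l1
    exact h4
  have l2 : HLoc fun z => G₂ (G₁ (Φ z)) := hloc_of_conn c2
  have c3 := PJ.conn_T_left l2 Λ.symm
  refine PJ.rel_of (F₁ := id) (F₂ := F) PJ.hloc_id hΦ₀ Function.injective_id hinj₀
    (Conn.refl PJ.hloc_id) (c0.trans (c1.trans c2)) c3 (δ := min δ₁ δ₂) (lt_min hδ₁ hδ₂) ?_
    (fun _ _ => rfl) hF
  intro z hz
  show Λ.symm (G₂ (G₁ (Φ z))) = z
  rw [e1 z (PJ.tube_mono (min_le_left _ _) hz), e2 z (PJ.tube_mono (min_le_right _ _) hz),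
    LinearEquiv.symm_apply_apply]

end Pool.Agent.Lib.PQ
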