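import Pool.Agent.Lib.PQ.Slice

set_option autoImplicit false

/-!
# `GoodP` at all points of the plane
-/

open MeasureTheory Set Metric
open scoped ENNReal ContDiff

namespace Pool.Agent.Lib.PQ

open Pool.Agent.P28b04d Pool.Agent.Lib.P28e

variable {Φ : W 2 → W 2}

/-- The extension of a map of the plane, linear. -/
noncomputable def extL (T : W 1 ≃L[ℝ] W 1) : W 2 ≃ₗ[ℝ] W 2 where
  toFun z := Fin.cons (z 0) (T (Fin.tail z))
  map_add' x y := by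
    have e : (Fin.tail (x + y) : W 1) = (Fin.tail x : W 1) + (Fin.tail y : W 1) := rfl
    rw [e, map_add]
    ext i
    refine Fin.cases ?_ (fun j => ?_) i
    · simp
    · simp
  map_smul' r x := by
    have e : (Fin.tail (r • x) : W 1) = r • (Fin.tail x : W 1) := rfl
    rw [e, map_smul]
    ext i
    refine Fin.cases ?_ (fun j => ?_) i
    · simp
    · simp
  invFun z := Fin.cons (z 0) (T.symm (Fin.tail z))
  left_inv z := by simp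
  right_inv z := by simp

/-- The extension of a map of the plane. -/
noncomputable def extT (T : W 1 ≃L[ℝ] W 1) : W 2 ≃L[ℝ] W 2 := (extL T).toContinuousLinearEquiv

theorem extT_apply (T : W 1 ≃L[ℝ] W 1) (z : W 2) : extT T z = Fin.cons (z 0) (T (Fin.tail z)) := rfl

theorem extT_symm_apply (T : W 1 ≃L[ℝ] W 1) (z : W 2) :
    (extT T).symm z = Fin.cons (z 0) (T.symm (Fin.tail z)) := rfl

theorem extT_em (T : W 1 ≃L[ℝ] W 1) (q : W 1) : extT T (em q) = em (T q) := by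
  rw [extT_apply, em_apply, em_apply]
  simp

theorem norm_cons_le {a : ℂ} {q : W 1} {r : ℝ} (hr : 0 ≤ r) (h1 : ‖a‖ ≤ r) (h2 : ‖q‖ ≤ r) :
    ‖(Fin.cons a q : W 2)‖ ≤ r := by
  rw [pi_norm_le_iff_of_nonneg hr]
  intro i
  refine Fin.cases ?_ (fun j => ?_) i
  · simpa using h1
  · simpa using (norm_le_pi_norm q j).trans h2

theorem norm_tail_le (z : W 2) : ‖(Fin.tail z : W 1)‖ ≤ ‖z‖ := by
  rw [pi_norm_le_iff_of_nonneg (norm_nonneg _)]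
  intro j
  exact norm_le_pi_norm z j.succ

theorem extT_le {T : W 1 ≃L[ℝ] W 1} (h : ∀ x, ‖T x‖ ≤ ‖x‖) (z : W 2) : ‖extT T z‖ ≤ ‖z‖ := by
  rw [extT_apply]
  exact norm_cons_le (norm_nonneg _) (norm_le_pi_norm z 0) ((h _).trans (norm_tail_le z))

theorem extT_symm_le {T : W 1 ≃L[ℝ] W 1} (h : ∀ w, ‖T.symm w‖ ≤ 4 * ‖w‖) (z : W 2) :
    ‖(extT T).symm z‖ ≤ 4 * ‖z‖ := by
  rw [extT_symm_apply]
  refine norm_cons_le (by positivity) ?_ ((h _).trans ?_)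
  · have := norm_le_pi_norm z 0
    have := norm_nonneg z
    linarith
  · have := norm_tail_le z
    linarith

theorem extT_smul {T : W 1 ≃L[ℝ] W 1} (hT : ∀ (c : ℂ) (x : W 1), T (c • x) = c • T x) (c : ℂ)
    (z : W 2) : extT T (c • z) = c • extT T z := by
  rw [extT_apply, extT_apply]
  have e : (Fin.tail (c • z) : W 1) = c • (Fin.tail z : W 1) := rfl
  rw [e, hT]
  ext i
  refine Fin.cases ?_ (fun j => ?_) i
  · simp
  · simp

theorem energy_compP (h : HLoc Φ) {T : W 1 ≃L[ℝ] W 1} (h1 : ∀ x, ‖T x‖ ≤ ‖x‖)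
    (h2 : ∀ w, ‖T.symm w‖ ≤ 4 * ‖w‖) :
    enL (Φ ∘ extT T) ≤ (4 : ℝ≥0∞) ^ 6 * enL Φ := by
  have hae : ∀ᵐ x ∂(volume.restrict (ball (0 : W 1) 1)), x ≠ 0 := by
    apply ae_restrict_of_ae
    exact (measure_eq_zero_iff_ae_notMem).1 (measure_singleton (0 : W 1))
  have step1 : enL (Φ ∘ extT T) ≤
      ∫⁻ x in ball (0 : W 1) 1, (4 : ℝ≥0∞) ^ 2 * ‖conn Φ (em (T x))‖ₑ ^ 2 := by
    unfold enL
    refine lintegral_mono_ae ?_
    filter_upwards [hae] with x hx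
    rw [← mul_pow]
    refine pow_le_pow_left' ?_ _
    have := GoodAllAux.norm_conn_comp h (extT_le h1) (extT_symm_le h2) (em_ne hx)
    rw [extT_em] at this
    rw [← ofReal_norm, ← ofReal_norm]
    have e4 : (4 : ℝ≥0∞) = ENNReal.ofReal 4 := by norm_num
    rw [e4, ← ENNReal.ofReal_mul (by norm_num)]
    exact ENNReal.ofReal_le_ofReal this
  rw [lintegral_const_mul' _ _ (by simp)] at step1
  have step2 : GoodAllAux.vf T * ∫⁻ x in ball (0 : W 1) 1, ‖conn Φ (em (T x))‖ₑ ^ 2 ≤ enL Φ := by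
    rw [← GoodAllAux.cov T measurableSet_ball (fun w => ‖conn Φ (em w)‖ₑ ^ 2)]
    unfold enL
    apply lintegral_mono_set
    rintro _ ⟨x, hx, rfl⟩
    rw [mem_ball_zero_iff] at hx ⊢
    exact (h1 x).trans_lt hx
  have step3 : ∫⁻ x in ball (0 : W 1) 1, ‖conn Φ (em (T x))‖ₑ ^ 2 ≤
      (4 : ℝ≥0∞) ^ 4 * enL Φ := by
    calc ∫⁻ x in ball (0 : W 1) 1, ‖conn Φ (em (T x))‖ₑ ^ 2
        = 1 * ∫⁻ x in ball (0 : W 1) 1, ‖conn Φ (em (T x))‖ₑ ^ 2 := (one_mul _).symm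
      _ ≤ ((4 : ℝ≥0∞) ^ 4 * GoodAllAux.vf T) *
          ∫⁻ x in ball (0 : W 1) 1, ‖conn Φ (em (T x))‖ₑ ^ 2 := by
          gcongr
          exact GoodAllAux.le_vf T h2
      _ = (4 : ℝ≥0∞) ^ 4 *
          (GoodAllAux.vf T * ∫⁻ x in ball (0 : W 1) 1, ‖conn Φ (em (T x))‖ₑ ^ 2) := mul_assoc _ _ _
      _ ≤ (4 : ℝ≥0∞) ^ 4 * enL Φ := by gcongr
  calc enL (Φ ∘ extT T) ≤ (4 : ℝ≥0∞) ^ 2 * ((4 : ℝ≥0∞) ^ 4 * enL Φ) :=
        step1.trans (by gcongr)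
    _ = (4 : ℝ≥0∞) ^ 6 * enL Φ := by
        rw [← mul_assoc, ← pow_add]

/-- `GoodP` for `Φ ∘ T` at `e0` gives `GoodP` for `Φ` at `T e0`. -/
theorem goodP_of_comp (h : HLoc Φ) {T : W 1 ≃L[ℝ] W 1} (h1 : ∀ x, ‖T x‖ ≤ ‖x‖)
    (h2 : ∀ w, ‖T.symm w‖ ≤ 4 * ‖w‖) {z' : W 1} (hz : T (e0 1) = z') {ρ ε : ℝ}
    (hρ : 0 < ρ) (hρ' : ρ < ‖z'‖) (hε : 0 ≤ ε) {M' : (EndW 2)ˣ}
    (hM : GoodP (Φ ∘ extT T) (e0 1) (4 * ρ) ε M') :
    GoodP Φ z' ρ (4 * 4 ^ 4 * ε) (M' * (extT T).toUnit⁻¹) := by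
  unfold GoodP at hM ⊢
  have hsub : closedBall z' ρ ⊆ T '' closedBall (e0 1) (4 * ρ) := by
    intro w hw
    refine ⟨T.symm w, ?_, T.apply_symm_apply w⟩
    rw [mem_closedBall, dist_eq_norm] at hw ⊢
    have e1 : T.symm w - e0 1 = T.symm (w - z') := by
      rw [map_sub, ← hz, T.symm_apply_apply]
    rw [e1]
    have := h2 (w - z')
    linarith
  -- the set in the source
  obtain ⟨s, hs⟩ : ∃ s : Set (W 1), s = T ⁻¹' closedBall z' ρ := ⟨_, rfl⟩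
  have hsm : MeasurableSet s := by
    rw [hs]
    exact measurableSet_closedBall.preimage T.continuous.measurable
  have hTs : T '' s = closedBall z' ρ := by
    rw [hs]
    exact image_preimage_eq _ T.surjective
  have hss : s ⊆ closedBall (e0 1) (4 * ρ) := by
    intro x hx
    rw [hs] at hx
    obtain ⟨y, hy, hxy⟩ := hsub hx
    rw [← T.injective hxy]; exact hy
  have hs0 : ∀ x ∈ s, x ≠ 0 := by
    rintro x hx rfl
    rw [hs, mem_preimage, map_zero, mem_closedBall, dist_eq_norm, zero_sub, norm_neg] at hx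
    linarith
  rw [← hTs, GoodAllAux.cov T hsm]
  have key : ∀ x ∈ s, ‖(↑(M' * (extT T).toUnit⁻¹)⁻¹ : EndW 2) * fderiv ℝ Φ (em (T x)) - 1‖ₑ ≤
      4 * ‖(↑M'⁻¹ : EndW 2) * fderiv ℝ (Φ ∘ extT T) (em x) - 1‖ₑ := by
    intro x hx
    have e1 : (↑(M' * (extT T).toUnit⁻¹)⁻¹ : EndW 2) * fderiv ℝ Φ (em (T x)) - 1 =
        (extT T : EndW 2) * ((↑M'⁻¹ : EndW 2) * fderiv ℝ (Φ ∘ extT T) (em x) - 1) *
          ((extT T).symm : EndW 2) := by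
      rw [GoodAllAux.fderiv_comp_T h (extT T) (em_ne (hs0 x hx)), mul_inv_rev, inv_inv,
        Units.val_mul, extT_em]
      have e2 : (((extT T).toUnit : (EndW 2)ˣ) : EndW 2) = (extT T : EndW 2) := rfl
      have e3 : (extT T : EndW 2) * ((extT T).symm : EndW 2) = 1 := by
        ext v : 1
        exact (extT T).apply_symm_apply v
      rw [e2, mul_sub, sub_mul, mul_one, e3]
      congr 1
      rw [mul_assoc, mul_assoc, mul_assoc, mul_assoc, e3, mul_one]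
    rw [e1]
    have h3 : ‖(extT T : EndW 2) * ((↑M'⁻¹ : EndW 2) * fderiv ℝ (Φ ∘ extT T) (em x) - 1) *
        ((extT T).symm : EndW 2)‖ ≤
        4 * ‖(↑M'⁻¹ : EndW 2) * fderiv ℝ (Φ ∘ extT T) (em x) - 1‖ := by
      calc _ ≤ ‖(extT T : EndW 2) * ((↑M'⁻¹ : EndW 2) * fderiv ℝ (Φ ∘ extT T) (em x) - 1)‖ *
            ‖((extT T).symm : EndW 2)‖ := norm_mul_le _ _
        _ ≤ ‖(extT T : EndW 2)‖ * ‖(↑M'⁻¹ : EndW 2) * fderiv ℝ (Φ ∘ extT T) (em x) - 1‖ *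
            ‖((extT T).symm : EndW 2)‖ := by gcongr; exact norm_mul_le _ _
        _ ≤ 1 * ‖(↑M'⁻¹ : EndW 2) * fderiv ℝ (Φ ∘ extT T) (em x) - 1‖ * 4 := by
            gcongr
            · exact GoodAllAux.norm_T_le (extT_le h1)
            · exact GoodAllAux.norm_Tsymm_le (extT_symm_le h2)
        _ = _ := by ring
    rw [← ofReal_norm, ← ofReal_norm]
    have e4 : (4 : ℝ≥0∞) = ENNReal.ofReal 4 := by norm_num
    rw [e4, ← ENNReal.ofReal_mul (by norm_num)]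
    exact ENNReal.ofReal_le_ofReal h3
  have e0ne : (0 : ℝ) ≤ 4 * ρ := by linarith
  have hvol : volume (closedBall (e0 1) (4 * ρ)) =
      ENNReal.ofReal (4 ^ 4) * volume (closedBall z' ρ) := by
    have e1 : volume (closedBall (e0 1) (4 * ρ)) = ENNReal.ofReal ((4 * ρ) ^ 4) *
        volume (closedBall (0 : W 1) 1) := vol_ball_W 1 _ e0ne
    have e2 : volume (closedBall z' ρ) = ENNReal.ofReal (ρ ^ 4) *
        volume (closedBall (0 : W 1) 1) := vol_ball_W 1 _ hρ.le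
    rw [e1, e2, ← mul_assoc, ← ENNReal.ofReal_mul (by positivity), ← mul_pow]
  rw [hTs]
  calc GoodAllAux.vf T * ∫⁻ x in s, ‖(↑(M' * (extT T).toUnit⁻¹)⁻¹ : EndW 2) *
        fderiv ℝ Φ (em (T x)) - 1‖ₑ
      ≤ 1 * ∫⁻ x in s, 4 * ‖(↑M'⁻¹ : EndW 2) * fderiv ℝ (Φ ∘ extT T) (em x) - 1‖ₑ := by
        gcongr ?_ * ?_
        · exact GoodAllAux.vf_le T h1
        · exact setLIntegral_mono' hsm key
    _ = 4 * ∫⁻ x in s, ‖(↑M'⁻¹ : EndW 2) * fderiv ℝ (Φ ∘ extT T) (em x) - 1‖ₑ := by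
        rw [one_mul, lintegral_const_mul' _ _ (by simp)]
    _ ≤ 4 * ∫⁻ x in closedBall (e0 1) (4 * ρ),
          ‖(↑M'⁻¹ : EndW 2) * fderiv ℝ (Φ ∘ extT T) (em x) - 1‖ₑ := by
        gcongr
    _ ≤ 4 * (ENNReal.ofReal ε * volume (closedBall (e0 1) (4 * ρ))) := by gcongr
    _ = ENNReal.ofReal (4 * 4 ^ 4 * ε) * volume (closedBall z' ρ) := by
        rw [hvol]
        have e4 : (4 : ℝ≥0∞) = ENNReal.ofReal 4 := by norm_num
        rw [e4, ← mul_assoc, ← mul_assoc, ← ENNReal.ofReal_mul (by norm_num),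
          ← ENNReal.ofReal_mul (by positivity)]
        congr 2
        ring

/-- `GoodP` is invariant under positive scaling. -/
theorem goodP_smul (h : HLoc Φ) {r : ℝ} (hr : 0 < r) {z : W 1} {ρ : ℝ}
    (hρz : ρ < ‖z‖) {ε : ℝ} {M : (EndW 2)ˣ} : GoodP Φ (r • z) (r * ρ) ε M ↔ GoodP Φ z ρ ε M := by
  have hr' : (r : ℂ) ≠ 0 := by exact_mod_cast hr.ne'
  have h1 := Hom46.ball_iff hr' (measurable_fderiv_subP h (↑M⁻¹ : EndW 2)) z ρ (ENNReal.ofReal ε)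
  have h2 : ‖(r : ℂ)‖ = r := by rw [Complex.norm_real, Real.norm_eq_abs, abs_of_pos hr]
  rw [h2, ← Hom46.smul_real] at h1
  unfold GoodP
  rw [h1]
  have h3 : ∫⁻ y in closedBall z ρ, ‖(↑M⁻¹ : EndW 2) * fderiv ℝ Φ (em ((r : ℂ) • y)) - 1‖ₑ =
      ∫⁻ y in closedBall z ρ, ‖(↑M⁻¹ : EndW 2) * fderiv ℝ Φ (em y) - 1‖ₑ := by
    apply setLIntegral_congr_fun measurableSet_closedBall
    intro y hy
    have hy0 : y ≠ 0 := Hom46.ne_zero_of_mem hρz hy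
    show ‖(↑M⁻¹ : EndW 2) * fderiv ℝ Φ (em ((r : ℂ) • y)) - 1‖ₑ = _
    rw [em_smul, ← Hom46.smul_real, fderiv_pos_smul h hr (em_ne hy0)]
  rw [h3]

theorem good_allP : ∀ ε : ℝ, 0 < ε → ∃ δ : ℝ, 0 < δ ∧ ∀ Φ : W 2 → W 2,
    HLoc Φ → enL Φ ≤ ENNReal.ofReal δ → ∀ z : W 1, z ≠ 0 → ∀ ρ : ℝ, 0 < ρ → ρ ≤ ‖z‖ / 8 →
      ∃ M : (EndW 2)ˣ, GoodP Φ z ρ ε M := by
  intro ε hε
  obtain ⟨δ', hδ', hgood⟩ := good_e0P (ε / (4 * 4 ^ 4)) (by positivity)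
  refine ⟨δ' / 4 ^ 6, by positivity, ?_⟩
  intro Φ hΦ hen z hz ρ hρ hρz
  have hnz : 0 < ‖z‖ := norm_pos_iff.2 hz
  obtain ⟨z', hz'⟩ : ∃ z' : W 1, z' = (2 * ‖z‖)⁻¹ • z := ⟨_, rfl⟩
  have hz'n : ‖z'‖ = 1 / 2 := by
    rw [hz', norm_smul, norm_inv, Real.norm_eq_abs, abs_of_pos (by positivity)]
    field_simp
  obtain ⟨T, hTc, hTe, hT1, hT2⟩ := GoodAllAux.exists_T hz'n
  have hΨ : HLoc (Φ ∘ extT T) := HLoc.comp hΦ (GoodAllAux.hloc_T (extT T) (extT_smul hTc))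
  have hen' : enL (Φ ∘ extT T) ≤ ENNReal.ofReal δ' := by
    refine (energy_compP hΦ hT1 hT2).trans ?_
    calc (4 : ℝ≥0∞) ^ 6 * enL Φ
        ≤ (4 : ℝ≥0∞) ^ 6 * ENNReal.ofReal (δ' / 4 ^ 6) := by gcongr
      _ = ENNReal.ofReal δ' := by
          have e4 : (4 : ℝ≥0∞) = ENNReal.ofReal 4 := by norm_num
          rw [e4, ← ENNReal.ofReal_pow (by norm_num), ← ENNReal.ofReal_mul (by positivity)]
          congr 1
          field_simp
  obtain ⟨ρ', hρ'⟩ : ∃ ρ' : ℝ, ρ' = ρ / (2 * ‖z‖) := ⟨_, rfl⟩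
  have hρ'0 : 0 < ρ' := by rw [hρ']; positivity
  have hρ'1 : ρ' ≤ 1 / 16 := by
    rw [hρ', div_le_iff₀ (by positivity)]
    linarith
  obtain ⟨M', hM'⟩ := hgood (Φ ∘ extT T) hΨ hen' (4 * ρ') (by positivity) (by linarith)
  have hg := goodP_of_comp hΦ hT1 hT2 hTe hρ'0 (by rw [hz'n]; linarith) (by positivity) hM'
  have e1 : 4 * 4 ^ 4 * (ε / (4 * 4 ^ 4)) = ε := by field_simp
  rw [e1] at hg
  refine ⟨M' * (extT T).toUnit⁻¹, ?_⟩
  have h2 := (goodP_smul hΦ (r := 2 * ‖z‖) (by positivity) (by rw [hz'n]; linarith)).2 hg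
  have e2 : (2 * ‖z‖) • z' = z := by
    rw [hz', smul_smul, mul_inv_cancel₀ (by positivity), one_smul]
  have e3 : 2 * ‖z‖ * ρ' = ρ := by
    rw [hρ']; field_simp
  rw [e2, e3] at h2
  exact h2

end Pool.Agent.Lib.PQ
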