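import Pool.Agent.Lib.PQ.Defs
import Pool.Agent.Lib.PJ.Line

set_option autoImplicit false

/-!
# Every lift of small quadratic energy has small quadratic energy on a plane
-/

open MeasureTheory Set Metric Filter
open scoped ContDiff Topology ENNReal

namespace Pool.Agent.Lib.PQ

open Pool.Agent.P28b04d Pool.Agent.Lib.P28e
open Pool.Agent.Lib.PJ (cp cp_ne sw sw_ne sh sw_sw norm_sw norm_conn_sw norm_conn_sh_le hloc_sw hloc_sh
  continuous_cp chartE pick enP enP_sw sh_cp sh_sw_cp mp_unit norm_cp_zero)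

variable {Φ : W 2 → W 2}

/-- The change of variables `x ↦ c x` on `ℂ`. -/
theorem lint_scale1 {c : ℂ} (hc : c ≠ 0) {F : ℂ → ℝ≥0∞} (hF : Measurable F) :
    ∫⁻ x, F x = ENNReal.ofReal (‖c‖ ^ 2) * ∫⁻ x : ℂ, F (c * x) := by
  have hc0 : 0 < ‖c‖ := norm_pos_iff.2 hc
  obtain ⟨u, hu⟩ : ∃ u : ℂ, u = c / (‖c‖ : ℝ) := ⟨_, rfl⟩
  have hu1 : ‖u‖ = 1 := by
    rw [hu, norm_div, Complex.norm_real, norm_norm, div_self hc0.ne']
  have hcu : c = (‖c‖ : ℝ) * u := by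
    rw [hu, mul_div_cancel₀]
    exact_mod_cast hc0.ne'
  have e1 : ∫⁻ x : ℂ, F (c * x) = ∫⁻ x : ℂ, F (‖c‖ • x) := by
    have hm : Measurable fun x : ℂ => F (‖c‖ • x) :=
      hF.comp (continuous_const_smul _).measurable
    rw [← (mp_unit hu1).lintegral_comp hm]
    refine lintegral_congr fun x => ?_
    congr 1
    conv_lhs => rw [hcu]
    rw [Complex.real_smul, mul_assoc]
  have h2 : Measure.map (fun x : ℂ => ‖c‖ • x) volume =
      ENNReal.ofReal |(‖c‖ ^ Module.finrank ℝ ℂ)⁻¹| • (volume : Measure ℂ) :=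
    Measure.map_addHaar_smul volume hc0.ne'
  rw [Complex.finrank_real_complex] at h2
  have e2 : ∫⁻ x : ℂ, F (‖c‖ • x) = ENNReal.ofReal |(‖c‖ ^ 2)⁻¹| * ∫⁻ x, F x := by
    rw [← lintegral_map hF (continuous_const_smul _).measurable, h2, lintegral_smul_measure,
      smul_eq_mul]
  rw [e1, e2, ← mul_assoc, ← ENNReal.ofReal_mul (by positivity), abs_of_pos (by positivity),
    mul_inv_cancel₀ (by positivity), ENNReal.ofReal_one, one_mul]

/-- The function `(a, b) ↦ |conn Φ (0, a, b)|²`. -/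
noncomputable def cq (Φ : W 2 → W 2) (q : ℂ × ℂ) : ℝ≥0∞ := ‖conn Φ (![0, q.1, q.2] : W 2)‖ₑ ^ 2

theorem continuous_vec : Continuous fun q : ℂ × ℂ => (![0, q.1, q.2] : W 2) := by
  refine continuous_pi fun k => ?_
  fin_cases k
  · exact continuous_const
  · exact continuous_fst
  · exact continuous_snd

theorem measurable_cq (h : HLoc Φ) : Measurable (cq Φ) :=
  ((measurable_conn h).comp continuous_vec.measurable).pow_const _

/-- The sector `|b| ≤ |a| < 1`. -/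
def sec : Set (ℂ × ℂ) := {q | ‖q.1‖ < 1 ∧ ‖q.2‖ ≤ ‖q.1‖}

theorem measurableSet_sec : MeasurableSet sec := by
  have h1 : MeasurableSet {q : ℂ × ℂ | ‖q.1‖ < 1} := measurableSet_lt (by fun_prop) (by fun_prop)
  have h2 : MeasurableSet {q : ℂ × ℂ | ‖q.2‖ ≤ ‖q.1‖} := measurableSet_le (by fun_prop) (by fun_prop)
  exact h1.inter h2

theorem sector (h : HLoc Φ) : ∫⁻ q : ℂ × ℂ, sec.indicator (cq Φ) q ≤
    volume (ball (0 : ℂ) 1) * ∫⁻ ζ in closedBall (0 : ℂ) 1, ‖conn Φ (cp 0 ζ)‖ₑ ^ 2 := by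
  have hm : Measurable (sec.indicator (cq Φ)) := (measurable_cq h).indicator measurableSet_sec
  obtain ⟨I, hI⟩ : ∃ I : ℝ≥0∞, I = ∫⁻ ζ in closedBall (0 : ℂ) 1, ‖conn Φ (cp 0 ζ)‖ₑ ^ 2 := ⟨_, rfl⟩
  rw [← hI, Measure.volume_eq_prod, lintegral_prod _ hm.aemeasurable]
  calc ∫⁻ a : ℂ, ∫⁻ b : ℂ, sec.indicator (cq Φ) (a, b)
      ≤ ∫⁻ a : ℂ, (ball (0 : ℂ) 1).indicator (fun _ => I) a := by
        refine lintegral_mono_ae ?_
        filter_upwards [Measure.ae_ne volume (0 : ℂ)] with a ha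
        have ha0 : 0 < ‖a‖ := norm_pos_iff.2 ha
        by_cases ha1 : ‖a‖ < 1
        · rw [indicator_of_mem (by rwa [mem_ball_zero_iff])]
          have hm2 : Measurable fun b : ℂ => sec.indicator (cq Φ) (a, b) :=
            hm.comp measurable_prodMk_left
          rw [lint_scale1 ha hm2, hI, ← lintegral_indicator measurableSet_closedBall,
            ← lintegral_const_mul' _ _ ENNReal.ofReal_ne_top]
          refine lintegral_mono fun ζ => ?_
          show ENNReal.ofReal (‖a‖ ^ 2) * sec.indicator (cq Φ) (a, a * ζ) ≤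
            (closedBall (0 : ℂ) 1).indicator (fun ζ => ‖conn Φ (cp 0 ζ)‖ₑ ^ 2) ζ
          by_cases hζ : ζ ∈ closedBall (0 : ℂ) 1
          · rw [indicator_of_mem hζ]
            rw [mem_closedBall_zero_iff] at hζ
            have hmem : (a, a * ζ) ∈ sec := ⟨ha1, by
              show ‖a * ζ‖ ≤ ‖a‖
              rw [norm_mul]
              nlinarith⟩
            rw [indicator_of_mem hmem]
            unfold cq
            have e1 : (![0, (a, a * ζ).1, (a, a * ζ).2] : W 2) = a • cp 0 ζ := by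
              ext k
              fin_cases k
              · simp [cp]
              · simp [cp]
              · simp [cp]
            rw [e1]
            have e2 : ‖conn Φ (a • cp 0 ζ)‖ₑ = ENNReal.ofReal ‖a‖⁻¹ * ‖conn Φ (cp 0 ζ)‖ₑ := by
              rw [← ofReal_norm (conn Φ (a • cp 0 ζ)), conn_smul h ha (cp_ne 0 ζ),
                ENNReal.ofReal_mul (by positivity), ofReal_norm (conn Φ (cp 0 ζ))]
            rw [e2, mul_pow, ← mul_assoc, ← ENNReal.ofReal_pow (by positivity),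
              ← ENNReal.ofReal_mul (by positivity)]
            have e3 : ‖a‖ ^ 2 * ‖a‖⁻¹ ^ 2 = 1 := by
              rw [← mul_pow, mul_inv_cancel₀ ha0.ne', one_pow]
            rw [e3, ENNReal.ofReal_one, one_mul]
          · rw [indicator_of_notMem hζ]
            rw [mem_closedBall_zero_iff, not_le] at hζ
            have hmem : (a, a * ζ) ∉ sec := by
              rintro ⟨-, h2⟩
              have h3 : ‖a * ζ‖ ≤ ‖a‖ := h2
              rw [norm_mul] at h3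
              nlinarith
            rw [indicator_of_notMem hmem, mul_zero]
        · have e : (fun b : ℂ => sec.indicator (cq Φ) (a, b)) = fun _ => 0 := by
            funext b
            exact indicator_of_notMem (fun h => ha1 h.1) _
          rw [e, lintegral_zero]
          exact zero_le
    _ = volume (ball (0 : ℂ) 1) * I := by
        rw [lintegral_indicator measurableSet_ball, setLIntegral_const, mul_comm]

theorem cq_sw (h : HLoc Φ) {q : ℂ × ℂ} (hq : (![0, q.1, q.2] : W 2) ≠ 0) :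
    cq (fun z => Φ (sw z)) q = cq Φ q.swap := by
  unfold cq
  have e : sw (![0, q.1, q.2] : W 2) = ![0, q.swap.1, q.swap.2] := by
    ext k
    fin_cases k <;> rfl
  rw [← ofReal_norm (conn (fun z => Φ (sw z)) (![0, q.1, q.2] : W 2)), norm_conn_sw h hq, e,
    ofReal_norm (conn Φ (![0, q.swap.1, q.swap.2] : W 2))]

/-- The energy of the plane in the two charts. -/
theorem enL_le (h : HLoc Φ) : enL Φ ≤ volume (ball (0 : ℂ) 1) *
    ((∫⁻ ζ in closedBall (0 : ℂ) 1, ‖conn Φ (cp 0 ζ)‖ₑ ^ 2) +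
      ∫⁻ ζ in closedBall (0 : ℂ) 1, ‖conn (fun z => Φ (sw z)) (cp 0 ζ)‖ₑ ^ 2) := by
  have hsw := hloc_sw h
  have h2 := volume_preserving_finTwoArrow ℂ
  obtain ⟨f, hf⟩ : ∃ f : ℂ × ℂ → ℝ≥0∞, f = ({q : ℂ × ℂ | ‖q.1‖ < 1 ∧ ‖q.2‖ < 1}).indicator (cq Φ) :=
    ⟨_, rfl⟩
  have hS : MeasurableSet {q : ℂ × ℂ | ‖q.1‖ < 1 ∧ ‖q.2‖ < 1} := by
    have h1 : MeasurableSet {q : ℂ × ℂ | ‖q.1‖ < 1} := measurableSet_lt (by fun_prop) (by fun_prop)
    have h2 : MeasurableSet {q : ℂ × ℂ | ‖q.2‖ < 1} := measurableSet_lt (by fun_prop) (by fun_prop)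
    exact h1.inter h2
  have hfm : Measurable f := by
    rw [hf]
    exact (measurable_cq h).indicator hS
  have e1 : enL Φ = ∫⁻ q : ℂ × ℂ, f q := by
    rw [← h2.lintegral_comp hfm]
    unfold enL
    rw [← lintegral_indicator measurableSet_ball]
    refine lintegral_congr fun x => ?_
    have hx : MeasurableEquiv.finTwoArrow x = (x 0, x 1) := rfl
    rw [hx, hf]
    have hem : em x = ![0, x 0, x 1] := by
      ext k
      fin_cases k <;> rfl
    by_cases hmem : x ∈ ball (0 : W 1) 1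
    · rw [indicator_of_mem hmem]
      rw [mem_ball_zero_iff, pi_norm_lt_iff one_pos] at hmem
      have h3 : (x 0, x 1) ∈ {q : ℂ × ℂ | ‖q.1‖ < 1 ∧ ‖q.2‖ < 1} := ⟨hmem 0, hmem 1⟩
      rw [indicator_of_mem h3]
      unfold cq
      rw [hem]
    · rw [indicator_of_notMem hmem]
      have h3 : (x 0, x 1) ∉ {q : ℂ × ℂ | ‖q.1‖ < 1 ∧ ‖q.2‖ < 1} := by
        rintro ⟨h4, h5⟩
        apply hmem
        rw [mem_ball_zero_iff, pi_norm_lt_iff one_pos]
        intro k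
        fin_cases k
        · exact h4
        · exact h5
      rw [indicator_of_notMem h3]
  have hm1 : Measurable (sec.indicator (cq Φ)) := (measurable_cq h).indicator measurableSet_sec
  have hm2 : Measurable (sec.indicator (cq fun z => Φ (sw z))) :=
    (measurable_cq hsw).indicator measurableSet_sec
  have e2 : ∫⁻ q : ℂ × ℂ, f q ≤
      ∫⁻ q : ℂ × ℂ, (sec.indicator (cq Φ) q + sec.indicator (cq fun z => Φ (sw z)) q.swap) := by
    refine lintegral_mono_ae ?_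
    have h0 : ∀ᵐ q : ℂ × ℂ, q ≠ 0 := by
      haveI : (volume : Measure (ℂ × ℂ)).IsAddHaarMeasure := by
        rw [Measure.volume_eq_prod]
        infer_instance
      exact Measure.ae_ne volume (0 : ℂ × ℂ)
    filter_upwards [h0] with q hq
    rw [hf]
    by_cases hmem : q ∈ {q : ℂ × ℂ | ‖q.1‖ < 1 ∧ ‖q.2‖ < 1}
    · rw [indicator_of_mem hmem]
      rcases le_total ‖q.2‖ ‖q.1‖ with hc | hc
      · have h3 : q ∈ sec := ⟨hmem.1, hc⟩
        rw [indicator_of_mem h3]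
        exact le_self_add
      · have h3 : q.swap ∈ sec := ⟨hmem.2, hc⟩
        rw [indicator_of_mem h3]
        have h4 : (![0, q.swap.1, q.swap.2] : W 2) ≠ 0 := by
          intro h5
          apply hq
          have h6 := congrFun h5 1
          have h7 := congrFun h5 2
          exact Prod.ext h7 h6
        rw [cq_sw h h4, Prod.swap_swap]
        exact le_add_self
    · rw [indicator_of_notMem hmem]
      exact zero_le
  rw [e1]
  refine e2.trans ?_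
  rw [lintegral_add_left hm1, mul_add]
  refine add_le_add (sector h) ?_
  have e3 : ∫⁻ q : ℂ × ℂ, sec.indicator (cq fun z => Φ (sw z)) q.swap =
      ∫⁻ q : ℂ × ℂ, sec.indicator (cq fun z => Φ (sw z)) q := by
    have h4 : MeasurePreserving (Prod.swap : ℂ × ℂ → ℂ × ℂ) volume volume :=
      Measure.measurePreserving_swap
    exact h4.lintegral_comp hm2
  rw [e3]
  exact sector hsw

/-- A good plane. -/
theorem exists_plane : ∃ C : ℝ, 0 < C ∧ ∀ Φ : W 2 → W 2, HLoc Φ → ∀ E : ℝ, 0 ≤ E →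
    enP 2 Φ ≤ ENNReal.ofReal E → ∃ b₁ b₂ : ℂ, enL (fun z => Φ (sh b₁ b₂ z)) ≤ ENNReal.ofReal (C * E) := by
  obtain ⟨C₁, hC₁, hch⟩ := chartE (p := 2) (by norm_num)
  obtain ⟨C₂, hC₂, hpk⟩ := pick (s := 0) le_rfl (by norm_num)
  obtain ⟨v, hv⟩ : ∃ v : ℝ, v = (volume (ball (0 : ℂ) 1)).toReal := ⟨_, rfl⟩
  have hvt : volume (ball (0 : ℂ) 1) ≠ ⊤ := measure_ball_lt_top.ne
  have hv0 : 0 < v := by
    rw [hv]
    exact ENNReal.toReal_pos (measure_ball_pos _ _ one_pos).ne' hvt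
  have hvE : volume (ball (0 : ℂ) 1) = ENNReal.ofReal v := by rw [hv, ENNReal.ofReal_toReal hvt]
  refine ⟨v * (2 * (729 * (C₂ * max C₁.toReal 1))), ?_, fun Φ h E hE hen => ?_⟩
  · have h1 : 0 < max C₁.toReal 1 := lt_max_of_lt_right one_pos
    have h2 : 0 < C₂ := by linarith
    positivity
  have hC1' : C₁ ≤ ENNReal.ofReal (max C₁.toReal 1) := by
    calc C₁ = ENNReal.ofReal C₁.toReal := (ENNReal.ofReal_toReal hC₁).symm
      _ ≤ _ := ENNReal.ofReal_le_ofReal (le_max_left _ _)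
  obtain ⟨A, hA⟩ : ∃ A : ℝ, A = max C₁.toReal 1 * E := ⟨_, rfl⟩
  have hA0 : 0 ≤ A := by
    rw [hA]
    positivity
  have hswl := hloc_sw h
  obtain ⟨f, hf⟩ : ∃ f : ℂ × ℂ → ℝ≥0∞, f = fun q => ‖conn Φ (cp q.1 q.2)‖ₑ ^ (2 : ℝ) := ⟨_, rfl⟩
  obtain ⟨g, hg⟩ : ∃ g : ℂ × ℂ → ℝ≥0∞, g = fun q => ‖conn Φ (sw (cp q.1 q.2))‖ₑ ^ (2 : ℝ) := ⟨_, rfl⟩
  have hcsw : Continuous fun q : ℂ × ℂ => sw (cp q.1 q.2) := by
    have e : (fun q : ℂ × ℂ => sw (cp q.1 q.2)) = fun q : ℂ × ℂ => (![q.1, q.2, 1] : W 2) := by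
      funext q
      ext k
      fin_cases k <;> rfl
    rw [e]
    refine continuous_pi fun k => ?_
    fin_cases k
    · exact continuous_fst
    · exact continuous_snd
    · exact continuous_const
  have hfm : Measurable f := by
    rw [hf]
    exact ((measurable_conn h).comp continuous_cp.measurable).pow_const (2 : ℝ)
  have hgm : Measurable g := by
    rw [hg]
    exact ((measurable_conn h).comp hcsw.measurable).pow_const (2 : ℝ)
  have hfA : ∫⁻ q in ball (0 : ℂ) 5 ×ˢ ball (0 : ℂ) 5, f q ≤ ENNReal.ofReal A := by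
    rw [hf, hA, ENNReal.ofReal_mul (by positivity)]
    refine (hch Φ h).trans ?_
    gcongr
  have hgA : ∫⁻ q in ball (0 : ℂ) 5 ×ˢ ball (0 : ℂ) 5, g q ≤ ENNReal.ofReal A := by
    have e : ∀ q : ℂ × ℂ, g q = ‖conn (fun z => Φ (sw z)) (cp q.1 q.2)‖ₑ ^ (2 : ℝ) := by
      intro q
      rw [hg]
      show ‖conn Φ (sw (cp q.1 q.2))‖ₑ ^ (2 : ℝ) = _
      rw [← ofReal_norm (conn (fun z => Φ (sw z)) (cp q.1 q.2)), norm_conn_sw h (cp_ne _ _),
        ofReal_norm (conn Φ (sw (cp q.1 q.2)))]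
    simp only [e]
    rw [hA, ENNReal.ofReal_mul (by positivity)]
    refine (hch _ hswl).trans ?_
    gcongr
    exact (enP_sw h).trans hen
  obtain ⟨b₁, b₂, hb₁, hb₂, i1, -, i3, -⟩ := hpk f g hfm hgm (ENNReal.ofReal A) hfA hgA
  have hshl := hloc_sh h b₁ b₂
  have e27 : (27 : ℝ≥0∞) ^ 2 = ENNReal.ofReal 729 := by norm_num
  -- the pointwise bounds
  have hb1 : ∀ ζ : ℂ, ‖conn (fun z => Φ (sh b₁ b₂ z)) (cp 0 ζ)‖ₑ ^ 2 ≤
      ENNReal.ofReal 729 * f (b₁ + b₂ * ζ, ζ) := by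
    intro ζ
    have e1 := norm_conn_sh_le h hb₁ hb₂ (cp_ne 0 ζ)
    rw [sh_cp, zero_add] at e1
    have e2 : ‖conn (fun z => Φ (sh b₁ b₂ z)) (cp 0 ζ)‖ₑ ≤
        27 * ‖conn Φ (cp (b₁ + b₂ * ζ) ζ)‖ₑ := by
      rw [← ofReal_norm (conn (fun z => Φ (sh b₁ b₂ z)) (cp 0 ζ)),
        ← ofReal_norm (conn Φ (cp (b₁ + b₂ * ζ) ζ))]
      have : (27 : ℝ≥0∞) = ENNReal.ofReal 27 := by norm_num
      rw [this, ← ENNReal.ofReal_mul (by norm_num)]
      exact ENNReal.ofReal_le_ofReal e1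
    calc _ ≤ (27 * ‖conn Φ (cp (b₁ + b₂ * ζ) ζ)‖ₑ) ^ 2 := by gcongr
      _ = _ := by rw [mul_pow, e27, hf]; simp only [ENNReal.rpow_two]
  have hb2 : ∀ ζ : ℂ, ‖conn (fun z => Φ (sh b₁ b₂ (sw z))) (cp 0 ζ)‖ₑ ^ 2 ≤
      ENNReal.ofReal 729 * g (b₂ + b₁ * ζ, ζ) := by
    intro ζ
    have e0 : ‖conn (fun z => Φ (sh b₁ b₂ (sw z))) (cp 0 ζ)‖ =
        ‖conn (fun z => Φ (sh b₁ b₂ z)) (sw (cp 0 ζ))‖ := norm_conn_sw hshl (cp_ne 0 ζ)
    have e1 := norm_conn_sh_le h hb₁ hb₂ (sw_ne (cp_ne 0 ζ))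
    rw [sh_sw_cp, zero_add] at e1
    have e2 : ‖conn (fun z => Φ (sh b₁ b₂ (sw z))) (cp 0 ζ)‖ₑ ≤
        27 * ‖conn Φ (sw (cp (b₂ + b₁ * ζ) ζ))‖ₑ := by
      rw [← ofReal_norm (conn (fun z => Φ (sh b₁ b₂ (sw z))) (cp 0 ζ)),
        ← ofReal_norm (conn Φ (sw (cp (b₂ + b₁ * ζ) ζ)))]
      have : (27 : ℝ≥0∞) = ENNReal.ofReal 27 := by norm_num
      rw [this, ← ENNReal.ofReal_mul (by norm_num)]
      exact ENNReal.ofReal_le_ofReal (e0.le.trans e1)
    calc _ ≤ (27 * ‖conn Φ (sw (cp (b₂ + b₁ * ζ) ζ))‖ₑ) ^ 2 := by gcongr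
      _ = _ := by rw [mul_pow, e27, hg]; simp only [ENNReal.rpow_two]
  have hsub : closedBall (0 : ℂ) 1 ⊆ ball 0 2 := closedBall_subset_ball (by norm_num)
  have j1 : ∫⁻ ζ in closedBall (0 : ℂ) 1, ‖conn (fun z => Φ (sh b₁ b₂ z)) (cp 0 ζ)‖ₑ ^ 2 ≤
      ENNReal.ofReal (729 * (C₂ * A)) := by
    calc ∫⁻ ζ in closedBall (0 : ℂ) 1, ‖conn (fun z => Φ (sh b₁ b₂ z)) (cp 0 ζ)‖ₑ ^ 2
        ≤ ∫⁻ ζ in ball (0 : ℂ) 2, ENNReal.ofReal 729 * f (b₁ + b₂ * ζ, ζ) :=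
          (lintegral_mono_set hsub).trans (lintegral_mono fun ζ => hb1 ζ)
      _ = ENNReal.ofReal 729 * ∫⁻ ζ in ball (0 : ℂ) 2, f (b₁ + b₂ * ζ, ζ) :=
          lintegral_const_mul' _ _ ENNReal.ofReal_ne_top
      _ ≤ ENNReal.ofReal 729 * (ENNReal.ofReal C₂ * ENNReal.ofReal A) := by gcongr
      _ = ENNReal.ofReal (729 * (C₂ * A)) := by
          rw [← ENNReal.ofReal_mul (by linarith), ← ENNReal.ofReal_mul (by norm_num)]
  have j2 : ∫⁻ ζ in closedBall (0 : ℂ) 1, ‖conn (fun z => Φ (sh b₁ b₂ (sw z))) (cp 0 ζ)‖ₑ ^ 2 ≤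
      ENNReal.ofReal (729 * (C₂ * A)) := by
    calc ∫⁻ ζ in closedBall (0 : ℂ) 1, ‖conn (fun z => Φ (sh b₁ b₂ (sw z))) (cp 0 ζ)‖ₑ ^ 2
        ≤ ∫⁻ ζ in ball (0 : ℂ) 2, ENNReal.ofReal 729 * g (b₂ + b₁ * ζ, ζ) :=
          (lintegral_mono_set hsub).trans (lintegral_mono fun ζ => hb2 ζ)
      _ = ENNReal.ofReal 729 * ∫⁻ ζ in ball (0 : ℂ) 2, g (b₂ + b₁ * ζ, ζ) :=
          lintegral_const_mul' _ _ ENNReal.ofReal_ne_top
      _ ≤ ENNReal.ofReal 729 * (ENNReal.ofReal C₂ * ENNReal.ofReal A) := by gcongr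
      _ = ENNReal.ofReal (729 * (C₂ * A)) := by
          rw [← ENNReal.ofReal_mul (by linarith), ← ENNReal.ofReal_mul (by norm_num)]
  refine ⟨b₁, b₂, (enL_le hshl).trans ?_⟩
  have hCA : 0 ≤ 729 * (C₂ * A) := by
    have : 0 ≤ C₂ := by linarith
    positivity
  calc volume (ball (0 : ℂ) 1) *
      ((∫⁻ ζ in closedBall (0 : ℂ) 1, ‖conn (fun z => Φ (sh b₁ b₂ z)) (cp 0 ζ)‖ₑ ^ 2) +
        ∫⁻ ζ in closedBall (0 : ℂ) 1, ‖conn (fun z => Φ (sh b₁ b₂ (sw z))) (cp 0 ζ)‖ₑ ^ 2)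
      ≤ ENNReal.ofReal v * (ENNReal.ofReal (729 * (C₂ * A)) + ENNReal.ofReal (729 * (C₂ * A))) := by
        rw [hvE]
        gcongr
    _ = ENNReal.ofReal (v * (2 * (729 * (C₂ * max C₁.toReal 1))) * E) := by
        rw [← ENNReal.ofReal_add hCA hCA, ← ENNReal.ofReal_mul hv0.le, hA]
        congr 1
        ring

end Pool.Agent.Lib.PQ
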