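import Pool.Agent.Lib.PQ.Fin
import Pool.Agent.Lib.PQ.Plane
import Pool.Agent.Lib.PJ.Stm

set_option autoImplicit false

/-!
# The gap of the quadratic energy and the range of exponents `[2, 6)`
-/

open MeasureTheory Set Metric Filter
open scoped ContDiff Topology ENNReal

namespace Pool.Agent.Lib.PQ

open Pool.Agent.P28b04d Pool.Agent.Lib.P28e Pool.Agent.Lib.P28c Pool.Agent.Lib.P28g
open Pool.Agent.Lib.PJ (enP pE mE exists_of_pE exists_of_mE mE_le injOn_of_isotopic itr BallDiff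
  isotopic_refl pE_le gap_four proper_four)

/-- The gap of the quadratic energy. -/
theorem gap_two : ∃ ε : ℝ, 0 < ε ∧ ∀ F : Mat 2 → Mat 2, InjOn F (CP 2) →
    pE 2 F < ENNReal.ofReal ε → ∃ B, BallDiff B ∧ Isotopic 2 F B := by
  obtain ⟨ε, hε, hgap⟩ := planeGapT
  obtain ⟨C, hC, hpl⟩ := exists_plane
  refine ⟨ε / C, by positivity, fun F hFi hFe => ?_⟩
  obtain ⟨Φ, hΦ, hen, hF⟩ := exists_of_pE hFe
  obtain ⟨b₁, b₂, hb⟩ := hpl Φ hΦ (ε / C) (by positivity) hen.le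
  rw [mul_div_cancel₀ _ hC.ne'] at hb
  exact hgap F hFi Φ hΦ (PJ.shE b₁ b₂) hb hF

theorem gap_mE2 : ∃ ε : ℝ, 0 < ε ∧ ∀ F : Mat 2 → Mat 2,
    mE 2 F < ENNReal.ofReal ε → ∃ B, BallDiff B ∧ Isotopic 2 F B := by
  obtain ⟨ε, hε, h⟩ := gap_two
  refine ⟨ε, hε, fun F hF => ?_⟩
  obtain ⟨G, hG, hGe⟩ := exists_of_mE hF
  obtain ⟨B, hB, hiso⟩ := h G (injOn_of_isotopic hG) hGe
  exact ⟨B, hB, itr hG hiso⟩

/-- Hölder's inequality for the energies. -/
theorem enP_holder {a b : ℝ} (ha : 0 < a) (hab : a < b) {Φ : W 2 → W 2} (h : HLoc Φ) :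
    enP a Φ ≤ enP b Φ ^ (a / b) * volume (ball (0 : W 2) 1) ^ (1 - a / b) := by
  have hb : 0 < b := ha.trans hab
  have hpq : Real.HolderConjugate (b / a) (b / (b - a)) := by
    rw [Real.holderConjugate_iff]
    refine ⟨by rwa [one_lt_div ha], ?_⟩
    rw [inv_div, inv_div, ← add_div, add_sub_cancel, div_self hb.ne']
  have hm : Measurable fun x : W 2 => ‖conn Φ x‖ₑ ^ a := (measurable_conn h).pow_const a
  have h1 := ENNReal.lintegral_mul_le_Lp_mul_Lq (volume.restrict (ball (0 : W 2) 1)) hpq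
    (f := fun x : W 2 => ‖conn Φ x‖ₑ ^ a) (g := fun _ => 1) hm.aemeasurable
    measurable_const.aemeasurable
  simp only [Pi.mul_apply, mul_one, ENNReal.one_rpow, lintegral_const, one_mul,
    Measure.restrict_apply MeasurableSet.univ, univ_inter] at h1
  have e1 : ∀ x : W 2, (‖conn Φ x‖ₑ ^ a) ^ (b / a) = ‖conn Φ x‖ₑ ^ b := fun x => by
    rw [← ENNReal.rpow_mul, mul_div_cancel₀ _ ha.ne']
  simp only [e1] at h1
  rw [one_div_div, one_div_div] at h1
  have e2 : (b - a) / b = 1 - a / b := by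
    rw [sub_div, div_self hb.ne']
  rw [e2] at h1
  exact h1

/-- A small energy with a larger exponent. -/
theorem small_of_small {a b : ℝ} (ha : 0 < a) (hab : a ≤ b) {ε : ℝ} (hε : 0 < ε) :
    ∃ ε' : ℝ, 0 < ε' ∧ ∀ F : Mat 2 → Mat 2, pE b F < ENNReal.ofReal ε' →
      pE a F < ENNReal.ofReal ε := by
  rcases hab.eq_or_lt with rfl | hab
  · exact ⟨ε, hε, fun F h => h⟩
  have hb : 0 < b := ha.trans hab
  have hθ : 0 < a / b := by positivity
  have hVt : volume (ball (0 : W 2) 1) ^ (1 - a / b) ≠ ⊤ :=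
    ENNReal.rpow_ne_top_of_nonneg (by rw [sub_nonneg, div_le_one hb]; exact hab.le)
      measure_ball_lt_top.ne
  obtain ⟨δ, hδ, hδ2⟩ := exists_delta (C := volume (ball (0 : W 2) 1) ^ (1 - a / b))
    (t := ENNReal.ofReal (ε / 2)) hVt (by simpa using half_pos hε)
  refine ⟨δ ^ (b / a), by positivity, fun F hF => ?_⟩
  obtain ⟨Φ, hΦ, hen, hl⟩ := exists_of_pE hF
  have h1 : enP b Φ ^ (a / b) ≤ ENNReal.ofReal δ := by
    calc enP b Φ ^ (a / b) ≤ ENNReal.ofReal (δ ^ (b / a)) ^ (a / b) := by gcongr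
      _ = ENNReal.ofReal δ := by
          rw [ENNReal.ofReal_rpow_of_nonneg (by positivity) hθ.le, ← Real.rpow_mul hδ.le,
            div_mul_div_cancel₀ ha.ne', div_self hb.ne', Real.rpow_one]
  calc pE a F ≤ enP a Φ := pE_le hΦ hl
    _ ≤ enP b Φ ^ (a / b) * volume (ball (0 : W 2) 1) ^ (1 - a / b) := enP_holder ha hab hΦ
    _ ≤ ENNReal.ofReal δ * volume (ball (0 : W 2) 1) ^ (1 - a / b) := by gcongr
    _ = volume (ball (0 : W 2) 1) ^ (1 - a / b) * ENNReal.ofReal δ := mul_comm _ _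
    _ ≤ ENNReal.ofReal (ε / 2) := hδ2
    _ < ENNReal.ofReal ε := by
        rw [ENNReal.ofReal_lt_ofReal_iff hε]
        linarith

/-- A finite energy with a larger exponent. -/
theorem finite_of_finite {a b : ℝ} (ha : 0 < a) (hab : a ≤ b) {E : ℝ≥0∞} (hE : E < ⊤) :
    ∃ E' : ℝ≥0∞, E' < ⊤ ∧ ∀ F : Mat 2 → Mat 2, mE b F ≤ E → mE a F ≤ E' := by
  rcases hab.eq_or_lt with rfl | hab
  · exact ⟨E, hE, fun F h => h⟩
  have hb : 0 < b := ha.trans hab
  have hθ : 0 < a / b := by positivity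
  have hVt : volume (ball (0 : W 2) 1) ^ (1 - a / b) ≠ ⊤ :=
    ENNReal.rpow_ne_top_of_nonneg (by rw [sub_nonneg, div_le_one hb]; exact hab.le)
      measure_ball_lt_top.ne
  have hE1 : E + 1 ≠ ⊤ := by simp [hE.ne]
  refine ⟨(E + 1) ^ (a / b) * volume (ball (0 : W 2) 1) ^ (1 - a / b),
    ENNReal.mul_lt_top (ENNReal.rpow_lt_top_of_nonneg hθ.le hE1) hVt.lt_top, fun F hF => ?_⟩
  obtain ⟨G, hG, hGe⟩ := exists_of_mE (lt_of_le_of_lt hF (ENNReal.lt_add_right hE.ne one_ne_zero))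
  obtain ⟨Φ, hΦ, hen, hl⟩ := exists_of_pE hGe
  calc mE a F ≤ pE a G := mE_le hG
    _ ≤ enP a Φ := pE_le hΦ hl
    _ ≤ enP b Φ ^ (a / b) * volume (ball (0 : W 2) 1) ^ (1 - a / b) := enP_holder ha hab hΦ
    _ ≤ (E + 1) ^ (a / b) * volume (ball (0 : W 2) 1) ^ (1 - a / b) := by gcongr

/-- The gap for all exponents at least two. -/
theorem gap_ge {p : ℝ} (hp : 2 ≤ p) : ∃ ε : ℝ, 0 < ε ∧ ∀ F : Mat 2 → Mat 2,
    mE p F < ENNReal.ofReal ε → ∃ B, BallDiff B ∧ Isotopic 2 F B := by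
  obtain ⟨ε, hε, h⟩ := gap_two
  obtain ⟨ε', hε', h'⟩ := small_of_small two_pos hp hε
  refine ⟨ε', hε', fun F hF => ?_⟩
  obtain ⟨G, hG, hGe⟩ := exists_of_mE hF
  obtain ⟨B, hB, hiso⟩ := h G (injOn_of_isotopic hG) (h' G hGe)
  exact ⟨B, hB, itr hG hiso⟩

/-- The gap for all exponents at least four. -/
theorem gap_ge4 {p : ℝ} (hp : 4 ≤ p) : ∃ ε : ℝ, 0 < ε ∧ ∀ F : Mat 2 → Mat 2, Diffh 2 F →
    mE p F < ENNReal.ofReal ε → IsotopicToId 2 F := by
  obtain ⟨ε, hε, h⟩ := gap_four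
  obtain ⟨ε', hε', h'⟩ := small_of_small (a := 4) (b := p) (by norm_num) hp hε
  refine ⟨ε', hε', fun F hFd hF => ?_⟩
  obtain ⟨G, hG, hGe⟩ := exists_of_mE hF
  exact h F hFd ((mE_le hG).trans_lt (h' G hGe))

/-- Properness for all exponents at least four. -/
theorem proper_ge4 {p : ℝ} (hp : 4 ≤ p) {E : ℝ≥0∞} (hE : E < ⊤) :
    ∃ S : Set (Mat 2 → Mat 2), S.Finite ∧ (∀ G ∈ S, Diffh 2 G) ∧ ∀ F, Diffh 2 F → mE p F ≤ E →
      ∃ G ∈ S, Isotopic 2 F G := by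
  obtain ⟨E', hE', h⟩ := finite_of_finite (a := 4) (b := p) (by norm_num) hp hE
  obtain ⟨S, h1, h2, h3⟩ := proper_four hE'
  exact ⟨S, h1, h2, fun F hF he => h3 F hF (h F he)⟩

/-- Finiteness of the energy of a lift below the exponent six. -/
theorem enP_lt_top {p : ℝ} (hp0 : 0 < p) (hp6 : p < 6) {Φ : W 2 → W 2} (h : HLoc Φ) :
    enP p Φ < ⊤ := by
  obtain ⟨C, hC, hb⟩ := conn_bound h
  obtain ⟨f, hf⟩ : ∃ f : ℝ → ℝ, f = fun y => if y < 1 then y ^ (-p) else 0 := ⟨_, rfl⟩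
  have hint : Integrable (fun x : W 2 => f ‖x‖) volume := by
    rw [integrable_fun_norm_addHaar, P28e.finrank_W]
    have h1 : IntegrableOn (fun y : ℝ => y ^ (5 - p)) (Iio 1 ∩ Ioi 0) := by
      have h2 : IntervalIntegrable (fun y : ℝ => y ^ (5 - p)) volume 0 1 :=
        intervalIntegral.intervalIntegrable_rpow' (by linarith)
      rw [intervalIntegrable_iff_integrableOn_Ioc_of_le zero_le_one] at h2
      exact h2.mono_set fun y hy => ⟨hy.2, le_of_lt hy.1⟩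
    have h2 : IntegrableOn (indicator (Iio (1 : ℝ)) fun y : ℝ => y ^ (5 - p)) (Ioi 0) := by
      unfold IntegrableOn
      rw [integrable_indicator_iff measurableSet_Iio]
      unfold IntegrableOn
      rw [Measure.restrict_restrict measurableSet_Iio]
      exact h1
    refine h2.congr_fun ?_ measurableSet_Ioi
    intro y hy
    have hy' : (0 : ℝ) < y := hy
    simp only [hf, indicator, mem_Iio, smul_eq_mul]
    split_ifs
    · have e : y ^ (5 - p) = y ^ (5 : ℝ) * y ^ (-p) := by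
        rw [← Real.rpow_add hy']
        ring_nf
      rw [e]
      congr 1
      norm_cast
    · rw [mul_zero]
  have h2 : enP p Φ ≤ ENNReal.ofReal (C ^ p) * ∫⁻ x : W 2, ENNReal.ofReal (f ‖x‖) := by
    unfold enP
    rw [← lintegral_const_mul' _ _ ENNReal.ofReal_ne_top]
    calc ∫⁻ x in ball (0 : W 2) 1, ‖conn Φ x‖ₑ ^ p
        ≤ ∫⁻ x in ball (0 : W 2) 1, ENNReal.ofReal (C ^ p) * ENNReal.ofReal (f ‖x‖) := by
          refine lintegral_mono_ae ?_
          have h0 : ∀ᵐ x : W 2 ∂(volume.restrict (ball (0 : W 2) 1)), x ≠ 0 := by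
            refine ae_restrict_of_ae ?_
            exact Measure.ae_ne volume (0 : W 2)
          filter_upwards [h0, ae_restrict_mem measurableSet_ball] with x hx hx1
          rw [mem_ball_zero_iff] at hx1
          have hx0 : 0 < ‖x‖ := norm_pos_iff.2 hx
          rw [← ofReal_norm (conn Φ x), ENNReal.ofReal_rpow_of_nonneg (norm_nonneg (conn Φ x)) hp0.le,
            ← ENNReal.ofReal_mul (by positivity)]
          apply ENNReal.ofReal_le_ofReal
          simp only [hf, if_pos hx1]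
          rw [Real.rpow_neg hx0.le, ← Real.inv_rpow hx0.le, ← Real.mul_rpow hC (by positivity)]
          exact Real.rpow_le_rpow (norm_nonneg (conn Φ x)) (hb x hx) hp0.le
      _ ≤ _ := lintegral_mono' Measure.restrict_le_self le_rfl
  exact h2.trans_lt (ENNReal.mul_lt_top ENNReal.ofReal_lt_top hint.lintegral_lt_top)

theorem mE_lt_top6 {p : ℝ} (hp0 : 0 < p) (hp6 : p < 6) {F : Mat 2 → Mat 2} (h : Diffh 2 F) :
    mE p F < ⊤ := by
  obtain ⟨Φ, hΦ, hF⟩ := exists_lift h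
  exact ((mE_le (isotopic_refl h)).trans (pE_le hΦ hF)).trans_lt (enP_lt_top hp0 hp6 hΦ)

/-- Q1 in terms of the two halves, for the exponents in `[2, 4)`. -/
theorem q1_iff2 {p : ℝ} (hp : 2 ≤ p) :
    (∀ F, Diffh 2 F → IsotopicToId 2 F) ↔
      (∀ F, Diffh 2 F → mE p F = 0) ∧ ∀ B, BallDiff B → IsotopicToId 2 B := by
  constructor
  · intro h
    exact ⟨fun F hF => PJ.mE_id (by linarith) (h F hF), fun B hB => h B (PJ.ball_diffh hB)⟩
  · rintro ⟨h1, h2⟩ F hF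
    obtain ⟨ε, hε, hg⟩ := gap_ge hp
    obtain ⟨B, hB, hiso⟩ := hg F (by
      rw [h1 F hF]
      exact ENNReal.ofReal_pos.2 hε)
    have h3 : Isotopic 2 id B := h2 B hB
    have h4 : Isotopic 2 id F := itr h3 hiso.symm
    exact h4

/-- Small quadratic energy on the plane `z 0 = 0`, with a majorant. -/
theorem plane_maj : ∃ ε : ℝ, 0 < ε ∧ ∀ (F : Mat 2 → Mat 2) (Φ : W 2 → W 2) (a : W 2 → ℝ),
    InjOn F (CP 2) → HLoc Φ → ConnLe Φ a → (∀ z : W 2, z ≠ 0 → F (pt z) = pt (Φ z)) →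
    ∫⁻ q in ball (0 : Fin 2 → ℂ) 1, ENNReal.ofReal (a ![0, q 0, q 1]) ^ 2 < ENNReal.ofReal ε →
    ∃ B, BallDiff B ∧ Isotopic 2 F B := by
  obtain ⟨ε, hε, hgap⟩ := planeGapT
  refine ⟨ε, hε, fun F Φ a hFi hΦ ha hF he => ?_⟩
  refine hgap F hFi Φ hΦ (LinearEquiv.refl ℂ (W 2)) (le_trans ?_ he.le) hF
  show enL Φ ≤ _
  unfold enL
  refine lintegral_mono_ae ?_
  have h0 : ∀ᵐ x : W 1 ∂(volume.restrict (ball (0 : W 1) 1)), x ≠ 0 := by
    refine ae_restrict_of_ae ?_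
    exact Measure.ae_ne volume (0 : W 1)
  filter_upwards [h0] with x hx
  have hem : em x = ![0, x 0, x 1] := by
    ext k
    fin_cases k <;> rfl
  gcongr
  rw [← ofReal_norm (conn Φ (em x)), ← hem]
  exact ENNReal.ofReal_le_ofReal (norm_conn_le hΦ ha (em_ne hx))

end Pool.Agent.Lib.PQ
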