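import Pool.Agent.Lib.PQ.SliceA

set_option autoImplicit false

/-!
# Small energy on the plane gives `GoodP` at the base point, at all scales up to `1/4`
-/

open MeasureTheory Set Metric
open scoped ENNReal ContDiff

namespace Pool.Agent.Lib.PQ

open Pool.Agent.P28b04d Pool.Agent.Lib.P28e

variable {Φ : W 2 → W 2}

/-- The commutator term. -/
noncomputable def aaP (Φ : W 2 → W 2) (y : Fin (1 * 2) → ℝ) : EndW 2 :=
  conn Φ (sp y) (Complex.I • sp y)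

theorem uuP_aaP (h : HLoc Φ) (y : Fin (1 * 2) → ℝ) :
    uuP Φ y * aaP Φ y = II 2 * uuP Φ y - uuP Φ y * II 2 := by
  rw [aaP, conn_apply, ← mul_assoc, uuP, Ring.mul_inverse_cancel _ (isUnit_fderiv h (sp_ne y)),
    one_mul, conn_I h (sp_ne y)]

theorem continuous_uuP (h : HLoc Φ) : Continuous (uuP Φ) := (par_uuP h).cont

theorem aaP_le {y : Fin (1 * 2) → ℝ} (hy : ‖y‖ ≤ 1) : ‖aaP Φ y‖ₑ ≤ alP Φ y := by
  have h1 : ‖aaP Φ y‖ ≤ 2 * ‖conn Φ (sp y)‖ := by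
    refine ((conn Φ (sp y)).le_opNorm _).trans ?_
    have h2 : ‖Complex.I • sp y‖ ≤ 2 := by
      rw [norm_smul, Complex.norm_I, one_mul, sp, norm_em]
      exact norm_sl_le 1 hy
    nlinarith [norm_nonneg (conn Φ (sp y))]
  rw [← ofReal_norm, alP, ← ofReal_norm]
  calc ENNReal.ofReal ‖aaP Φ y‖ ≤ ENNReal.ofReal (2 * ‖conn Φ (sp y)‖) :=
        ENNReal.ofReal_le_ofReal h1
    _ = 2 * ENNReal.ofReal ‖conn Φ (sp y)‖ := by
        rw [ENNReal.ofReal_mul (by norm_num)]; simp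

/-- The mean nearly commutes with `i`. -/
theorem comm_leP (h : HLoc Φ) (hd : 2 ≤ 1 * 2) {p : ℝ}
    (hp : Real.HolderConjugate ((1 * 2 : ℕ) : ℝ) p) {s κ : ℝ} (hs : 0 < s) (hs1 : s ≤ 1)
    (hκ0 : 0 ≤ κ) (hκ : κ ≤ 1 / 4)
    (hE : (∫⁻ y, alP Φ y ^ ((1 * 2 : ℕ) : ℝ) ∂cs (1 * 2) s) ^ (1 / ((1 * 2 : ℕ) : ℝ)) ≤
      ENNReal.ofReal κ) (M : (EndW 2)ˣ) (hM : (M : EndW 2) = ms s (uuP Φ))
    (hW : (∫⁻ y, ‖(↑M⁻¹ : EndW 2) * uuP Φ y - 1‖ₑ ^ p ∂cs (1 * 2) s) ^ (1 / p) ≤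
        ENNReal.ofReal (4 / 3 * κ * (2 * s) ^ (1 * 2 - 1))) :
    ‖(↑M⁻¹ : EndW 2) * II 2 * M - II 2‖ ≤ κ / s := by
  have hcw : Continuous fun y => (↑M⁻¹ : EndW 2) * uuP Φ y :=
    continuous_const.mul (continuous_uuP h)
  rw [← ms_comm hM (continuous_uuP h) (uuP_aaP h)]
  exact phase hd hp hcw (measurable_alP h) hs hκ0 hκ (fun y hy => aaP_le (hy.trans hs1)) hE hW

/-- Pointwise comparison on the cone over the slice. -/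
theorem cone_leP (h : HLoc Φ) {M : (EndW 2)ˣ} {κ s : ℝ} (hκ0 : 0 ≤ κ) (hκ : κ ≤ 1 / 4)
    (hs : 0 < s) (hs4 : s ≤ 1 / 4)
    (hM : ‖(↑M⁻¹ : EndW 2) * II 2 * M - II 2‖ ≤ κ / (2 * s)) {c : ℂ}
    (hc : c ∈ closedBall (1 : ℂ) s) (y : Fin (1 * 2) → ℝ) :
    ‖(↑M⁻¹ : EndW 2) * fderiv ℝ Φ (c • sp y) - 1‖ ≤
      2 * ‖(↑M⁻¹ : EndW 2) * uuP Φ y - 1‖ + κ := by
  have hcn : ‖c - 1‖ ≤ s := by simpa [dist_eq_norm] using hc
  have hc1 : 3 / 4 ≤ ‖c‖ := by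
    have h2 : ‖(1 : ℂ)‖ ≤ ‖c‖ + ‖c - 1‖ := by
      calc ‖(1 : ℂ)‖ = ‖c - (c - 1)‖ := by rw [sub_sub_cancel]
        _ ≤ ‖c‖ + ‖c - 1‖ := norm_sub_le _ _
    rw [norm_one] at h2
    linarith
  have hcpos : 0 < ‖c‖ := by linarith
  have hc0 : c ≠ 0 := norm_pos_iff.1 hcpos
  have him : |c.im| ≤ s := by
    have h1 : (c - 1).im = c.im := by simp
    rw [← h1]
    exact (Complex.abs_im_le_norm _).trans hcn
  obtain ⟨w, hw⟩ : ∃ w : EndW 2, w = (↑M⁻¹ : EndW 2) * uuP Φ y := ⟨_, rfl⟩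
  obtain ⟨Δ, hΔ⟩ : ∃ Δ : EndW 2, Δ = (↑M⁻¹ : EndW 2) * II 2 * M - II 2 := ⟨_, rfl⟩
  rw [← hΔ] at hM
  have hMM : (M : EndW 2) * (↑M⁻¹ : EndW 2) = 1 := Units.mul_inv M
  have hMM' : (↑M⁻¹ : EndW 2) * (M : EndW 2) = 1 := Units.inv_mul M
  have e1 : (↑M⁻¹ : EndW 2) * mulC c * (M : EndW 2) = mulC c + c.im • Δ := by
    rw [mulC_eq c, hΔ]
    exact conj_lin hMM' c.re c.im
  have hcc : (mulC c : EndW 2) * mulC c⁻¹ = 1 := by
    rw [mulC_mul, mul_inv_cancel₀ hc0, mulC_one]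
  have e2 : (↑M⁻¹ : EndW 2) * fderiv ℝ Φ (c • sp y) - 1 =
      mulC c * (w - 1) * mulC c⁻¹ + (c.im • Δ) * w * mulC c⁻¹ := by
    have h3 : (↑M⁻¹ : EndW 2) * fderiv ℝ Φ (c • sp y) = (mulC c + c.im • Δ) * w * mulC c⁻¹ := by
      rw [fderiv_mulC h hc0 (sp_ne y), ← e1, hw]
      show (↑M⁻¹ : EndW 2) * (mulC c * uuP Φ y * mulC c⁻¹) = _
      calc (↑M⁻¹ : EndW 2) * (mulC c * uuP Φ y * mulC c⁻¹)
          = (↑M⁻¹ : EndW 2) * mulC c * 1 * uuP Φ y * mulC c⁻¹ := by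
            simp only [mul_assoc, one_mul]
        _ = (↑M⁻¹ : EndW 2) * mulC c * ((M : EndW 2) * (↑M⁻¹ : EndW 2)) * uuP Φ y * mulC c⁻¹ := by
            rw [hMM]
        _ = _ := by simp only [mul_assoc]
    rw [h3]
    have h4 : (mulC c : EndW 2) * (w - 1) * mulC c⁻¹ = mulC c * w * mulC c⁻¹ - 1 := by
      rw [mul_sub, sub_mul, mul_one, hcc]
    rw [h4]
    noncomm_ring
  rw [e2, ← hw]
  have hwn : ‖w‖ ≤ ‖w - 1‖ + 1 := by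
    calc ‖w‖ = ‖(w - 1) + 1‖ := by rw [sub_add_cancel]
      _ ≤ ‖w - 1‖ + ‖(1 : EndW 2)‖ := norm_add_le _ _
      _ = ‖w - 1‖ + 1 := by rw [norm_one]
  have hinv : ‖(mulC c⁻¹ : EndW 2)‖ = ‖c‖⁻¹ := by rw [norm_mulC, norm_inv]
  have hA : ‖(mulC c : EndW 2) * (w - 1) * mulC c⁻¹‖ ≤ ‖w - 1‖ := by
    calc ‖(mulC c : EndW 2) * (w - 1) * mulC c⁻¹‖
        ≤ ‖(mulC c : EndW 2)‖ * ‖w - 1‖ * ‖(mulC c⁻¹ : EndW 2)‖ := by
          refine (norm_mul_le _ _).trans ?_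
          gcongr
          exact norm_mul_le _ _
      _ = ‖w - 1‖ := by
          rw [hinv, norm_mulC]
          field_simp
  have hB : ‖(c.im • Δ) * w * mulC c⁻¹‖ ≤ κ / 2 * (‖w - 1‖ + 1) * (4 / 3) := by
    calc ‖(c.im • Δ) * w * mulC c⁻¹‖
        ≤ ‖c.im • Δ‖ * ‖w‖ * ‖(mulC c⁻¹ : EndW 2)‖ := by
          refine (norm_mul_le _ _).trans ?_
          gcongr
          exact norm_mul_le _ _
      _ ≤ (s * (κ / (2 * s))) * (‖w - 1‖ + 1) * (4 / 3) := by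
          rw [hinv, norm_smul, Real.norm_eq_abs]
          gcongr
          rw [inv_le_comm₀ hcpos (by norm_num)]
          linarith
      _ = κ / 2 * (‖w - 1‖ + 1) * (4 / 3) := by
          congr 2
          field_simp
  have h5 := norm_add_le (mulC c * (w - 1) * mulC c⁻¹) ((c.im • Δ) * w * mulC c⁻¹)
  have h6 : 0 ≤ ‖w - 1‖ := norm_nonneg _
  nlinarith

theorem measurable_fderiv_subP (h : HLoc Φ) (N : EndW 2) :
    Measurable fun x : W 1 => ‖N * fderiv ℝ Φ (em x) - 1‖ₑ :=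
  (measurable_fderiv_sub h N).comp em.continuous.measurable

theorem good_e0P : ∀ ε : ℝ, 0 < ε → ∃ δ : ℝ, 0 < δ ∧ ∀ Φ : W 2 → W 2,
    HLoc Φ → enL Φ ≤ ENNReal.ofReal δ → ∀ s : ℝ, 0 < s → s ≤ 1 / 4 →
      ∃ M : (EndW 2)ˣ, GoodP Φ (e0 1) s ε M := by
  intro ε hε
  obtain ⟨C2, hC2, hcv⟩ := cv_upper 1
  obtain ⟨C1, hC1, hen⟩ := slice_energyP
  have hd : 2 ≤ 1 * 2 := by omega
  have hd1 : (1 : ℝ) < ((1 * 2 : ℕ) : ℝ) := by
    have : (2 : ℝ) ≤ ((1 * 2 : ℕ) : ℝ) := by exact_mod_cast hd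
    linarith
  obtain ⟨p, hpdef⟩ : ∃ p : ℝ, p = Real.conjExponent ((1 * 2 : ℕ) : ℝ) := ⟨_, rfl⟩
  have hp : Real.HolderConjugate ((1 * 2 : ℕ) : ℝ) p := by
    rw [hpdef]
    exact Real.HolderConjugate.conjExponent hd1
  -- choice of `κ`
  obtain ⟨vW, hvW⟩ : ∃ vW : ℝ≥0∞, vW = volume (closedBall (0 : W 1) 1) := ⟨_, rfl⟩
  obtain ⟨vC, hvC⟩ : ∃ vC : ℝ≥0∞, vC = volume (closedBall (0 : ℂ) 1) := ⟨_, rfl⟩
  have hvW0 : vW ≠ 0 := by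
    rw [hvW]
    exact (measure_closedBall_pos volume (0 : W 1) one_pos).ne'
  have hvCt : vC ≠ ⊤ := by
    rw [hvC]
    exact measure_closedBall_lt_top.ne
  have hKt : C2 * vC * ENNReal.ofReal (4 * 4 ^ (1 * 2)) ≠ ⊤ :=
    ENNReal.mul_ne_top (ENNReal.mul_ne_top hC2 hvCt) ENNReal.ofReal_ne_top
  have hεW : ENNReal.ofReal ε * vW ≠ 0 := mul_ne_zero (by simpa using hε) hvW0
  obtain ⟨κ', hκ'0, hκ'⟩ := exists_delta hKt hεW
  obtain ⟨κ, hκdef⟩ : ∃ κ : ℝ, κ = min κ' (1 / 4) := ⟨_, rfl⟩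
  have hκ0 : 0 < κ := by rw [hκdef]; positivity
  have hκ4 : κ ≤ 1 / 4 := by rw [hκdef]; exact min_le_right _ _
  have hκle : C2 * vC * ENNReal.ofReal (4 * 4 ^ (1 * 2)) * ENNReal.ofReal κ ≤
      ENNReal.ofReal ε * vW := by
    refine le_trans ?_ hκ'
    gcongr
    rw [hκdef]
    exact min_le_left _ _
  -- choice of `δ`
  obtain ⟨K, hK⟩ : ∃ K : ℝ≥0∞, K = ((1 * 2 : ℕ) : ℝ≥0∞) / 2 + 1 := ⟨_, rfl⟩
  have hK1 : 1 ≤ K := by rw [hK]; exact le_add_self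
  have hKtop : K ≠ ⊤ := by
    rw [hK]
    exact ENNReal.add_ne_top.2 ⟨ENNReal.div_ne_top (ENNReal.natCast_ne_top _) (by norm_num),
      ENNReal.one_ne_top⟩
  have hK0 : K ≠ 0 := (lt_of_lt_of_le zero_lt_one hK1).ne'
  have ht : (ENNReal.ofReal κ / K) ^ ((1 * 2 : ℕ) : ℝ) ≠ 0 := by
    have h1 : ENNReal.ofReal κ / K ≠ 0 := ENNReal.div_ne_zero.2 ⟨by simpa using hκ0, hKtop⟩
    rw [ENNReal.rpow_natCast]
    exact pow_ne_zero _ h1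
  obtain ⟨δ, hδ0, hδ⟩ := exists_delta hC1 ht
  refine ⟨δ, hδ0, fun Φ h hE s hs hs4 => ?_⟩
  have hE1 : K * (∫⁻ y, alP Φ y ^ ((1 * 2 : ℕ) : ℝ) ∂cs (1 * 2) 1) ^ (1 / ((1 * 2 : ℕ) : ℝ)) ≤
      ENNReal.ofReal κ := by
    have h1 : ∫⁻ y, alP Φ y ^ ((1 * 2 : ℕ) : ℝ) ∂cs (1 * 2) 1 ≤
        (ENNReal.ofReal κ / K) ^ ((1 * 2 : ℕ) : ℝ) := by
      refine (hen Φ h).trans (le_trans ?_ hδ)
      gcongr
    have h2 : (∫⁻ y, alP Φ y ^ ((1 * 2 : ℕ) : ℝ) ∂cs (1 * 2) 1) ^ (1 / ((1 * 2 : ℕ) : ℝ)) ≤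
        ENNReal.ofReal κ / K := by
      have := ENNReal.rpow_le_rpow h1 (by positivity : 0 ≤ 1 / ((1 * 2 : ℕ) : ℝ))
      rwa [← ENNReal.rpow_mul, mul_one_div_cancel (by positivity), ENNReal.rpow_one] at this
    calc K * (∫⁻ y, alP Φ y ^ ((1 * 2 : ℕ) : ℝ) ∂cs (1 * 2) 1) ^ (1 / ((1 * 2 : ℕ) : ℝ))
        ≤ K * (ENNReal.ofReal κ / K) := by gcongr
      _ = ENNReal.ofReal κ := ENNReal.mul_div_cancel hK0 hKtop
  have h2s : 0 < 2 * s := by positivity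
  have h2s1 : 2 * s ≤ 1 := by linarith
  obtain ⟨M, hM, hW⟩ := gap hd hp (par_uuP h) (isUnit_uuP h) (measurable_alP h) UUP_le hκ0.le hκ4
    (by rw [← hK]; exact hE1) h2s h2s1
  have hE2 : (∫⁻ y, alP Φ y ^ ((1 * 2 : ℕ) : ℝ) ∂cs (1 * 2) (2 * s)) ^
      (1 / ((1 * 2 : ℕ) : ℝ)) ≤ ENNReal.ofReal κ := by
    refine le_trans ?_ hE1
    calc (∫⁻ y, alP Φ y ^ ((1 * 2 : ℕ) : ℝ) ∂cs (1 * 2) (2 * s)) ^ (1 / ((1 * 2 : ℕ) : ℝ))
        ≤ (∫⁻ y, alP Φ y ^ ((1 * 2 : ℕ) : ℝ) ∂cs (1 * 2) 1) ^ (1 / ((1 * 2 : ℕ) : ℝ)) := by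
          gcongr
          exact cs_mono h2s1
      _ ≤ K * (∫⁻ y, alP Φ y ^ ((1 * 2 : ℕ) : ℝ) ∂cs (1 * 2) 1) ^ (1 / ((1 * 2 : ℕ) : ℝ)) :=
          le_mul_of_one_le_left zero_le hK1
  have hcomm := comm_leP h hd hp h2s h2s1 hκ0.le hκ4 hE2 M hM hW
  refine ⟨M, ?_⟩
  unfold GoodP
  have hcw : Continuous fun y => (↑M⁻¹ : EndW 2) * uuP Φ y - 1 :=
    (continuous_const.mul (continuous_uuP h)).sub continuous_const
  have hcwm : Measurable fun y => ‖(↑M⁻¹ : EndW 2) * uuP Φ y - 1‖ₑ := hcw.enorm.measurable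
  -- the `L¹` bound on the slice
  have hL1 : ∫⁻ y, ‖(↑M⁻¹ : EndW 2) * uuP Φ y - 1‖ₑ ∂cs (1 * 2) (2 * s) ≤
      ENNReal.ofReal (4 / 3 * κ * (4 * s) ^ (1 * 2)) := by
    have h1 := lintegral_le_Lp hd hp (fun _ : Fin (1 * 2) => -(2 * s)) (2 * (2 * s)) hcwm
    refine h1.trans ?_
    calc ENNReal.ofReal (2 * (2 * s)) * (∫⁻ y, ‖(↑M⁻¹ : EndW 2) * uuP Φ y - 1‖ₑ ^ p
          ∂cm (fun _ : Fin (1 * 2) => -(2 * s)) (2 * (2 * s))) ^ (1 / p)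
        ≤ ENNReal.ofReal (2 * (2 * s)) *
          ENNReal.ofReal (4 / 3 * κ * (2 * (2 * s)) ^ (1 * 2 - 1)) := by
          gcongr
          exact hW
      _ = ENNReal.ofReal (4 / 3 * κ * (4 * s) ^ (1 * 2)) := by
          rw [← ENNReal.ofReal_mul (by positivity)]
          congr 1
          have hd1 : 1 * 2 = (1 * 2 - 1) + 1 := by omega
          have : (4 * s) ^ (1 * 2) = (4 * s) ^ (1 * 2 - 1) * (4 * s) := by
            conv_lhs => rw [hd1, pow_succ]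
          rw [this, show 2 * (2 * s) = 4 * s by ring]
          ring
  have hinner : ∀ c ∈ closedBall (1 : ℂ) s,
      ∫⁻ y in Icc (fun _ : Fin (1 * 2) => -(2 * s)) (fun _ => 2 * s),
        ‖(↑M⁻¹ : EndW 2) * fderiv ℝ Φ (em (c • sl 1 y)) - 1‖ₑ ≤
      ENNReal.ofReal (4 * κ * (4 * s) ^ (1 * 2)) := by
    intro c hc
    have h1 : ∫⁻ y in Icc (fun _ : Fin (1 * 2) => -(2 * s)) (fun _ => 2 * s),
        ‖(↑M⁻¹ : EndW 2) * fderiv ℝ Φ (em (c • sl 1 y)) - 1‖ₑ ≤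
        ∫⁻ y, (2 * ‖(↑M⁻¹ : EndW 2) * uuP Φ y - 1‖ₑ + ENNReal.ofReal κ) ∂cs (1 * 2) (2 * s) := by
      rw [cs_eq]
      refine lintegral_mono fun y => ?_
      have h2 := cone_leP h hκ0.le hκ4 hs hs4 hcomm hc y
      show ‖(↑M⁻¹ : EndW 2) * fderiv ℝ Φ (em (c • sl 1 y)) - 1‖ₑ ≤
        2 * ‖(↑M⁻¹ : EndW 2) * uuP Φ y - 1‖ₑ + ENNReal.ofReal κ
      rw [em_smul, ← ofReal_norm, ← ofReal_norm]
      calc ENNReal.ofReal ‖(↑M⁻¹ : EndW 2) * fderiv ℝ Φ (c • sp y) - 1‖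
          ≤ ENNReal.ofReal (2 * ‖(↑M⁻¹ : EndW 2) * uuP Φ y - 1‖ + κ) :=
            ENNReal.ofReal_le_ofReal h2
        _ = 2 * ENNReal.ofReal ‖(↑M⁻¹ : EndW 2) * uuP Φ y - 1‖ + ENNReal.ofReal κ := by
            rw [ENNReal.ofReal_add (by positivity) hκ0.le, ENNReal.ofReal_mul (by norm_num)]
            simp
    refine h1.trans ?_
    rw [lintegral_add_right _ measurable_const, lintegral_const_mul _ hcwm, lintegral_const]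
    have h3 : cs (1 * 2) (2 * s) univ = ENNReal.ofReal ((4 * s) ^ (1 * 2)) := by
      rw [cs, cm_univ, ← ENNReal.ofReal_pow (by positivity)]
      congr 2
      ring
    rw [h3]
    calc 2 * ∫⁻ y, ‖(↑M⁻¹ : EndW 2) * uuP Φ y - 1‖ₑ ∂cs (1 * 2) (2 * s) +
          ENNReal.ofReal κ * ENNReal.ofReal ((4 * s) ^ (1 * 2))
        ≤ 2 * ENNReal.ofReal (4 / 3 * κ * (4 * s) ^ (1 * 2)) +
          ENNReal.ofReal κ * ENNReal.ofReal ((4 * s) ^ (1 * 2)) := by gcongr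
      _ = ENNReal.ofReal (2 * (4 / 3 * κ * (4 * s) ^ (1 * 2)) + κ * (4 * s) ^ (1 * 2)) := by
          rw [ENNReal.ofReal_add (by positivity) (by positivity),
            ENNReal.ofReal_mul (by norm_num : (0 : ℝ) ≤ 2), ENNReal.ofReal_mul hκ0.le]
          simp
      _ ≤ ENNReal.ofReal (4 * κ * (4 * s) ^ (1 * 2)) := by
          apply ENNReal.ofReal_le_ofReal
          have : 0 < κ * (4 * s) ^ (1 * 2) := by positivity
          nlinarith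
  calc ∫⁻ x in closedBall (e0 1) s, ‖(↑M⁻¹ : EndW 2) * fderiv ℝ Φ (em x) - 1‖ₑ
      ≤ C2 * ∫⁻ c in closedBall (1 : ℂ) s,
          ∫⁻ y in Icc (fun _ : Fin (1 * 2) => -(2 * s)) (fun _ => 2 * s),
            ‖(↑M⁻¹ : EndW 2) * fderiv ℝ Φ (em (c • sl 1 y)) - 1‖ₑ :=
        hcv _ (measurable_fderiv_subP h _) s hs hs4
    _ ≤ C2 * ∫⁻ _c in closedBall (1 : ℂ) s, ENNReal.ofReal (4 * κ * (4 * s) ^ (1 * 2)) := by
        gcongr C2 * ?_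
        exact setLIntegral_mono' measurableSet_closedBall hinner
    _ = C2 * (ENNReal.ofReal (4 * κ * (4 * s) ^ (1 * 2)) * (ENNReal.ofReal (s ^ 2) * vC)) := by
        rw [lintegral_const, Measure.restrict_apply MeasurableSet.univ, univ_inter,
          vol_ball_C hs.le, hvC]
    _ = (C2 * vC * ENNReal.ofReal (4 * 4 ^ (1 * 2)) * ENNReal.ofReal κ) *
          ENNReal.ofReal (s ^ (1 * 2 + 2)) := by
        have e : ENNReal.ofReal (4 * κ * (4 * s) ^ (1 * 2)) * ENNReal.ofReal (s ^ 2) =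
            ENNReal.ofReal (4 * 4 ^ (1 * 2)) * ENNReal.ofReal κ *
              ENNReal.ofReal (s ^ (1 * 2 + 2)) := by
          rw [← ENNReal.ofReal_mul (by positivity), ← ENNReal.ofReal_mul (by positivity),
            ← ENNReal.ofReal_mul (by positivity)]
          congr 1
          rw [mul_pow, pow_add]
          ring
        calc C2 * (ENNReal.ofReal (4 * κ * (4 * s) ^ (1 * 2)) * (ENNReal.ofReal (s ^ 2) * vC))
            = C2 * vC * (ENNReal.ofReal (4 * κ * (4 * s) ^ (1 * 2)) * ENNReal.ofReal (s ^ 2)) := by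
              ring
          _ = _ := by rw [e]; ring
    _ ≤ (ENNReal.ofReal ε * vW) * ENNReal.ofReal (s ^ (1 * 2 + 2)) := by gcongr
    _ = ENNReal.ofReal ε * volume (closedBall (e0 1) s) := by
        rw [vol_ball_W 1 _ hs.le, hvW]
        ring

end Pool.Agent.Lib.PQ
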