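import Pool.Agent.Lib.PQ.Defs

set_option autoImplicit false

/-!
# The slice through the base point of the plane: the function `y ↦ dΦ (0, 1, y)`
-/

open MeasureTheory Set Metric
open scoped ENNReal ContDiff

namespace Pool.Agent.Lib.PQ

open Pool.Agent.P28b04d Pool.Agent.Lib.P28e

variable {Φ : W 2 → W 2}

/-- The slice in the plane. -/
noncomputable def sp (y : Fin (1 * 2) → ℝ) : W 2 := em (sl 1 y)

theorem continuous_sp : Continuous sp := em.continuous.comp continuous_sl

theorem sp_ne (y : Fin (1 * 2) → ℝ) : sp y ≠ 0 := em_ne (sl_ne y)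

/-- The derivative on the slice. -/
noncomputable def uuP (Φ : W 2 → W 2) (y : Fin (1 * 2) → ℝ) : EndW 2 := fderiv ℝ Φ (sp y)

/-- Its partial derivatives. -/
noncomputable def UUP (Φ : W 2 → W 2) (i : Fin (1 * 2)) (y : Fin (1 * 2) → ℝ) : EndW 2 :=
  fderiv ℝ (fderiv ℝ Φ) (sp y) (em (Lv 1 (Pi.single i 1)))

theorem par_uuP (h : HLoc Φ) : Par (uuP Φ) (UUP Φ) where
  cont := by
    unfold uuP
    exact (continuousOn_fderiv h).comp_continuous continuous_sp fun y => sp_ne y
  contG i := by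
    unfold UUP
    have h1 : Continuous fun y => fderiv ℝ (fderiv ℝ Φ) (sp y) :=
      (continuousOn_fderiv2 h).comp_continuous continuous_sp fun y => sp_ne y
    exact h1.clm_apply continuous_const
  deriv i y := by
    unfold uuP UUP
    have hdiff : DifferentiableAt ℝ (fderiv ℝ Φ) (sp y) :=
      ((contDiffOn_fderiv h).contDiffAt (isOpen_compl_singleton.mem_nhds (sp_ne y))).differentiableAt
        (by simp)
    have hup : HasDerivAt (fun t : ℝ => sp (Function.update y i t)) (em (Lv 1 (Pi.single i 1)))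
        (y i) := by
      have h1 : HasDerivAt (fun t : ℝ => Function.update y i t) (Pi.single i (1 : ℝ)) (y i) :=
        hasDerivAt_update y i (y i)
      have h2 := (Lv 1).hasFDerivAt.comp_hasDerivAt (y i) h1
      have h3 := h2.const_add (e0 1)
      have h4 : HasDerivAt (fun t : ℝ => sl 1 (Function.update y i t)) (Lv 1 (Pi.single i 1))
          (y i) := by
        refine h3.congr_of_eventuallyEq (Filter.Eventually.of_forall fun t => ?_)
        simp [sl_eq]
      exact em.hasFDerivAt.comp_hasDerivAt (y i) h4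
    have hyy : sp (Function.update y i (y i)) = sp y := by rw [Function.update_eq_self]
    rw [← hyy] at hdiff
    have h3 := hdiff.hasFDerivAt.comp_hasDerivAt (y i) hup
    rw [hyy] at h3
    exact h3

/-- The weight. -/
noncomputable def alP (Φ : W 2 → W 2) (y : Fin (1 * 2) → ℝ) : ℝ≥0∞ := 2 * ‖conn Φ (sp y)‖ₑ

theorem measurable_alP (h : HLoc Φ) : Measurable (alP Φ) :=
  ((measurable_conn h).comp continuous_sp.measurable).const_mul 2

theorem isUnit_uuP (h : HLoc Φ) (y : Fin (1 * 2) → ℝ) : IsUnit (uuP Φ y) :=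
  isUnit_fderiv h (sp_ne y)

theorem UUP_le (i : Fin (1 * 2)) (y : Fin (1 * 2) → ℝ) :
    ‖Ring.inverse (uuP Φ y) * UUP Φ i y‖ₑ ≤ alP Φ y := by
  have h1 : Ring.inverse (uuP Φ y) * UUP Φ i y = conn Φ (sp y) (em (Lv 1 (Pi.single i 1))) := by
    rw [conn_apply]; rfl
  rw [h1, alP]
  have h2 : ‖conn Φ (sp y) (em (Lv 1 (Pi.single i 1)))‖ ≤ 2 * ‖conn Φ (sp y)‖ := by
    refine ((conn Φ (sp y)).le_opNorm _).trans ?_
    have h3 : ‖em (Lv 1 (Pi.single i (1 : ℝ)))‖ ≤ 2 := by
      rw [norm_em]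
      refine (norm_Lv_le _).trans ?_
      have : ‖(Pi.single i (1 : ℝ) : Fin (1 * 2) → ℝ)‖ ≤ 1 := by
        rw [pi_norm_le_iff_of_nonneg zero_le_one]
        intro j
        by_cases hj : j = i
        · subst hj; simp
        · simp [hj]
      linarith
    nlinarith [norm_nonneg (conn Φ (sp y))]
  rw [← ofReal_norm, ← ofReal_norm]
  calc ENNReal.ofReal ‖conn Φ (sp y) (em (Lv 1 (Pi.single i 1)))‖
      ≤ ENNReal.ofReal (2 * ‖conn Φ (sp y)‖) := ENNReal.ofReal_le_ofReal h2
    _ = 2 * ENNReal.ofReal ‖conn Φ (sp y)‖ := by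
        rw [ENNReal.ofReal_mul (by norm_num)]; simp

theorem measurable_connP (h : HLoc Φ) : Measurable fun x : W 1 => ‖conn Φ (em x)‖ₑ :=
  (measurable_conn h).comp em.continuous.measurable

/-- The energy on the slice is controlled by the energy. -/
theorem slice_energyP : ∃ C : ℝ≥0∞, C ≠ ⊤ ∧ ∀ Φ : W 2 → W 2, HLoc Φ →
    ∫⁻ y, alP Φ y ^ ((1 * 2 : ℕ) : ℝ) ∂cs (1 * 2) 1 ≤ C * enL Φ := by
  obtain ⟨C, hC, hcv⟩ := cv_lower 1
  refine ⟨2 ^ (1 * 2) * ((volume Ann)⁻¹ * C), ?_, fun Φ h => ?_⟩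
  · refine ENNReal.mul_ne_top (by simp) (ENNReal.mul_ne_top ?_ hC)
    exact ENNReal.inv_ne_top.2 volume_Ann
  · have hAnn : MeasurableSet Ann := by
      have : Ann = {c : ℂ | 1 / 4 ≤ ‖c‖} ∩ {c : ℂ | ‖c‖ ≤ 1 / 3} := rfl
      rw [this]
      exact ((isClosed_le continuous_const continuous_norm).inter
        (isClosed_le continuous_norm continuous_const)).measurableSet
    have hAnnt : volume Ann ≠ ⊤ := by
      have hsub : Ann ⊆ closedBall 0 1 := by
        intro c hc
        rw [mem_closedBall_zero_iff]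
        exact hc.2.trans (by norm_num)
      exact ne_top_of_le_ne_top measure_closedBall_lt_top.ne (measure_mono hsub)
    obtain ⟨G, hG⟩ : ∃ G : W 1 → ℝ≥0∞, G = fun x => ‖conn Φ (em x)‖ₑ ^ 2 := ⟨_, rfl⟩
    have hGm : Measurable G := by
      rw [hG]
      exact (measurable_connP h).pow_const _
    obtain ⟨E1, hE1⟩ : ∃ E1 : ℝ≥0∞, E1 = ∫⁻ y in Icc (fun _ : Fin (1 * 2) => (-1 : ℝ)) (fun _ => 1),
      ‖conn Φ (sp y)‖ₑ ^ 2 := ⟨_, rfl⟩
    have h1 : volume Ann * E1 ≤ C * enL Φ := by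
      calc volume Ann * E1 = ∫⁻ c in Ann, E1 := by
            rw [lintegral_const, Measure.restrict_apply MeasurableSet.univ, univ_inter, mul_comm]
        _ ≤ ∫⁻ c in Ann, ∫⁻ y in Icc (fun _ : Fin (1 * 2) => (-1 : ℝ)) (fun _ => 1),
              G (c • sl 1 y) := by
            rw [hE1]
            refine setLIntegral_mono' hAnn fun c hc => lintegral_mono fun y => ?_
            have hc0 : c ≠ 0 := by
              intro h0
              have := hc.1
              rw [h0, norm_zero] at this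
              norm_num at this
            have h2 : ‖conn Φ (sp y)‖ ≤ ‖conn Φ (c • sp y)‖ := by
              rw [conn_smul h hc0 (sp_ne y)]
              have h3 : 1 ≤ ‖c‖⁻¹ := by
                rw [one_le_inv₀ (norm_pos_iff.2 hc0)]
                exact hc.2.trans (by norm_num)
              nlinarith [norm_nonneg (conn Φ (sp y))]
            rw [hG]
            show ‖conn Φ (sp y)‖ₑ ^ 2 ≤ ‖conn Φ (em (c • sl 1 y))‖ₑ ^ 2
            rw [em_smul]
            gcongr
            rw [← ofReal_norm, ← ofReal_norm]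
            exact ENNReal.ofReal_le_ofReal h2
        _ ≤ C * ∫⁻ x in ball (0 : W 1) 1, G x := hcv G hGm
        _ = C * enL Φ := by rw [hG]; rfl
    have h2 : E1 ≤ (volume Ann)⁻¹ * (C * enL Φ) := by
      rw [← ENNReal.div_eq_inv_mul, ENNReal.le_div_iff_mul_le (Or.inl volume_Ann) (Or.inl hAnnt),
        mul_comm]
      exact h1
    have h3 : ∫⁻ y, alP Φ y ^ ((1 * 2 : ℕ) : ℝ) ∂cs (1 * 2) 1 = 2 ^ (1 * 2) * E1 := by
      rw [cs_eq, hE1, ← lintegral_const_mul']
      · refine lintegral_congr fun y => ?_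
        rw [ENNReal.rpow_natCast, alP, mul_pow]
      · simp
    rw [h3]
    calc 2 ^ (1 * 2) * E1 ≤ 2 ^ (1 * 2) * ((volume Ann)⁻¹ * (C * enL Φ)) := by gcongr
      _ = 2 ^ (1 * 2) * ((volume Ann)⁻¹ * C) * enL Φ := by ring

end Pool.Agent.Lib.PQ
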