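import Pool.Agent.Lib.PQ.Avg

set_option autoImplicit false

/-!
# Comparison of the averages at different scales

With good matrices at all points and scales of the plane: the difference of the averages with parameters `s ≤ t` at `z` is small compared
with `t |z|`, measured by the good matrix at the scale `t` (induction over dyadic scales), and the averages are injective on the plane at small
distances.
-/

open MeasureTheory Set Metric
open scoped ENNReal NNReal ContDiff Topology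

namespace Pool.Agent.Lib.PQ

open Pool.Agent.P28b04d Pool.Agent.Lib.P28e

variable {Φ : W 2 → W 2}

theorem R_le (z : W 1) : rad (em z) ≤ 3 * ‖z‖ := by
  have := rad_le (em z)
  rw [norm_em] at this
  norm_num at this
  linarith

theorem le_R (z : W 1) : ‖z‖ ≤ rad (em z) := by
  have := norm_le_rad (em z)
  rwa [norm_em] at this

theorem R_lip (z w : W 1) : |rad (em z) - rad (em w)| ≤ 3 * ‖z - w‖ := by
  have h1 := (Close46.rad_lipschitz (n := 2)).dist_le_mul (em z) (em w)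
  rw [Real.dist_eq, dist_eq_norm, ← map_sub, norm_em] at h1
  push_cast at h1
  linarith

theorem sm_two : sm 2 = 1 / 24 := by
  unfold sm
  norm_num

theorem hasFDerivAt_joint (h : HLoc Φ) {s : ℝ} (hs0 : 0 ≤ s) (hs : s ≤ sm 2) {z : W 2}
    (hz : z ≠ 0) : HasFDerivAt (fun p : ℝ × W 2 => AvP Φ p.1 p.2)
      (fderiv ℝ (fun p : ℝ × W 2 => AvP Φ p.1 p.2) (s, z)) (s, z) :=
  (((avP_smooth h).contDiffAt (isOpen_Dom.mem_nhds (mem_Dom hs0 hs hz))).differentiableAt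
    (by simp)).hasFDerivAt

theorem hasFDerivAt_avP (h : HLoc Φ) {s : ℝ} (hs0 : 0 ≤ s) (hs : s ≤ sm 2) {z : W 2} (hz : z ≠ 0) :
    HasFDerivAt (AvP Φ s) ((fderiv ℝ (fun p : ℝ × W 2 => AvP Φ p.1 p.2) (s, z)).comp
      (ContinuousLinearMap.inr ℝ ℝ (W 2))) z :=
  HasFDerivAt.comp (g := fun p : ℝ × W 2 => AvP Φ p.1 p.2) (f := fun w : W 2 => (s, w)) z
    (hasFDerivAt_joint h hs0 hs hz) (hasFDerivAt_prodMk_right s z)

theorem hasDerivAt_avP (h : HLoc Φ) {s : ℝ} (hs0 : 0 ≤ s) (hs : s ≤ sm 2) {z : W 2} (hz : z ≠ 0) :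
    HasDerivAt (fun t => AvP Φ t z)
      (fderiv ℝ (fun p : ℝ × W 2 => AvP Φ p.1 p.2) (s, z) (1, 0)) s := by
  have h1 : HasDerivAt (fun t : ℝ => (t, z)) ((1 : ℝ), (0 : W 2)) s :=
    (hasDerivAt_id s).prodMk (hasDerivAt_const s z)
  exact (hasFDerivAt_joint h hs0 hs hz).comp_hasDerivAt s h1

/-- The derivative in the direction of the space. -/
theorem close_dir (h : HLoc Φ) {z : W 1} (hz : z ≠ 0) {s : ℝ} (hs0 : 0 < s) (hs : s ≤ sm 2)
    {ε : ℝ} (hε : 0 ≤ ε) {M : (EndW 2)ˣ} (hM : GoodP Φ z (s * rad (em z)) ε M) (v : W 2) :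
    ‖(↑M⁻¹ : EndW 2) (fderiv ℝ (AvP Φ s) (em z) v) - v‖ ≤ 2 * ε * ‖v‖ := by
  rw [(hasFDerivAt_avP h hs0.le hs (em_ne hz)).fderiv]
  have h1 := der_close h hz hs0 hs hε hM 0 v
  rw [zero_mul, zero_add] at h1
  have h2 := Close46.fderiv_rad_le hs0 hs (em z) v
  refine le_trans h1 ?_
  nlinarith [norm_nonneg v, mul_nonneg hε (norm_nonneg v)]

/-- The derivative in the parameter. -/
theorem close_par (h : HLoc Φ) {z : W 1} (hz : z ≠ 0) {s : ℝ} (hs0 : 0 < s) (hs : s ≤ sm 2)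
    {ε : ℝ} (hε : 0 ≤ ε) {M : (EndW 2)ˣ} (hM : GoodP Φ z (s * rad (em z)) ε M) :
    ‖(↑M⁻¹ : EndW 2) (fderiv ℝ (fun p : ℝ × W 2 => AvP Φ p.1 p.2) (s, em z) (1, 0))‖ ≤
      ε * rad (em z) := by
  have h1 := der_close h hz hs0 hs hε hM 1 0
  rw [one_mul, map_zero, mul_zero, add_zero, norm_zero, zero_add, sub_zero,
    abs_of_pos (Close46.rad_pos (em_ne hz))] at h1
  exact h1

/-- Parameters within a factor two. -/
theorem step_two (h : HLoc Φ) {z : W 1} (hz : z ≠ 0) {s t : ℝ} (hs0 : 0 < s) (hst : s ≤ t)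
    (ht : t ≤ sm 2) (ht2 : t ≤ 2 * s) {ε : ℝ} (hε : 0 ≤ ε) {M : (EndW 2)ˣ}
    (hM : GoodP Φ z (t * rad (em z)) ε M) :
    ‖(↑M⁻¹ : EndW 2) (AvP Φ s (em z) - AvP Φ t (em z))‖ ≤ 16 * ε * rad (em z) * (t - s) := by
  have hR : 0 < rad (em z) := Close46.rad_pos (em_ne hz)
  have hder : ∀ τ ∈ Icc s t, HasDerivWithinAt (fun τ => (↑M⁻¹ : EndW 2) (AvP Φ τ (em z)))
      ((↑M⁻¹ : EndW 2) (fderiv ℝ (fun p : ℝ × W 2 => AvP Φ p.1 p.2) (τ, em z) (1, 0)))
      (Icc s t) τ := by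
    intro τ hτ
    have h1 := hasDerivAt_avP h (hs0.le.trans hτ.1) (hτ.2.trans ht) (em_ne hz)
    exact ((↑M⁻¹ : EndW 2).hasFDerivAt.comp_hasDerivAt τ h1).hasDerivWithinAt
  have hb : ∀ τ ∈ Icc s t,
      ‖(↑M⁻¹ : EndW 2) (fderiv ℝ (fun p : ℝ × W 2 => AvP Φ p.1 p.2) (τ, em z) (1, 0))‖ ≤
        16 * ε * rad (em z) := by
    intro τ hτ
    have hτ0 : 0 < τ := hs0.trans_le hτ.1
    have hg : GoodP Φ z (τ * rad (em z)) (ε * 2 ^ 4) M := by
      refine goodP_shrink (by positivity) (mul_nonneg (hs0.le.trans hst) hR.le) hε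
        (closedBall_subset_closedBall ?_) (by norm_num) ?_ hM
      · exact mul_le_mul_of_nonneg_right hτ.2 hR.le
      · have : t ≤ 2 * τ := by linarith [hτ.1]
        nlinarith
    have := close_par h hz hτ0 (hτ.2.trans ht) (by positivity) hg
    linarith
  have := Convex.norm_image_sub_le_of_norm_hasDerivWithin_le (s := Icc s t) hder hb
    (convex_Icc s t) (right_mem_Icc.2 hst) (left_mem_Icc.2 hst)
  rw [← map_sub] at this
  refine this.trans ?_
  rw [norm_sub_rev, Real.norm_of_nonneg (by linarith)]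

/-- Good matrices at all points and all scales. -/
def AllGood (Φ : W 2 → W 2) (ε : ℝ) : Prop :=
  ∀ z : W 1, z ≠ 0 → ∀ ρ : ℝ, 0 < ρ → ρ ≤ ‖z‖ / 8 → ∃ M : (EndW 2)ˣ, GoodP Φ z ρ ε M

theorem scale_le {z : W 1} {t : ℝ} (ht0 : 0 ≤ t) (ht : t ≤ sm 2) : t * rad (em z) ≤ ‖z‖ / 8 := by
  rw [sm_two] at ht
  have h1 := R_le z
  have h2 := norm_nonneg z
  have h3 := le_R z
  nlinarith

theorem telescope_aux (h : HLoc Φ) {ε : ℝ} (hε : 0 < ε) (hε2 : ε ≤ 1 / 10000) (hall : AllGood Φ ε)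
    {z : W 1} (hz : z ≠ 0) (k : ℕ) : ∀ s t : ℝ, 0 < s → s ≤ t → t ≤ sm 2 → t ≤ 2 ^ (k + 1) * s →
    ∀ M : (EndW 2)ˣ, GoodP Φ z (t * rad (em z)) ε M →
    ‖(↑M⁻¹ : EndW 2) (AvP Φ s (em z) - AvP Φ t (em z))‖ ≤ 64 * ε * t * rad (em z) := by
  have hR : 0 < rad (em z) := Close46.rad_pos (em_ne hz)
  induction k with
  | zero =>
    intro s t hs0 hst ht htk M hM
    have h1 := step_two h hz hs0 hst ht (by simpa using htk) hε.le hM
    refine h1.trans ?_
    have h2 : 0 < ε * rad (em z) := by positivity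
    nlinarith
  | succ k ih =>
    intro s t hs0 hst ht htk M hM
    have ht0 : 0 < t := hs0.trans_le hst
    by_cases hc : t ≤ 2 * s
    · have h1 := step_two h hz hs0 hst ht hc hε.le hM
      refine h1.trans ?_
      have h2 : 0 < ε * rad (em z) := by positivity
      nlinarith
    · push Not at hc
      obtain ⟨t', ht'⟩ : ∃ t' : ℝ, t' = t / 2 := ⟨_, rfl⟩
      have ht'0 : 0 < t' := by rw [ht']; positivity
      have hst' : s ≤ t' := by rw [ht']; linarith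
      have ht't : t' ≤ t := by rw [ht']; linarith
      have ht'k : t' ≤ 2 ^ (k + 1) * s := by
        have h2 : (2 : ℝ) ^ (k + 1 + 1) * s = 2 * (2 ^ (k + 1) * s) := by ring
        rw [h2] at htk
        rw [ht']
        linarith
      obtain ⟨M', hM'⟩ := hall z hz (t' * rad (em z)) (by positivity)
        (scale_le ht'0.le (ht't.trans ht))
      have e1 := ih s t' hs0 hst' (ht't.trans ht) ht'k M' hM'
      have e2 := step_two h hz ht'0 ht't ht (by rw [ht']; linarith) hε.le hM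
      have e3 := cmp_local h (z := z) (z' := z) (y := z) (ρ := t * rad (em z))
        (ρ' := t' * rad (em z)) (r := t' * rad (em z)) (ε := ε) (by positivity) hε (by linarith)
        (closedBall_subset_closedBall (by gcongr)) subset_rfl (by positivity) (by positivity)
        (by rw [ht']; nlinarith) (by nlinarith [mul_pos ht'0 hR]) hM hM'
      have hN : ‖(↑M⁻¹ : EndW 2) * (M' : EndW 2)‖ ≤ 1 + 4096 * ε := by
        calc ‖(↑M⁻¹ : EndW 2) * (M' : EndW 2)‖ = ‖((↑M⁻¹ : EndW 2) * (M' : EndW 2) - 1) + 1‖ := by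
              rw [sub_add_cancel]
          _ ≤ ‖(↑M⁻¹ : EndW 2) * (M' : EndW 2) - 1‖ + ‖(1 : EndW 2)‖ := norm_add_le _ _
          _ ≤ 1 + 4096 * ε := by rw [norm_one]; linarith
      have e4 : (↑M⁻¹ : EndW 2) (AvP Φ s (em z) - AvP Φ t (em z)) =
          ((↑M⁻¹ : EndW 2) * (M' : EndW 2)) ((↑M'⁻¹ : EndW 2) (AvP Φ s (em z) - AvP Φ t' (em z))) +
          (↑M⁻¹ : EndW 2) (AvP Φ t' (em z) - AvP Φ t (em z)) := by
        have e5 : ((↑M⁻¹ : EndW 2) * (M' : EndW 2)) ((↑M'⁻¹ : EndW 2)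
            (AvP Φ s (em z) - AvP Φ t' (em z))) =
            (↑M⁻¹ : EndW 2) (AvP Φ s (em z) - AvP Φ t' (em z)) := by
          have e6 : (M' : EndW 2) ((↑M'⁻¹ : EndW 2) (AvP Φ s (em z) - AvP Φ t' (em z))) =
              AvP Φ s (em z) - AvP Φ t' (em z) := by
            show ((M' : EndW 2) * (↑M'⁻¹ : EndW 2)) (AvP Φ s (em z) - AvP Φ t' (em z)) = _
            rw [Units.mul_inv]
            rfl
          show (↑M⁻¹ : EndW 2) ((M' : EndW 2) ((↑M'⁻¹ : EndW 2) (AvP Φ s (em z) - AvP Φ t' (em z)))) = _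
          rw [e6]
        rw [e5, ← map_add, sub_add_sub_cancel]
      rw [e4]
      refine (norm_add_le _ _).trans ?_
      have e7 : ‖((↑M⁻¹ : EndW 2) * (M' : EndW 2)) ((↑M'⁻¹ : EndW 2)
          (AvP Φ s (em z) - AvP Φ t' (em z)))‖ ≤ (1 + 4096 * ε) * (64 * ε * t' * rad (em z)) :=
        (ContinuousLinearMap.le_opNorm _ _).trans (mul_le_mul hN e1 (norm_nonneg _) (by positivity))
      have hX : 0 < ε * t * rad (em z) := by positivity
      have e8 : (1 + 4096 * ε) * (64 * ε * t' * rad (em z)) ≤ 46 * (ε * t * rad (em z)) := by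
        have e9 : (1 + 4096 * ε) * (64 * ε * t' * rad (em z)) =
            (1 + 4096 * ε) * (32 * (ε * t * rad (em z))) := by
          rw [ht']; ring
        rw [e9]
        have : 1 + 4096 * ε ≤ 46 / 32 := by linarith
        nlinarith
      have e10 : 16 * ε * rad (em z) * (t - t') = 8 * (ε * t * rad (em z)) := by
        rw [ht']; ring
      rw [e10] at e2
      linarith

/-- The averages at two scales. -/
theorem telescope (h : HLoc Φ) {ε : ℝ} (hε : 0 < ε) (hε2 : ε ≤ 1 / 10000) (hall : AllGood Φ ε)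
    {z : W 1} (hz : z ≠ 0) {s t : ℝ} (hs0 : 0 < s) (hst : s ≤ t) (ht : t ≤ sm 2) {M : (EndW 2)ˣ}
    (hM : GoodP Φ z (t * rad (em z)) ε M) :
    ‖(↑M⁻¹ : EndW 2) (AvP Φ s (em z) - AvP Φ t (em z))‖ ≤ 64 * ε * t * rad (em z) := by
  obtain ⟨k, hk⟩ := pow_unbounded_of_one_lt (t / s) (one_lt_two)
  refine telescope_aux h hε hε2 hall hz k s t hs0 hst ht ?_ M hM
  rw [div_lt_iff₀ hs0] at hk
  have : (2 : ℝ) ^ (k + 1) * s = 2 * (2 ^ k * s) := by ring
  have h2 : 0 < 2 ^ k * s := by positivity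
  linarith

/-- The difference of one average at two close points of the plane. -/
theorem mean_seg (h : HLoc Φ) {ε : ℝ} (hε : 0 < ε) (hε2 : ε ≤ 1 / 10000) (hall : AllGood Φ ε)
    {z w : W 1} (hz : z ≠ 0) (hzw : ‖w - z‖ ≤ ‖z‖ / 200) {t : ℝ} (ht0 : 0 < t) (ht : t ≤ sm 2)
    (hd : 8 * ‖w - z‖ ≤ t * ‖z‖) {M : (EndW 2)ˣ} (hM : GoodP Φ z (t * rad (em z)) ε M) :
    ‖(↑M⁻¹ : EndW 2) (AvP Φ t (em w) - AvP Φ t (em z)) - em (w - z)‖ ≤
        5000 * ε * ‖w - z‖ ∧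
      ∀ M' : (EndW 2)ˣ, GoodP Φ w (t * rad (em w)) ε M' →
        ‖(↑M⁻¹ : EndW 2) * (M' : EndW 2) - 1‖ ≤ 4096 * ε := by
  have hzn : 0 < ‖z‖ := norm_pos_iff.2 hz
  have hR : 0 < rad (em z) := Close46.rad_pos (em_ne hz)
  have hzR := le_R z
  -- points of the segment
  have hnear : ∀ x : W 1, ‖x - z‖ ≤ ‖w - z‖ → x ≠ 0 ∧ ∀ M' : (EndW 2)ˣ,
      GoodP Φ x (t * rad (em x)) ε M' → ‖(↑M⁻¹ : EndW 2) * (M' : EndW 2) - 1‖ ≤ 4096 * ε := by
    intro x hx
    have hx0 : x ≠ 0 := by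
      intro h0
      rw [h0, zero_sub, norm_neg] at hx
      linarith
    refine ⟨hx0, fun M' hM' => ?_⟩
    have hl := R_lip x z
    rw [abs_le] at hl
    have hl1 : rad (em z) - 3 * (‖z‖ / 200) ≤ rad (em x) := by linarith [hl.1]
    have hl2 : rad (em x) ≤ rad (em z) + 3 * (‖z‖ / 200) := by linarith [hl.2]
    have hRx : 0 ≤ rad (em x) := (norm_nonneg x).trans (le_R x)
    refine cmp_local h (z := z) (z' := x) (y := z) (ρ := t * rad (em z))
      (ρ' := t * rad (em x)) (r := 4 / 5 * (t * rad (em z))) (ε := ε) (by positivity) hε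
      (by linarith) (closedBall_subset_closedBall (by nlinarith [mul_pos ht0 hR]))
      (closedBall_subset_closedBall' ?_) (by positivity) (by positivity)
      (by nlinarith [mul_pos ht0 hR]) ?_ hM hM'
    · rw [dist_eq_norm, norm_sub_rev]
      have h5 : ‖x - z‖ ≤ t * rad (em z) / 8 := by
        have : t * ‖z‖ ≤ t * rad (em z) := by gcongr
        linarith
      have h6 : t * (rad (em z) - 3 * (‖z‖ / 200)) ≤ t * rad (em x) := by gcongr
      have h7 : t * ‖z‖ ≤ t * rad (em z) := by gcongr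
      nlinarith
    · have h6 : t * rad (em x) ≤ t * (rad (em z) + 3 * (‖z‖ / 200)) := by gcongr
      have h7 : t * ‖z‖ ≤ t * rad (em z) := by gcongr
      nlinarith [mul_pos ht0 hR]
  refine ⟨?_, (hnear w le_rfl).2⟩
  have hseg : ∀ x ∈ segment ℝ z w, ‖x - z‖ ≤ ‖w - z‖ := by
    rintro x ⟨a, b, ha, hb, hab, rfl⟩
    have e : a • z + b • w - z = b • (w - z) := by
      have : a = 1 - b := by linarith
      rw [this]
      module
    rw [e, norm_smul, Real.norm_of_nonneg hb]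
    have : b ≤ 1 := by linarith
    nlinarith [norm_nonneg (w - z)]
  have hder : ∀ x ∈ segment ℝ z w, HasFDerivWithinAt (fun x : W 1 => (↑M⁻¹ : EndW 2) (AvP Φ t (em x)))
      (((↑M⁻¹ : EndW 2) : W 2 →L[ℝ] W 2).comp ((fderiv ℝ (AvP Φ t) (em x)).comp em))
      (segment ℝ z w) x := by
    intro x hx
    have hx0 := (hnear x (hseg x hx)).1
    have h1 : HasFDerivAt (AvP Φ t) (fderiv ℝ (AvP Φ t) (em x)) (em x) :=
      (hasFDerivAt_avP h ht0.le ht (em_ne hx0)).differentiableAt.hasFDerivAt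
    have h2 : HasFDerivAt (fun x : W 1 => AvP Φ t (em x)) ((fderiv ℝ (AvP Φ t) (em x)).comp em) x :=
      HasFDerivAt.comp (g := AvP Φ t) (f := fun x : W 1 => em x) x h1 em.hasFDerivAt
    exact (HasFDerivAt.comp (g := fun y : W 2 => (↑M⁻¹ : EndW 2) y)
      (f := fun x : W 1 => AvP Φ t (em x)) x (↑M⁻¹ : EndW 2).hasFDerivAt h2).hasFDerivWithinAt
  have hb : ∀ x ∈ segment ℝ z w,
      ‖(((↑M⁻¹ : EndW 2) : W 2 →L[ℝ] W 2).comp ((fderiv ℝ (AvP Φ t) (em x)).comp em)) - em‖ ≤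
        5000 * ε := by
    intro x hx
    obtain ⟨hx0, hcmp⟩ := hnear x (hseg x hx)
    obtain ⟨M', hM'⟩ := hall x hx0 (t * rad (em x)) (mul_pos ht0 (Close46.rad_pos (em_ne hx0)))
      (scale_le ht0.le ht)
    have h3 := hcmp M' hM'
    refine ContinuousLinearMap.opNorm_le_bound _ (by positivity) fun v => ?_
    have h4 := close_dir h hx0 ht0 ht hε.le hM' (em v)
    obtain ⟨y, hy⟩ : ∃ y : W 2, y = (↑M'⁻¹ : EndW 2) (fderiv ℝ (AvP Φ t) (em x) (em v)) := ⟨_, rfl⟩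
    have e1 : fderiv ℝ (AvP Φ t) (em x) (em v) = (M' : EndW 2) y := by
      rw [hy]
      show _ = ((M' : EndW 2) * (↑M'⁻¹ : EndW 2)) (fderiv ℝ (AvP Φ t) (em x) (em v))
      rw [Units.mul_inv]
      rfl
    have e2 : ((((↑M⁻¹ : EndW 2) : W 2 →L[ℝ] W 2).comp ((fderiv ℝ (AvP Φ t) (em x)).comp em)) - em) v =
        ((↑M⁻¹ : EndW 2) * (M' : EndW 2) - 1) y + (y - em v) := by
      show (↑M⁻¹ : EndW 2) (fderiv ℝ (AvP Φ t) (em x) (em v)) - em v =
        ((↑M⁻¹ : EndW 2) ((M' : EndW 2) y) - y) + (y - em v)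
      rw [e1, sub_add_sub_cancel]
    rw [← hy, norm_em] at h4
    rw [e2]
    have h5 : ‖y‖ ≤ (1 + 2 * ε) * ‖v‖ := by
      calc ‖y‖ = ‖(y - em v) + em v‖ := by rw [sub_add_cancel]
        _ ≤ ‖y - em v‖ + ‖em v‖ := norm_add_le _ _
        _ ≤ (1 + 2 * ε) * ‖v‖ := by rw [norm_em]; linarith
    have h6 : ‖((↑M⁻¹ : EndW 2) * (M' : EndW 2) - 1) y‖ ≤ 4096 * ε * ((1 + 2 * ε) * ‖v‖) :=
      (ContinuousLinearMap.le_opNorm _ _).trans (mul_le_mul h3 h5 (norm_nonneg _) (by positivity))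
    refine (norm_add_le _ _).trans ?_
    have h7 : 4096 * ε * ((1 + 2 * ε) * ‖v‖) ≤ 4098 * ε * ‖v‖ := by
      have : 4096 * (1 + 2 * ε) ≤ 4098 := by linarith
      nlinarith [mul_nonneg hε.le (norm_nonneg v)]
    nlinarith [mul_nonneg hε.le (norm_nonneg v)]
  have := Convex.norm_image_sub_le_of_norm_hasFDerivWithin_le' (s := segment ℝ z w) hder hb
    (convex_segment z w) (left_mem_segment ℝ z w) (right_mem_segment ℝ z w)
  rwa [← map_sub (↑M⁻¹ : EndW 2)] at this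

/-- Injectivity of the averages at small distances. -/
theorem inj_small (h : HLoc Φ) {ε : ℝ} (hε : 0 < ε) (hε2 : ε ≤ 1 / 100000) (hall : AllGood Φ ε)
    {z w : W 1} (hz : z ≠ 0) (hwz : ‖w‖ ≤ ‖z‖) (hzw : ‖w - z‖ ≤ ‖z‖ / 200) {s : ℝ} (hs0 : 0 < s)
    (hs : s ≤ sm 2) (he : AvP Φ s (em w) = AvP Φ s (em z)) : w = z := by
  have hzn : 0 < ‖z‖ := norm_pos_iff.2 hz
  obtain ⟨t, ht⟩ : ∃ t : ℝ, t = max s (8 * ‖w - z‖ / ‖z‖) := ⟨_, rfl⟩
  have hst : s ≤ t := by rw [ht]; exact le_max_left _ _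
  have ht0 : 0 < t := hs0.trans_le hst
  have htsm : t ≤ sm 2 := by
    rw [ht]
    refine max_le hs ?_
    rw [sm_two, div_le_iff₀ hzn]
    linarith
  have hd : 8 * ‖w - z‖ ≤ t * ‖z‖ := by
    have : 8 * ‖w - z‖ / ‖z‖ ≤ t := by rw [ht]; exact le_max_right _ _
    rwa [div_le_iff₀ hzn] at this
  have hw : w ≠ 0 := by
    intro h0
    rw [h0, zero_sub, norm_neg] at hzw
    linarith
  obtain ⟨M, hM⟩ := hall z hz (t * rad (em z)) (mul_pos ht0 (Close46.rad_pos (em_ne hz)))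
    (scale_le ht0.le htsm)
  obtain ⟨M', hM'⟩ := hall w hw (t * rad (em w)) (mul_pos ht0 (Close46.rad_pos (em_ne hw)))
    (scale_le ht0.le htsm)
  obtain ⟨e1, e2⟩ := mean_seg h hε (by linarith) hall hz hzw ht0 htsm hd hM
  have e3 := e2 M' hM'
  -- the two telescoping terms
  have key : ‖(↑M⁻¹ : EndW 2) (AvP Φ s (em z) - AvP Φ t (em z))‖ +
      ‖(↑M⁻¹ : EndW 2) (AvP Φ s (em w) - AvP Φ t (em w))‖ ≤ 4800 * ε * ‖w - z‖ := by
    rcases max_choice s (8 * ‖w - z‖ / ‖z‖) with hc | hc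
    · have hts : t = s := by rw [ht, hc]
      rw [hts, sub_self, sub_self, map_zero, norm_zero, add_zero]
      positivity
    · have htz : t * ‖z‖ = 8 * ‖w - z‖ := by
        rw [ht, hc, div_mul_cancel₀ _ hzn.ne']
      have f1 := telescope h hε (by linarith) hall hz hs0 hst htsm hM
      have f2 := telescope h hε (by linarith) hall hw hs0 hst htsm hM'
      have hN : ‖(↑M⁻¹ : EndW 2) * (M' : EndW 2)‖ ≤ 21 / 20 := by
        calc ‖(↑M⁻¹ : EndW 2) * (M' : EndW 2)‖ = ‖((↑M⁻¹ : EndW 2) * (M' : EndW 2) - 1) + 1‖ := by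
              rw [sub_add_cancel]
          _ ≤ ‖(↑M⁻¹ : EndW 2) * (M' : EndW 2) - 1‖ + ‖(1 : EndW 2)‖ := norm_add_le _ _
          _ ≤ 21 / 20 := by rw [norm_one]; linarith
      have e5 : (↑M⁻¹ : EndW 2) (AvP Φ s (em w) - AvP Φ t (em w)) =
          ((↑M⁻¹ : EndW 2) * (M' : EndW 2)) ((↑M'⁻¹ : EndW 2) (AvP Φ s (em w) - AvP Φ t (em w))) := by
        have e6 : (M' : EndW 2) ((↑M'⁻¹ : EndW 2) (AvP Φ s (em w) - AvP Φ t (em w))) =
            AvP Φ s (em w) - AvP Φ t (em w) := by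
          show ((M' : EndW 2) * (↑M'⁻¹ : EndW 2)) (AvP Φ s (em w) - AvP Φ t (em w)) = _
          rw [Units.mul_inv]
          rfl
        show _ = (↑M⁻¹ : EndW 2) ((M' : EndW 2) ((↑M'⁻¹ : EndW 2) (AvP Φ s (em w) - AvP Φ t (em w))))
        rw [e6]
      have f3 : ‖(↑M⁻¹ : EndW 2) (AvP Φ s (em w) - AvP Φ t (em w))‖ ≤
          21 / 20 * (64 * ε * t * rad (em w)) := by
        rw [e5]
        exact (ContinuousLinearMap.le_opNorm _ _).trans
          (mul_le_mul hN f2 (norm_nonneg _) (by norm_num))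
      have g1 : t * rad (em z) ≤ 24 * ‖w - z‖ := by
        have := R_le z
        have h2 : t * rad (em z) ≤ t * (3 * ‖z‖) := by gcongr
        linarith
      have g2 : t * rad (em w) ≤ 24 * ‖w - z‖ := by
        have := R_le w
        have h2 : t * rad (em w) ≤ t * (3 * ‖z‖) := by
          gcongr
          linarith
        linarith
      have g3 : 64 * ε * t * rad (em z) ≤ 64 * ε * (24 * ‖w - z‖) := by
        rw [mul_assoc]
        gcongr
      have g4 : 64 * ε * t * rad (em w) ≤ 64 * ε * (24 * ‖w - z‖) := by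
        rw [mul_assoc (64 * ε)]
        gcongr
      have g5 : 0 ≤ ε * ‖w - z‖ := by positivity
      nlinarith
  have e7 : em (w - z) = -((↑M⁻¹ : EndW 2) (AvP Φ t (em w) - AvP Φ t (em z)) - em (w - z)) +
      ((↑M⁻¹ : EndW 2) (AvP Φ s (em z) - AvP Φ t (em z)) -
        (↑M⁻¹ : EndW 2) (AvP Φ s (em w) - AvP Φ t (em w))) := by
    rw [he, ← map_sub (↑M⁻¹ : EndW 2) (AvP Φ s (em z) - AvP Φ t (em z))]
    have : AvP Φ s (em z) - AvP Φ t (em z) - (AvP Φ s (em z) - AvP Φ t (em w)) =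
        AvP Φ t (em w) - AvP Φ t (em z) := by abel
    rw [this]
    abel
  have e8 : ‖w - z‖ ≤ 5000 * ε * ‖w - z‖ + 4800 * ε * ‖w - z‖ := by
    calc ‖w - z‖ = ‖em (w - z)‖ := (norm_em _).symm
      _ ≤ ‖-((↑M⁻¹ : EndW 2) (AvP Φ t (em w) - AvP Φ t (em z)) - em (w - z))‖ +
          ‖(↑M⁻¹ : EndW 2) (AvP Φ s (em z) - AvP Φ t (em z)) -
            (↑M⁻¹ : EndW 2) (AvP Φ s (em w) - AvP Φ t (em w))‖ := by
          conv_lhs => rw [e7]
          exact norm_add_le _ _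
      _ ≤ _ := by
          rw [norm_neg]
          refine add_le_add e1 ((norm_sub_le _ _).trans key)
  have e9 : ‖w - z‖ ≤ 0 := by
    by_contra hcon
    push Not at hcon
    nlinarith
  exact sub_eq_zero.1 (norm_le_zero_iff.1 e9)

end Pool.Agent.Lib.PQ
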